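import Pool.Agent.Lib.MP_c487e3_gt.Quot

/-!
# MP_c487e3_gt: lifting couplings from `ℝ³/{±1}` to `ℝ³`
-/

open MeasureTheory Set Filter
open scoped ENNReal Topology NNReal

namespace MP_c487e3_gt

/-- A measurable fundamental domain. -/
def FD : Set E3 :=
  {x | 0 < x 0 ∨ (x 0 = 0 ∧ 0 < x 1) ∨ (x 0 = 0 ∧ x 1 = 0 ∧ 0 ≤ x 2)}

theorem measurableSet_FD : MeasurableSet FD := by
  have h0 : Measurable fun x : E3 => x 0 := (by fun_prop : Continuous fun x : E3 => x 0).measurable
  have h1 : Measurable fun x : E3 => x 1 := (by fun_prop : Continuous fun x : E3 => x 1).measurable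
  have h2 : Measurable fun x : E3 => x 2 := (by fun_prop : Continuous fun x : E3 => x 2).measurable
  have e0 : MeasurableSet {x : E3 | x 0 = 0} := measurableSet_eq_fun h0 measurable_const
  have e1 : MeasurableSet {x : E3 | x 1 = 0} := measurableSet_eq_fun h1 measurable_const
  exact (measurableSet_lt measurable_const h0).union
    ((e0.inter (measurableSet_lt measurable_const h1)).union
      (e0.inter (e1.inter (measurableSet_le measurable_const h2))))

theorem FD_or_neg (x : E3) : x ∈ FD ∨ -x ∈ FD := by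
  simp only [FD, mem_ofPred_eq, PiLp.neg_apply]
  rcases lt_trichotomy (x 0) 0 with h0 | h0 | h0
  · right; left; linarith
  · rcases lt_trichotomy (x 1) 0 with h1 | h1 | h1
    · right; right; left; exact ⟨by linarith, by linarith⟩
    · rcases le_total 0 (x 2) with h2 | h2
      · left; right; right; exact ⟨h0, h1, h2⟩
      · right; right; right; exact ⟨by linarith, by linarith, by linarith⟩
    · left; right; left; exact ⟨h0, h1⟩
  · left; left; exact h0

theorem FD_inter_neg {x : E3} (h : x ∈ FD) (h' : -x ∈ FD) : x = -x := by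
  simp only [FD, mem_ofPred_eq, PiLp.neg_apply] at h h'
  have : x 0 = 0 ∧ x 1 = 0 ∧ x 2 = 0 := by
    rcases h with h | ⟨h0, h⟩ | ⟨h0, h1, h2⟩ <;> rcases h' with h' | ⟨h0', h'⟩ | ⟨h0', h1', h2'⟩ <;>
      refine ⟨?_, ?_, ?_⟩ <;> linarith
  ext i
  fin_cases i
  · simp [this.1]
  · simp [this.2.1]
  · simp [this.2.2]

theorem mk_injOn_FD : InjOn mk FD := by
  intro x hx y hy hxy
  rcases mk_eq_iff.1 hxy with h | h
  · exact h
  · have hy' : -y ∈ FD := h ▸ hx
    rw [h]
    exact (FD_inter_neg hy hy').symm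

theorem exists_section : ∃ r : Q3 → E3, Measurable r ∧ ∀ a, mk (r a) = a := by
  set f : FD → Q3 := fun x => mk x with hf
  have hfm : Measurable f := measurable_mk.comp measurable_subtype_coe
  have hfi : Function.Injective f := fun x y hxy => Subtype.ext (mk_injOn_FD x.2 y.2 hxy)
  have : StandardBorelSpace FD := measurableSet_FD.standardBorel
  have hfe : MeasurableEmbedding f := hfm.measurableEmbedding hfi
  have hfs : Function.Surjective f := by
    intro a
    obtain ⟨x, rfl⟩ := mk_surjective a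
    rcases FD_or_neg x with h | h
    · exact ⟨⟨x, h⟩, rfl⟩
    · exact ⟨⟨-x, h⟩, mk_neg x⟩
  choose g hg using hfs
  refine ⟨fun a => (g a : E3), ?_, hg⟩
  refine measurable_subtype_coe.comp ?_
  intro A hA
  have : g ⁻¹' A = f '' A := by
    ext a
    constructor
    · intro ha
      exact ⟨g a, ha, hg a⟩
    · rintro ⟨x, hx, rfl⟩
      have : g (f x) = x := hfi (hg (f x))
      rw [mem_preimage, this]
      exact hx
  rw [this]
  exact hfe.measurableSet_image.mpr hA

/-- An even measure is determined by its image on the quotient. -/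
theorem even_ext {ν ν' : Measure E3} [IsFiniteMeasure ν] (he : ν.map Neg.neg = ν)
    (he' : ν'.map Neg.neg = ν') (h : ν.map mk = ν'.map mk) : ν = ν' := by
  obtain ⟨r, hr, hmk⟩ := exists_section
  have key : ∀ μ : Measure E3, μ.map Neg.neg = μ → ∀ A : Set E3, MeasurableSet A →
      μ A + μ A = ∫⁻ a, (A.indicator 1 (r a) + A.indicator 1 (-(r a))) ∂(μ.map mk) := by
    intro μ hμ A hA
    have hm : Measurable (A.indicator (1 : E3 → ℝ≥0∞)) := measurable_one.indicator hA
    rw [lintegral_map _ measurable_mk]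
    · have h1 : ∀ x : E3, A.indicator (1 : E3 → ℝ≥0∞) (r (mk x)) + A.indicator 1 (-(r (mk x)))
          = A.indicator 1 x + A.indicator 1 (-x) := by
        intro x
        rcases mk_eq_iff.1 (hmk (mk x)) with h | h
        · rw [h]
        · rw [h, neg_neg, add_comm]
      simp_rw [h1]
      rw [lintegral_add_left hm]
      have h2 : ∫⁻ x, A.indicator (1 : E3 → ℝ≥0∞) (-x) ∂μ = ∫⁻ x, A.indicator 1 x ∂μ := by
        conv_rhs => rw [← hμ, lintegral_map hm measurable_neg]
      rw [h2, lintegral_indicator_one hA]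
    · exact (hm.comp hr).add (hm.comp hr.neg)
  refine Measure.ext fun A hA => ?_
  have e1 := key ν he A hA
  have e2 := key ν' he' A hA
  rw [h, ← e2] at e1
  have hfin : ν A ≠ ∞ := measure_ne_top ν A
  rw [← two_mul, ← two_mul] at e1
  exact (ENNReal.mul_right_inj (by norm_num) (by norm_num)).1 e1

/-- Every coupling on the quotient lifts to a coupling of the even lifts with the same cost. -/
theorem lift_coupling {μ₀ μ₁ : Measure Q3} {ν₀ ν₁ : Measure E3} [IsFiniteMeasure ν₀]
    [IsFiniteMeasure ν₁] (he₀ : ν₀.map Neg.neg = ν₀) (he₁ : ν₁.map Neg.neg = ν₁)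
    (hm₀ : ν₀.map mk = μ₀) (hm₁ : ν₁.map mk = μ₁) {ω : Measure (Q3 × Q3)}
    (hω : IsCoupling ω μ₀ μ₁) :
    ∃ ωh : Measure (E3 × E3), IsCoupling ωh ν₀ ν₁ ∧
      ∫⁻ p, ENNReal.ofReal (N1 (p.1 - p.2)) ^ 2 ∂ωh = ∫⁻ p, edist p.1 p.2 ^ 2 ∂ω := by
  classical
  obtain ⟨r, hr, hmk⟩ := exists_section
  set g : Q3 × Q3 → E3 × E3 := fun p =>
    if N1 (r p.1 - r p.2) ≤ N1 (r p.1 + r p.2) then (r p.1, r p.2) else (r p.1, -(r p.2)) with hg
  have hr1 : Measurable fun p : Q3 × Q3 => r p.1 := hr.comp measurable_fst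
  have hr2 : Measurable fun p : Q3 × Q3 => r p.2 := hr.comp measurable_snd
  have hN : Measurable N1 := continuous_N1.measurable
  have hgm : Measurable g := by
    refine Measurable.ite ?_ (hr1.prodMk hr2) (hr1.prodMk hr2.neg)
    exact measurableSet_le (hN.comp (hr1.sub hr2)) (hN.comp (hr1.add hr2))
  have hg1 : ∀ p, mk (g p).1 = p.1 := by
    intro p
    simp only [hg]
    split_ifs <;> exact hmk _
  have hg2 : ∀ p, mk (g p).2 = p.2 := by
    intro p
    simp only [hg]
    split_ifs
    · exact hmk _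
    · show mk (-(r p.2)) = p.2
      rw [mk_neg]
      exact hmk _
  have hgd : ∀ p, ENNReal.ofReal (N1 ((g p).1 - (g p).2)) = edist p.1 p.2 := by
    intro p
    conv_rhs => rw [← hmk p.1, ← hmk p.2, edist_mk]
    simp only [hg]
    split_ifs with h
    · rw [min_eq_left h]
    · rw [min_eq_right (not_le.1 h).le, sub_neg_eq_add]
  set N2 : E3 × E3 → E3 × E3 := fun p => (-p.1, -p.2) with hN2
  have hN2m : Measurable N2 := (measurable_fst.neg).prodMk (measurable_snd.neg)
  set ω₁ := ω.map g with hω₁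
  set ωh : Measure (E3 × E3) := (1 / 2 : ℝ≥0∞) • (ω₁ + ω₁.map N2) with hωh
  have marg : ∀ (pr : E3 × E3 → E3) (prQ : Q3 × Q3 → Q3) (μ : Measure Q3) (ν : Measure E3),
      Measurable pr → Measurable prQ → (∀ p, pr (N2 p) = -(pr p)) → (∀ p, mk (pr (g p)) = prQ p) →
      ω.map prQ = μ → IsFiniteMeasure ν → ν.map Neg.neg = ν → ν.map mk = μ →
      ωh.map pr = ν := by
    intro pr prQ μ ν hpr hprQ hneg hmkpr hmarg hfin heven hmap
    have hmneg : Measurable (Neg.neg : E3 → E3) := measurable_neg
    have e1 : ωh.map pr = (1 / 2 : ℝ≥0∞) • (ω₁.map pr + (ω₁.map pr).map Neg.neg) := by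
      rw [hωh, Measure.map_smul, Measure.map_add _ _ hpr, Measure.map_map hpr hN2m,
        Measure.map_map hmneg hpr]
      congr 3
      funext p
      exact hneg p
    have e2 : (ωh.map pr).map Neg.neg = ωh.map pr := by
      rw [e1, Measure.map_smul, Measure.map_add _ _ hmneg, Measure.map_map hmneg hmneg]
      have : (Neg.neg ∘ Neg.neg : E3 → E3) = id := by
        funext x
        simp
      rw [this, Measure.map_id, add_comm]
    have e3 : (ωh.map pr).map mk = μ := by
      have hn : (ω₁.map pr).map (mk ∘ Neg.neg) = (ω₁.map pr).map mk := by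
        congr 1
        funext x
        exact mk_neg x
      rw [e1, Measure.map_smul, Measure.map_add _ _ measurable_mk,
        Measure.map_map measurable_mk hmneg, hn, Measure.map_map measurable_mk hpr, hω₁,
        Measure.map_map (measurable_mk.comp hpr) hgm]
      have : (mk ∘ pr) ∘ g = prQ := by
        funext p
        exact hmkpr p
      rw [this, hmarg, ← two_smul ℝ≥0∞ μ, smul_smul]
      simp [ENNReal.inv_mul_cancel]
    exact (even_ext heven e2 (hmap.trans e3.symm)).symm
  refine ⟨ωh, ⟨marg Prod.fst Prod.fst μ₀ ν₀ measurable_fst measurable_fst (fun _ => rfl) hg1 hω.1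
    inferInstance he₀ hm₀, marg Prod.snd Prod.snd μ₁ ν₁ measurable_snd measurable_snd
    (fun _ => rfl) hg2 hω.2 inferInstance he₁ hm₁⟩, ?_⟩
  have hcm : Measurable fun p : E3 × E3 => ENNReal.ofReal (N1 (p.1 - p.2)) ^ 2 :=
    ((hN.comp (measurable_fst.sub measurable_snd)).ennreal_ofReal).pow_const 2
  rw [hωh, lintegral_smul_measure, lintegral_add_measure, lintegral_map hcm hN2m]
  have h1 : ∀ p : E3 × E3, ENNReal.ofReal (N1 ((N2 p).1 - (N2 p).2)) ^ 2
      = ENNReal.ofReal (N1 (p.1 - p.2)) ^ 2 := by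
    intro p
    simp only [hN2]
    rw [show -p.1 - -p.2 = -(p.1 - p.2) by abel, N1_neg]
  simp_rw [h1]
  rw [hω₁, lintegral_map hcm hgm]
  simp_rw [hgd]
  rw [← two_mul, smul_eq_mul, ← mul_assoc]
  simp [ENNReal.inv_mul_cancel]

end MP_c487e3_gt
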