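import Pool.Agent.Lib.MP_c487e3_gt.Defs

/-!
# MP_c487e3_gt: the triangle inequality of the `L²`-Wasserstein distance
-/

open MeasureTheory Set Filter ProbabilityTheory
open scoped ENNReal Topology

namespace MP_c487e3_gt

/-- Gluing of two couplings. -/
theorem exists_gluing {X : Type*} [MeasurableSpace X] [StandardBorelSpace X]
    {μ ν ρ : Measure X} [IsProbabilityMeasure μ] [IsProbabilityMeasure ν]
    {π₁ π₂ : Measure (X × X)} (h₁ : IsCoupling π₁ μ ν) (h₂ : IsCoupling π₂ ν ρ) :
    ∃ σ : Measure ((X × X) × X), σ.map Prod.fst = π₁ ∧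
      σ.map (fun p => (p.1.2, p.2)) = π₂ ∧
        IsCoupling (σ.map (fun p => (p.1.1, p.2))) μ ρ := by
  have hne : Nonempty X := by
    by_contra hX
    rw [not_nonempty_iff] at hX
    have h := measure_univ (μ := μ)
    rw [univ_eq_empty_iff.2 hX, measure_empty] at h
    exact zero_ne_one h
  have hp1 : IsProbabilityMeasure π₁ := by
    refine ⟨?_⟩
    have h : π₁ univ = μ univ := by
      rw [← h₁.1, Measure.map_apply measurable_fst MeasurableSet.univ, preimage_univ]
    rw [h, measure_univ]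
  have hp2 : IsProbabilityMeasure π₂ := by
    refine ⟨?_⟩
    have h : π₂ univ = ν univ := by
      rw [← h₂.1, Measure.map_apply measurable_fst MeasurableSet.univ, preimage_univ]
    rw [h, measure_univ]
  set κ : Kernel X X := π₂.condKernel with hκ
  have hdis : ν ⊗ₘ κ = π₂ := by
    have h := π₂.disintegrate π₂.condKernel
    have h' : π₂.fst = ν := h₂.1
    rwa [h'] at h
  set σ : Measure ((X × X) × X) := π₁ ⊗ₘ (κ.comap Prod.snd measurable_snd) with hσ
  have hσ1 : σ.map Prod.fst = π₁ := by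
    have h := Measure.fst_compProd π₁ (κ.comap Prod.snd measurable_snd)
    exact h
  have hσ2 : σ.map (fun p => (p.1.2, p.2)) = π₂ := by
    have hm : Measurable (fun p : (X × X) × X => (p.1.2, p.2)) := by fun_prop
    rw [← hdis]
    apply Measure.ext
    intro s hs
    rw [Measure.map_apply hm hs, hσ, Measure.compProd_apply (hm hs), Measure.compProd_apply hs]
    rw [← h₁.2, lintegral_map (Kernel.measurable_kernel_prodMk_left hs) measurable_snd]
    rfl
  refine ⟨σ, hσ1, hσ2, ?_, ?_⟩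
  · rw [Measure.map_map measurable_fst (by fun_prop), ← h₁.1, ← hσ1,
      Measure.map_map measurable_fst measurable_fst]
    rfl
  · rw [Measure.map_map measurable_snd (by fun_prop), ← h₂.2, ← hσ2,
      Measure.map_map measurable_snd (by fun_prop)]
    rfl

/-- `W₂` is at most the cost of any coupling. -/
theorem W2_le {X : Type*} [PseudoEMetricSpace X] [MeasurableSpace X] {μ ν : Measure X}
    {π : Measure (X × X)} (h : IsCoupling π μ ν) :
    W2 μ ν ≤ (∫⁻ p, edist p.1 p.2 ^ 2 ∂π) ^ (1 / 2 : ℝ) :=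
  ENNReal.rpow_le_rpow (iInf₂_le π h) (by norm_num)

theorem W2_eq_iInf {X : Type*} [PseudoEMetricSpace X] [MeasurableSpace X] (μ ν : Measure X) :
    W2 μ ν = ⨅ (π : Measure (X × X)) (_ : IsCoupling π μ ν),
      (∫⁻ p, edist p.1 p.2 ^ 2 ∂π) ^ (1 / 2 : ℝ) := by
  unfold W2
  have h := (ENNReal.orderIsoRpow (1 / 2 : ℝ) (by norm_num)).map_iInf
    (fun π : Measure (X × X) => ⨅ (_ : IsCoupling π μ ν), ∫⁻ p, edist p.1 p.2 ^ 2 ∂π)
  simp only [ENNReal.orderIsoRpow_apply] at h
  rw [h]
  refine iInf_congr fun π => ?_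
  have h' := (ENNReal.orderIsoRpow (1 / 2 : ℝ) (by norm_num)).map_iInf
    (fun _ : IsCoupling π μ ν => ∫⁻ p, edist p.1 p.2 ^ 2 ∂π)
  simp only [ENNReal.orderIsoRpow_apply] at h'
  exact h'

/-- The triangle inequality of `W₂`. -/
theorem W2_triangle {X : Type*} [MetricSpace X] [MeasurableSpace X] [BorelSpace X]
    [PolishSpace X] (μ ν ρ : Measure X) [IsProbabilityMeasure μ] [IsProbabilityMeasure ν]
    [IsProbabilityMeasure ρ] : W2 μ ρ ≤ W2 μ ν + W2 ν ρ := by
  rw [W2_eq_iInf μ ν, W2_eq_iInf ν ρ]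
  simp only [ENNReal.iInf_add, ENNReal.add_iInf]
  refine le_iInf fun π₂ => le_iInf fun h₂ => le_iInf fun π₁ => le_iInf fun h₁ => ?_
  obtain ⟨σ, hσ1, hσ2, hσ3⟩ := exists_gluing h₁ h₂
  refine (W2_le hσ3).trans ?_
  have hm : Measurable (fun p : (X × X) × X => (p.1.1, p.2)) := by fun_prop
  have hm2 : Measurable (fun p : (X × X) × X => (p.1.2, p.2)) := by fun_prop
  have hd : Measurable (fun p : X × X => edist p.1 p.2 ^ 2) := by fun_prop
  rw [lintegral_map hd hm, ← hσ1, lintegral_map hd measurable_fst, ← hσ2,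
    lintegral_map hd hm2]
  have hM := ENNReal.lintegral_Lp_add_le (μ := σ) (p := 2)
    (f := fun p => edist p.1.1 p.1.2) (g := fun p => edist p.1.2 p.2)
    (by fun_prop) (by fun_prop) (by norm_num)
  simp only [ENNReal.rpow_two, Pi.add_apply] at hM
  refine le_trans ?_ hM
  apply ENNReal.rpow_le_rpow _ (by norm_num)
  apply lintegral_mono
  intro p
  exact pow_le_pow_left' (edist_triangle _ _ _) 2

end MP_c487e3_gt
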