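import Pool.Agent.Lib.MP_c487e3_gt.LiftMeas
import Pool.Agent.Lib.MP_c487e3_gt.LiftPlan
import Pool.Agent.Lib.MP_c487e3_gt.W2Tri

/-!
# MP_c487e3_gt: `CD(0,3)` for the quotient `ℝ³/{±1}`
-/

open MeasureTheory Set Filter
open scoped ENNReal Topology NNReal

namespace MP_c487e3_gt

theorem W2_comm {X : Type*} [PseudoEMetricSpace X] [MeasurableSpace X] (μ ν : Measure X) :
    W2 μ ν = W2 ν μ := by
  have key : ∀ μ ν : Measure X, W2 μ ν ≤ W2 ν μ := by
    intro μ ν
    unfold W2
    refine ENNReal.rpow_le_rpow ?_ (by norm_num)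
    refine le_iInf₂ fun π hπ => ?_
    have hsw : IsCoupling (π.map Prod.swap) μ ν := by
      constructor
      · rw [Measure.map_map measurable_fst measurable_swap]
        exact hπ.2
      · rw [Measure.map_map measurable_snd measurable_swap]
        exact hπ.1
    refine (iInf₂_le (f := fun (π : Measure (X × X)) (_ : IsCoupling π μ ν) =>
      ∫⁻ p, edist p.1 p.2 ^ 2 ∂π) _ hsw).trans (le_of_eq ?_)
    have e : π.map Prod.swap = π.map (MeasurableEquiv.prodComm : X × X ≃ᵐ X × X) := rfl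
    rw [e, lintegral_map_equiv]
    refine lintegral_congr fun p => ?_
    simp [MeasurableEquiv.prodComm, edist_comm]
  exact le_antisymm (key μ ν) (key ν μ)

theorem exists_radius {μ : Measure Q3} (hb : BddSupport μ) :
    ∃ R : ℝ, 0 ≤ R ∧ μ (mk '' (Metric.closedBall (0 : E3) R))ᶜ = 0 := by
  obtain ⟨x, r, hr⟩ := hb
  refine ⟨|r| + dist x (mk 0), by positivity, ?_⟩
  refine measure_mono_null ?_ hr
  rw [compl_subset_compl]
  intro q hq
  obtain ⟨y, rfl⟩ := mk_surjective q
  refine ⟨y, ?_, rfl⟩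
  rw [mem_closedBall_zero_iff]
  refine (norm_le_N1 y).trans ?_
  rw [← dist_mk_zero y]
  refine (dist_triangle _ x _).trans ?_
  have h1 := Metric.mem_closedBall.1 hq
  have h2 := le_abs_self r
  linarith

/-- The statement of `cd_base` (the `ℓ¹` norm on `ℝ³`). -/
def CDBase : Prop :=
  ∀ (μ₀ μ₁ : Measure E3) [IsProbabilityMeasure μ₀] [IsProbabilityMeasure μ₁],
    μ₀ ≪ volume → μ₁ ≪ volume → ∀ {R : ℝ}, μ₀ (Metric.closedBall 0 R)ᶜ = 0 →
    μ₁ (Metric.closedBall 0 R)ᶜ = 0 →
    ∃ π : Measure (E3 × E3), IsCoupling π μ₀ μ₁ ∧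
      (∀ π', IsCoupling π' μ₀ μ₁ → ∫⁻ p, ENNReal.ofReal (N1 (p.1 - p.2)) ^ 2 ∂π ≤
        ∫⁻ p, ENNReal.ofReal (N1 (p.1 - p.2)) ^ 2 ∂π') ∧
      ∀ t ∈ Icc (0 : ℝ) 1, ∀ N' : ℝ, 3 ≤ N' →
        ENNReal.ofReal (1 - t) * renyi volume N' μ₀ + ENNReal.ofReal t * renyi volume N' μ₁ ≤
          renyi volume N' (π.map (fun p => (1 - t) • p.1 + t • p.2))

theorem cd_Q3_of_base (hbase : CDBase) : CD0 mQ 3 := by
  intro μ₀ μ₁ hP₀ hP₁ h₀ h₁ hb₀ hb₁
  have := hP₀.1
  have := hP₁.1
  set ν₀ := (volume : Measure E3).withDensity (fun x => μ₀.rnDeriv mQ (mk x)) with hν₀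
  set ν₁ := (volume : Measure E3).withDensity (fun x => μ₁.rnDeriv mQ (mk x)) with hν₁
  obtain ⟨hm₀, he₀, hr₀⟩ := exists_lift μ₀ h₀
  obtain ⟨hm₁, he₁, hr₁⟩ := exists_lift μ₁ h₁
  have : IsProbabilityMeasure ν₀ := exists_lift_prob μ₀ h₀
  have : IsProbabilityMeasure ν₁ := exists_lift_prob μ₁ h₁
  have hac₀ : ν₀ ≪ volume := withDensity_absolutelyContinuous _ _
  have hac₁ : ν₁ ≪ volume := withDensity_absolutelyContinuous _ _
  obtain ⟨R₀, hR₀, hR₀'⟩ := exists_radius hb₀
  obtain ⟨R₁, hR₁, hR₁'⟩ := exists_radius hb₁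
  set R := max R₀ R₁ with hR
  have hsupp : ∀ (μ : Measure Q3) (ν : Measure E3) (S : ℝ), S ≤ R → ν.map mk = μ →
      μ (mk '' (Metric.closedBall (0 : E3) S))ᶜ = 0 → ν (Metric.closedBall 0 R)ᶜ = 0 := by
    intro μ ν S hS hmap hμ
    have hK : IsCompact (mk '' (Metric.closedBall (0 : E3) S)) :=
      (isCompact_closedBall 0 S).image mk_continuous
    rw [← hmap, Measure.map_apply measurable_mk hK.measurableSet.compl] at hμ
    refine measure_mono_null ?_ hμ
    rw [preimage_compl, compl_subset_compl]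
    rintro x ⟨y, hy, hxy⟩
    have hnorm : ‖x‖ = ‖y‖ := by
      rcases mk_eq_iff.1 hxy with h | h
      · rw [h]
      · rw [h, norm_neg]
    rw [mem_closedBall_zero_iff] at hy ⊢
    linarith
  have hs₀ := hsupp μ₀ ν₀ R₀ (le_max_left _ _) hm₀ hR₀'
  have hs₁ := hsupp μ₁ ν₁ R₁ (le_max_right _ _) hm₁ hR₁'
  obtain ⟨π, hπ, hopt, hren⟩ := hbase ν₀ ν₁ hac₀ hac₁ hs₀ hs₁
  have hπp : IsProbabilityMeasure π := by
    refine ⟨?_⟩
    have h1 : π univ = ν₀ univ := by
      rw [← hπ.1, Measure.map_apply measurable_fst MeasurableSet.univ, preimage_univ]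
    rw [h1, measure_univ]
  -- the interpolation
  set z : ℝ → E3 × E3 → E3 := fun t p => (1 - t) • p.1 + t • p.2 with hz
  have hzm : ∀ t, Measurable (z t) := fun t => by
    have : Continuous (z t) := by
      simp only [hz]
      fun_prop
    exact this.measurable
  set μ : ℝ → Measure Q3 := fun t => (π.map (z t)).map mk with hμ
  have hμmap : ∀ t, μ t = π.map (fun p => mk (z t p)) := fun t => by
    simp only [hμ]
    rw [Measure.map_map measurable_mk (hzm t)]
    rfl
  have hmkz : ∀ t, Measurable fun p => mk (z t p) := fun t => measurable_mk.comp (hzm t)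
  have hprob : ∀ t, IsProbabilityMeasure (μ t) := fun t => by
    rw [hμmap]
    exact Measure.isProbabilityMeasure_map (hmkz t).aemeasurable
  have hμ0 : μ 0 = μ₀ := by
    have : z 0 = Prod.fst := by
      funext p
      simp [hz]
    simp only [hμ, this]
    rw [hπ.1, hm₀]
  have hμ1 : μ 1 = μ₁ := by
    have : z 1 = Prod.snd := by
      funext p
      simp [hz]
    simp only [hμ, this]
    rw [hπ.2, hm₁]
  have hπsupp : ∀ᵐ p ∂π, ‖p.1‖ ≤ R ∧ ‖p.2‖ ≤ R := by
    have h1 : ∀ᵐ p ∂π, p.1 ∈ Metric.closedBall (0 : E3) R := by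
      rw [← hπ.1] at hs₀
      have := (ae_map_iff (measurable_fst (α := E3) (β := E3)).aemeasurable
        Metric.isClosed_closedBall.measurableSet).1 (ae_iff.2 hs₀ :
          ∀ᵐ x ∂(π.map Prod.fst), x ∈ Metric.closedBall (0 : E3) R)
      exact this
    have h2 : ∀ᵐ p ∂π, p.2 ∈ Metric.closedBall (0 : E3) R := by
      rw [← hπ.2] at hs₁
      have := (ae_map_iff (measurable_snd (α := E3) (β := E3)).aemeasurable
        Metric.isClosed_closedBall.measurableSet).1 (ae_iff.2 hs₁ :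
          ∀ᵐ x ∂(π.map Prod.snd), x ∈ Metric.closedBall (0 : E3) R)
      exact this
    filter_upwards [h1, h2] with p hp1 hp2
    exact ⟨mem_closedBall_zero_iff.1 hp1, mem_closedBall_zero_iff.1 hp2⟩
  have hcm : Measurable fun p : E3 × E3 => ENNReal.ofReal (N1 (p.1 - p.2)) ^ 2 :=
    ((continuous_N1.measurable.comp (measurable_fst.sub measurable_snd)).ennreal_ofReal).pow_const 2
  set D : ℝ≥0∞ := (∫⁻ p, ENNReal.ofReal (N1 (p.1 - p.2)) ^ 2 ∂π) ^ (1 / 2 : ℝ) with hD
  have hDfin : D ≠ ∞ := by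
    have h1 : ∫⁻ p, ENNReal.ofReal (N1 (p.1 - p.2)) ^ 2 ∂π ≤
        ∫⁻ _, ENNReal.ofReal (6 * R) ^ 2 ∂π := by
      refine lintegral_mono_ae ?_
      filter_upwards [hπsupp] with p hp
      gcongr
      refine (N1_le_norm _).trans ?_
      have := norm_sub_le p.1 p.2
      linarith [hp.1, hp.2]
    rw [lintegral_const, measure_univ, mul_one] at h1
    refine (ENNReal.rpow_lt_top_of_nonneg (by norm_num) ?_).ne
    exact (h1.trans_lt (by finiteness)).ne
  -- upper bound
  have hupper : ∀ s t : ℝ, W2 (μ s) (μ t) ≤ ENNReal.ofReal |s - t| * D := by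
    intro s t
    have hc : IsCoupling (π.map fun p => (mk (z s p), mk (z t p))) (μ s) (μ t) := by
      constructor
      · rw [Measure.map_map measurable_fst ((hmkz s).prodMk (hmkz t)), hμmap]
        rfl
      · rw [Measure.map_map measurable_snd ((hmkz s).prodMk (hmkz t)), hμmap]
        rfl
    refine (W2_le hc).trans ?_
    have hcost : ∫⁻ q, edist q.1 q.2 ^ 2 ∂(π.map fun p => (mk (z s p), mk (z t p))) ≤
        (ENNReal.ofReal |s - t|) ^ 2 * ∫⁻ p, ENNReal.ofReal (N1 (p.1 - p.2)) ^ 2 ∂π := by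
      rw [lintegral_map (by fun_prop) ((hmkz s).prodMk (hmkz t)), ← lintegral_const_mul _ hcm]
      refine lintegral_mono fun p => ?_
      simp only
      rw [← mul_pow, ← ENNReal.ofReal_mul (abs_nonneg _)]
      gcongr
      refine (edist_mk_le _ _).trans (le_of_eq ?_)
      congr 1
      have : z s p - z t p = (t - s) • (p.1 - p.2) := by
        simp only [hz]
        module
      rw [this, N1_smul, abs_sub_comm]
    calc (∫⁻ q, edist q.1 q.2 ^ 2 ∂(π.map fun p => (mk (z s p), mk (z t p)))) ^ (1 / 2 : ℝ)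
        ≤ ((ENNReal.ofReal |s - t|) ^ 2 *
            ∫⁻ p, ENNReal.ofReal (N1 (p.1 - p.2)) ^ 2 ∂π) ^ (1 / 2 : ℝ) :=
          ENNReal.rpow_le_rpow hcost (by norm_num)
      _ = ENNReal.ofReal |s - t| * D := by
          rw [ENNReal.mul_rpow_of_nonneg _ _ (by norm_num), ← ENNReal.rpow_natCast,
            ← ENNReal.rpow_mul]
          norm_num
          rfl
  -- lower bound
  have hlower : D ≤ W2 μ₀ μ₁ := by
    unfold W2
    refine ENNReal.rpow_le_rpow ?_ (by norm_num)
    refine le_iInf₂ fun ω hω => ?_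
    obtain ⟨ωh, hωh, hcost⟩ := lift_coupling he₀ he₁ hm₀ hm₁ hω
    rw [← hcost]
    exact hopt ωh hωh
  have hDeq : W2 (μ 0) (μ 1) = D := by
    refine le_antisymm ?_ ?_
    · have := hupper 0 1
      simpa using this
    · rw [hμ0, hμ1]
      exact hlower
  have hgeo : ∀ s ∈ Icc (0 : ℝ) 1, ∀ t ∈ Icc (0 : ℝ) 1, s ≤ t →
      W2 (μ s) (μ t) = ENNReal.ofReal |s - t| * D := by
    intro s hs t ht hst
    refine le_antisymm (hupper s t) ?_
    have htri : D ≤ W2 (μ 0) (μ s) + (W2 (μ s) (μ t) + W2 (μ t) (μ 1)) := by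
      have := hprob 0
      have := hprob 1
      have := hprob s
      have := hprob t
      rw [← hDeq]
      refine (W2_triangle (μ 0) (μ s) (μ 1)).trans ?_
      gcongr
      exact W2_triangle (μ s) (μ t) (μ 1)
    have h1 : W2 (μ 0) (μ s) ≤ ENNReal.ofReal s * D := by
      have := hupper 0 s
      rwa [zero_sub, abs_neg, abs_of_nonneg hs.1] at this
    have h2 : W2 (μ t) (μ 1) ≤ ENNReal.ofReal (1 - t) * D := by
      have := hupper t 1
      rwa [abs_sub_comm, abs_of_nonneg (by linarith [ht.2])] at this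
    have h3 : ENNReal.ofReal s * D + (ENNReal.ofReal (t - s) * D + ENNReal.ofReal (1 - t) * D)
        ≤ ENNReal.ofReal s * D + (W2 (μ s) (μ t) + ENNReal.ofReal (1 - t) * D) := by
      calc ENNReal.ofReal s * D + (ENNReal.ofReal (t - s) * D + ENNReal.ofReal (1 - t) * D)
          = D := by
            rw [← add_mul, ← add_mul, ← ENNReal.ofReal_add (by linarith) (by linarith [ht.2]),
              ← ENNReal.ofReal_add hs.1 (by linarith [hs.1, ht.2])]
            have : s + (t - s + (1 - t)) = 1 := by ring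
            rw [this, ENNReal.ofReal_one, one_mul]
        _ ≤ W2 (μ 0) (μ s) + (W2 (μ s) (μ t) + W2 (μ t) (μ 1)) := htri
        _ ≤ _ := by gcongr
    have f1 : ENNReal.ofReal s * D ≠ ∞ := ENNReal.mul_ne_top ENNReal.ofReal_ne_top hDfin
    have f2 : ENNReal.ofReal (1 - t) * D ≠ ∞ := ENNReal.mul_ne_top ENNReal.ofReal_ne_top hDfin
    have h4 := (ENNReal.add_le_add_iff_left f1).1 h3
    have h5 := (ENNReal.add_le_add_iff_right f2).1 h4
    rwa [abs_sub_comm, abs_of_nonneg (by linarith)]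
  refine ⟨μ, ⟨?_, ?_⟩, hμ0, hμ1, ?_⟩
  · intro t ht
    refine ⟨hprob t, mk 0, ?_⟩
    rw [hμmap, lintegral_map (by fun_prop) (hmkz t)]
    have h1 : ∫⁻ p, edist (mk (z t p)) (mk 0) ^ 2 ∂π ≤ ∫⁻ _, ENNReal.ofReal (3 * R) ^ 2 ∂π := by
      refine lintegral_mono_ae ?_
      filter_upwards [hπsupp] with p hp
      rw [edist_dist, dist_mk_zero]
      gcongr
      refine (N1_le_norm _).trans ?_
      have h2 : ‖z t p‖ ≤ (1 - t) * ‖p.1‖ + t * ‖p.2‖ := by
        simp only [hz]
        refine (norm_add_le _ _).trans (le_of_eq ?_)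
        rw [norm_smul, norm_smul, Real.norm_eq_abs, Real.norm_eq_abs,
          abs_of_nonneg (by linarith [ht.2]), abs_of_nonneg ht.1]
      have h3 : (1 - t) * ‖p.1‖ ≤ (1 - t) * R := by
        have : 0 ≤ 1 - t := by linarith [ht.2]
        gcongr
        exact hp.1
      have h4 : t * ‖p.2‖ ≤ t * R := by
        have := ht.1
        gcongr
        exact hp.2
      nlinarith
    rw [lintegral_const, measure_univ, mul_one] at h1
    exact h1.trans_lt (by finiteness)
  · intro s hs t ht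
    rw [hDeq]
    rcases le_total s t with h | h
    · exact hgeo s hs t ht h
    · rw [W2_comm, abs_sub_comm]
      exact hgeo t ht s hs h
  · intro t ht N' hN'
    rw [← hr₀ N', ← hr₁ N']
    refine (hren t ht N' hN').trans ?_
    have := Measure.isProbabilityMeasure_map (μ := π) (hzm t).aemeasurable
    exact renyi_push (π.map (z t)) (by linarith)

end MP_c487e3_gt
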