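import Mathlib

/-!
# MP_c487e3_gt: area inequalities for Lipschitz maps
-/

open MeasureTheory Set Filter Metric Measure
open scoped ENNReal Topology NNReal

namespace MP_c487e3_gt

section

variable {E : Type*} [NormedAddCommGroup E] [NormedSpace ℝ E] [FiniteDimensional ℝ E]
  [MeasurableSpace E] [BorelSpace E] (μ : Measure E) [μ.IsAddHaarMeasure]

/-- Lipschitz maps preserve null sets. -/
theorem null_image {f : E → E} {C : ℝ≥0} (hf : LipschitzWith C f) {s : Set E} (hs : μ s = 0) :
    μ (f '' s) = 0 := by
  have h1 : μ ≪ μH[Module.finrank ℝ E] := absolutelyContinuous_isAddHaarMeasure _ _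
  have h2 : (μH[Module.finrank ℝ E] : Measure E) ≪ μ := absolutelyContinuous_isAddHaarMeasure _ _
  apply h1
  have h3 := hf.hausdorffMeasure_image_le (d := Module.finrank ℝ E) (by positivity) s
  rw [h2 hs, mul_zero] at h3
  exact le_antisymm h3 (zero_le)

/-- The weighted area inequality (no injectivity). -/
theorem withDensity_image_le {f : E → E} (hf : Continuous f) {f' : E → E →L[ℝ] E} {s : Set E}
    (hs : MeasurableSet s) (hf' : ∀ x ∈ s, HasFDerivWithinAt f (f' x) s x) {g : E → ℝ≥0∞}
    (hg : Measurable g) :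
    (μ.withDensity g) (f '' s) ≤ ∫⁻ x in s, g (f x) * ENNReal.ofReal |(f' x).det| ∂μ := by
  have hdet : AEMeasurable (fun x => ENNReal.ofReal |(f' x).det|) (μ.restrict s) :=
    aemeasurable_ofReal_abs_det_fderivWithin μ hs hf'
  set κ : Measure E := ((μ.restrict s).withDensity (fun x => ENNReal.ofReal |(f' x).det|)).map f
    with hκ
  have hle : μ.restrict (f '' s) ≤ κ := by
    refine Measure.le_intro fun A hA _ => ?_
    rw [Measure.restrict_apply hA, hκ, Measure.map_apply hf.measurable hA,
      withDensity_apply _ (hf.measurable hA), Measure.restrict_restrict (hf.measurable hA)]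
    have hset : A ∩ f '' s = f '' (f ⁻¹' A ∩ s) := by
      ext y
      constructor
      · rintro ⟨hyA, x, hx, rfl⟩
        exact ⟨x, ⟨hyA, hx⟩, rfl⟩
      · rintro ⟨x, ⟨hxA, hx⟩, rfl⟩
        exact ⟨hxA, x, hx, rfl⟩
    rw [hset]
    exact addHaar_image_le_lintegral_abs_det_fderiv μ ((hf.measurable hA).inter hs)
      (fun x hx => (hf' x hx.2).mono inter_subset_right)
  calc (μ.withDensity g) (f '' s) = ∫⁻ y in f '' s, g y ∂μ := withDensity_apply' _ _
    _ ≤ ∫⁻ y, g y ∂κ := lintegral_mono' hle le_rfl
    _ = ∫⁻ x, g (f x) ∂((μ.restrict s).withDensity (fun x => ENNReal.ofReal |(f' x).det|)) := by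
        rw [hκ, lintegral_map hg hf.measurable]
    _ = ∫⁻ x in s, g (f x) * ENNReal.ofReal |(f' x).det| ∂μ := by
        have h := lintegral_withDensity_eq_lintegral_mul₀ (μ := μ.restrict s) hdet
          (g := fun x => g (f x)) (hg.comp hf.measurable).aemeasurable
        rw [h]
        refine lintegral_congr fun x => ?_
        simp only [Pi.mul_apply]
        rw [mul_comm]

end

end MP_c487e3_gt
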