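import Pool.Agent.Lib.MP_c487e3_gt.CycMono
import Pool.Agent.Lib.MP_c487e3_gt.MeasIneq

/-!
# MP_c487e3_gt: from the Jacobian inequality to the Rényi inequality
-/

open MeasureTheory Set Filter Metric Measure
open scoped ENNReal Topology NNReal

namespace MP_c487e3_gt

section renyi

variable {X : Type*} [MeasurableSpace X]

theorem renyi_eq_lintegral_inv (m : Measure X) [SigmaFinite m] (μ : Measure X) [IsFiniteMeasure μ]
    (hμ : μ ≪ m) {N : ℝ} (hN : 1 < N) :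
    renyi m N μ = ∫⁻ x, ((μ.rnDeriv m x) ^ (1 / N))⁻¹ ∂μ := by
  have hN0 : 0 < N := by linarith
  have hp : 0 < 1 - 1 / N := by
    rw [sub_pos, div_lt_one hN0]
    exact hN
  have hmeas : Measurable (μ.rnDeriv m) := Measure.measurable_rnDeriv _ _
  have h1 : ∫⁻ x, ((μ.rnDeriv m x) ^ (1 / N))⁻¹ ∂μ
      = ∫⁻ x, ((μ.rnDeriv m x) ^ (1 / N))⁻¹ ∂(m.withDensity (μ.rnDeriv m)) := by
    rw [Measure.withDensity_rnDeriv_eq _ _ hμ]
  have h2 := lintegral_withDensity_eq_lintegral_mul m hmeas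
    (g := fun x => ((μ.rnDeriv m x) ^ (1 / N))⁻¹) (hmeas.pow_const _).inv
  rw [h1, h2, renyi]
  refine lintegral_congr_ae ?_
  filter_upwards [Measure.rnDeriv_lt_top μ m] with x hx
  simp only [Pi.mul_apply]
  rcases eq_or_ne (μ.rnDeriv m x) 0 with h0 | h0
  · rw [h0, ENNReal.zero_rpow_of_pos hp, zero_mul]
  · rw [ENNReal.rpow_sub _ _ h0 hx.ne, ENNReal.rpow_one, div_eq_mul_inv]

end renyi

/-- The elementary pointwise inequality. -/
theorem pointwise_ineq {k r₀ r₁ : ℝ≥0∞} {d₀ d₁ t N : ℝ} (hN : 0 < N) (ht0 : 0 ≤ t) (ht1 : t ≤ 1)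
    (hk0 : k ≠ 0) (hkt : k ≠ ∞) (hd₀ : 0 ≤ d₀) (hd₁ : 0 ≤ d₁)
    (h₀ : k ≤ r₀ * ENNReal.ofReal |d₀|) (h₁ : k ≤ r₁ * ENNReal.ofReal |d₁|)
    (hd : (1 - t) * d₀ ^ (1 / N) + t * d₁ ^ (1 / N) ≤ 1) :
    ENNReal.ofReal (1 - t) * (r₀ ^ (1 / N))⁻¹ + ENNReal.ofReal t * (r₁ ^ (1 / N))⁻¹
      ≤ (k ^ (1 / N))⁻¹ := by
  have hN' : 0 < 1 / N := by positivity
  have key : ∀ {r : ℝ≥0∞} {d : ℝ}, 0 ≤ d → k ≤ r * ENNReal.ofReal |d| →
      (r ^ (1 / N))⁻¹ ≤ (k ^ (1 / N))⁻¹ * ENNReal.ofReal (d ^ (1 / N)) := by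
    intro r d hd h
    rw [abs_of_nonneg hd] at h
    have h2 : k ^ (1 / N) ≤ r ^ (1 / N) * ENNReal.ofReal (d ^ (1 / N)) := by
      rw [← ENNReal.ofReal_rpow_of_nonneg hd hN'.le, ← ENNReal.mul_rpow_of_nonneg _ _ hN'.le]
      exact ENNReal.rpow_le_rpow h hN'.le
    have hk0' : k ^ (1 / N) ≠ 0 := by simp [ENNReal.rpow_eq_zero_iff, hk0, hkt]
    have hkt' : k ^ (1 / N) ≠ ∞ := by simp [ENNReal.rpow_eq_top_iff, hk0, hkt]
    have hr0 : r ^ (1 / N) ≠ 0 := by
      intro h0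
      rw [h0, zero_mul] at h2
      exact hk0' (le_antisymm h2 zero_le)
    rcases eq_or_ne (r ^ (1 / N)) ∞ with hr | hr
    · rw [hr]
      simp
    · rw [mul_comm, ← div_eq_mul_inv, ENNReal.le_div_iff_mul_le (Or.inl hk0') (Or.inl hkt'),
        mul_comm, ← div_eq_mul_inv, ENNReal.div_le_iff hr0 hr, mul_comm]
      exact h2
  calc ENNReal.ofReal (1 - t) * (r₀ ^ (1 / N))⁻¹ + ENNReal.ofReal t * (r₁ ^ (1 / N))⁻¹
      ≤ ENNReal.ofReal (1 - t) * ((k ^ (1 / N))⁻¹ * ENNReal.ofReal (d₀ ^ (1 / N)))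
        + ENNReal.ofReal t * ((k ^ (1 / N))⁻¹ * ENNReal.ofReal (d₁ ^ (1 / N))) := by
        gcongr
        · exact key hd₀ h₀
        · exact key hd₁ h₁
    _ = (k ^ (1 / N))⁻¹ * ENNReal.ofReal ((1 - t) * d₀ ^ (1 / N) + t * d₁ ^ (1 / N)) := by
        rw [ENNReal.ofReal_add (by have := Real.rpow_nonneg hd₀ (1 / N); have : 0 ≤ 1 - t := by linarith
                                   positivity)
          (by have := Real.rpow_nonneg hd₁ (1 / N); positivity),
          ENNReal.ofReal_mul (by linarith), ENNReal.ofReal_mul ht0]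
        ring
    _ ≤ (k ^ (1 / N))⁻¹ * ENNReal.ofReal 1 := by
        gcongr
    _ = (k ^ (1 / N))⁻¹ := by simp

section core

variable {E : Type*} [NormedAddCommGroup E] [NormedSpace ℝ E] [FiniteDimensional ℝ E]
  [MeasurableSpace E] [BorelSpace E] (m : Measure E) [m.IsAddHaarMeasure]

/-- One-sided comparison: `κ` has a density at most `ρ(F z) |det DF z|`. -/
theorem rnDeriv_le {π : Measure (E × E)} [IsProbabilityMeasure π] {Γ : Set (E × E)}
    (hπ : π Γᶜ = 0) {z pr : E × E → E} (hz : Measurable z) (hpr : Measurable pr)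
    {F : E → E} {C : ℝ≥0} (hF : LipschitzWith C F)
    (hinv : ∀ p ∈ Γ, F (z p) = pr p) (hac : π.map pr ≪ m) :
    π.map z ≪ m ∧ ∀ᵐ x ∂m, (π.map z).rnDeriv m x ≤
      (π.map pr).rnDeriv m (F x) * ENNReal.ofReal |(fderiv ℝ F x).det| := by
  have := Measure.isProbabilityMeasure_map (μ := π) hz.aemeasurable
  have := Measure.isProbabilityMeasure_map (μ := π) hpr.aemeasurable
  have hle : ∀ A : Set E, MeasurableSet A → (π.map z) A ≤ (π.map pr) (F '' A) := by
    intro A hA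
    rw [Measure.map_apply hz hA]
    calc π (z ⁻¹' A) ≤ π (z ⁻¹' A ∩ Γ ∪ Γᶜ) := by
          refine measure_mono fun p hp => ?_
          by_cases h : p ∈ Γ
          · exact Or.inl ⟨hp, h⟩
          · exact Or.inr h
      _ ≤ π (z ⁻¹' A ∩ Γ) + π Γᶜ := measure_union_le _ _
      _ = π (z ⁻¹' A ∩ Γ) := by rw [hπ, add_zero]
      _ ≤ π (pr ⁻¹' (F '' A)) := by
          refine measure_mono fun p hp => ?_
          exact ⟨z p, hp.1, hinv p hp.2⟩
      _ ≤ (π.map pr) (F '' A) := Measure.le_map_apply hpr.aemeasurable _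
  have hac' : π.map z ≪ m := by
    refine Measure.AbsolutelyContinuous.mk fun A hA hA0 => ?_
    exact le_antisymm ((hle A hA).trans (le_of_eq (hac (null_image m hF hA0)))) zero_le
  refine ⟨hac', ?_⟩
  have hρ : Measurable ((π.map pr).rnDeriv m) := Measure.measurable_rnDeriv _ _
  refine ae_le_of_forall_setLIntegral_le_of_sigmaFinite (Measure.measurable_rnDeriv _ _) ?_
  intro A hA _
  rw [Measure.setLIntegral_rnDeriv hac']
  set D₀ : Set E := {x | DifferentiableAt ℝ F x} with hD₀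
  have hD₀m : MeasurableSet D₀ := measurableSet_of_differentiableAt ℝ F
  have hD₀n : m D₀ᶜ = 0 := by
    have := hF.ae_differentiableAt (μ := m)
    exact this
  calc (π.map z) A ≤ (π.map pr) (F '' A) := hle A hA
    _ ≤ (π.map pr) (F '' (A ∩ D₀) ∪ F '' (D₀ᶜ)) := by
        refine measure_mono ?_
        rw [← image_union]
        refine image_mono fun x hx => ?_
        by_cases h : x ∈ D₀
        · exact Or.inl ⟨hx, h⟩
        · exact Or.inr h
    _ ≤ (π.map pr) (F '' (A ∩ D₀)) + (π.map pr) (F '' (D₀ᶜ)) := measure_union_le _ _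
    _ = (π.map pr) (F '' (A ∩ D₀)) := by rw [hac (null_image m hF hD₀n), add_zero]
    _ = (m.withDensity ((π.map pr).rnDeriv m)) (F '' (A ∩ D₀)) := by
        rw [Measure.withDensity_rnDeriv_eq _ _ hac]
    _ ≤ ∫⁻ x in A ∩ D₀, (π.map pr).rnDeriv m (F x) * ENNReal.ofReal |(fderiv ℝ F x).det| ∂m :=
        withDensity_image_le m hF.continuous (hA.inter hD₀m)
          (fun x hx => (show DifferentiableAt ℝ F x from hx.2).hasFDerivAt.hasFDerivWithinAt) hρ
    _ ≤ ∫⁻ x in A, (π.map pr).rnDeriv m (F x) * ENNReal.ofReal |(fderiv ℝ F x).det| ∂m :=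
        lintegral_mono_set inter_subset_left

/-- The Rényi functional of a marginal, written on the interpolated measure. -/
theorem renyi_marginal {π : Measure (E × E)} [IsProbabilityMeasure π] {Γ : Set (E × E)}
    (hπ : π Γᶜ = 0) {z pr : E × E → E} (hz : Measurable z) (hpr : Measurable pr)
    {F : E → E} {C : ℝ≥0} (hF : LipschitzWith C F)
    (hinv : ∀ p ∈ Γ, F (z p) = pr p) (hac : π.map pr ≪ m) {N : ℝ} (hN : 1 < N) :
    renyi m N (π.map pr) = ∫⁻ x, (((π.map pr).rnDeriv m (F x)) ^ (1 / N))⁻¹ ∂(π.map z) := by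
  have := Measure.isProbabilityMeasure_map (μ := π) hz.aemeasurable
  have := Measure.isProbabilityMeasure_map (μ := π) hpr.aemeasurable
  have hmap : π.map pr = (π.map z).map F := by
    rw [Measure.map_map hF.continuous.measurable hz]
    refine Measure.map_congr ?_
    have : ∀ᵐ p ∂π, p ∈ Γ := by
      rw [ae_iff]
      exact hπ
    filter_upwards [this] with p hp
    exact (hinv p hp).symm
  have hmeas : Measurable ((π.map pr).rnDeriv m) := Measure.measurable_rnDeriv _ _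
  rw [renyi_eq_lintegral_inv m _ hac hN]
  conv_lhs => rw [hmap]
  rw [lintegral_map _ hF.continuous.measurable]
  · rw [← hmap]
  · rw [← hmap]
    exact (hmeas.pow_const _).inv

/-- From the Jacobian inequality to the Rényi inequality. -/
theorem core_measure {π : Measure (E × E)} [IsProbabilityMeasure π] {Γ : Set (E × E)}
    (hΓ : IsCompact Γ) (hπ : π Γᶜ = 0) {t : ℝ} (ht : t ∈ Ioo (0 : ℝ) 1)
    {X Y : E → E} {C : ℝ≥0} (hX : LipschitzWith C X) (hY : LipschitzWith C Y)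
    (hXinv : ∀ p ∈ Γ, X ((1 - t) • p.1 + t • p.2) = p.1)
    (hYinv : ∀ p ∈ Γ, Y ((1 - t) • p.1 + t • p.2) = p.2)
    (h₀ : π.map Prod.fst ≪ m) (h₁ : π.map Prod.snd ≪ m) {N : ℝ} (hN : 1 < N)
    (hjac : ∀ᵐ x ∂(m.restrict ((fun p : E × E => (1 - t) • p.1 + t • p.2) '' Γ)),
      0 ≤ (fderiv ℝ X x).det ∧ 0 ≤ (fderiv ℝ Y x).det ∧
        (1 - t) * (fderiv ℝ X x).det ^ (1 / N) + t * (fderiv ℝ Y x).det ^ (1 / N) ≤ 1) :
    ENNReal.ofReal (1 - t) * renyi m N (π.map Prod.fst)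
      + ENNReal.ofReal t * renyi m N (π.map Prod.snd) ≤
      renyi m N (π.map (fun p => (1 - t) • p.1 + t • p.2)) := by
  set z : E × E → E := fun p => (1 - t) • p.1 + t • p.2 with hz
  have hzc : Continuous z := by fun_prop
  have hzm : Measurable z := hzc.measurable
  have := Measure.isProbabilityMeasure_map (μ := π) hzm.aemeasurable
  obtain ⟨hac, hle₀⟩ := rnDeriv_le m hπ hzm measurable_fst hX hXinv h₀
  obtain ⟨-, hle₁⟩ := rnDeriv_le m hπ hzm measurable_snd hY hYinv h₁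
  rw [renyi_marginal m hπ hzm measurable_fst hX hXinv h₀ hN,
    renyi_marginal m hπ hzm measurable_snd hY hYinv h₁ hN,
    renyi_eq_lintegral_inv m _ hac hN]
  have hm₀ : Measurable fun x => (((π.map Prod.fst).rnDeriv m (X x)) ^ (1 / N))⁻¹ :=
    (((Measure.measurable_rnDeriv _ _).comp hX.continuous.measurable).pow_const _).inv
  have hm₁ : Measurable fun x => (((π.map Prod.snd).rnDeriv m (Y x)) ^ (1 / N))⁻¹ :=
    (((Measure.measurable_rnDeriv _ _).comp hY.continuous.measurable).pow_const _).inv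
  rw [← lintegral_const_mul _ hm₀, ← lintegral_const_mul _ hm₁,
    ← lintegral_add_left (hm₀.const_mul _)]
  refine lintegral_mono_ae ?_
  have hZ : MeasurableSet (z '' Γ) := (hΓ.image hzc).measurableSet
  have hZae : ∀ᵐ x ∂(π.map z), x ∈ z '' Γ := by
    rw [ae_iff, Measure.map_apply hzm (by exact hZ.compl)]
    refine measure_mono_null ?_ hπ
    intro p hp hpΓ
    exact hp ⟨p, hpΓ, rfl⟩
  have hpos : ∀ᵐ x ∂(π.map z), (π.map z).rnDeriv m x ≠ 0 := by
    filter_upwards [Measure.rnDeriv_pos hac] with x hx using hx.ne'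
  have hfin : ∀ᵐ x ∂(π.map z), (π.map z).rnDeriv m x ≠ ∞ := by
    filter_upwards [hac.ae_le (Measure.rnDeriv_lt_top (π.map z) m)] with x hx using hx.ne
  have hjac' : ∀ᵐ x ∂(π.map z), x ∈ z '' Γ →
      (0 ≤ (fderiv ℝ X x).det ∧ 0 ≤ (fderiv ℝ Y x).det ∧
        (1 - t) * (fderiv ℝ X x).det ^ (1 / N) + t * (fderiv ℝ Y x).det ^ (1 / N) ≤ 1) := by
    have := (ae_restrict_iff' hZ).mp hjac
    exact hac.ae_le this
  filter_upwards [hZae, hpos, hfin, hjac', hac.ae_le hle₀, hac.ae_le hle₁]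
    with x hxZ hx0 hxt hxj hx₀ hx₁
  obtain ⟨hd₀, hd₁, hd⟩ := hxj hxZ
  exact pointwise_ineq (by linarith) ht.1.le ht.2.le hx0 hxt hd₀ hd₁ hx₀ hx₁ hd

end core

end MP_c487e3_gt
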