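import Pool.Agent.Lib.MP_c487e3_gt.Defs

/-!
# MP_c487e3_gt: cyclical monotonicity and the `ℓ¹` norm
-/

open MeasureTheory Set Filter
open scoped ENNReal Topology

namespace MP_c487e3_gt

/-- `Γ` is cyclically monotone for the cost `c`. -/
def CycMono {E : Type*} (c : E → E → ℝ) (Γ : Set (E × E)) : Prop :=
  ∀ (n : ℕ) (p : Fin n → E × E) (σ : Equiv.Perm (Fin n)), (∀ i, p i ∈ Γ) →
    ∑ i, c (p i).1 (p i).2 ≤ ∑ i, c (p i).1 (p (σ i)).2

/-- The `ℓ¹` norm on `ℝ³`. -/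
noncomputable def N1 (x : E3) : ℝ := ∑ i, |x i|

theorem N1_nonneg (x : E3) : 0 ≤ N1 x := Finset.sum_nonneg fun i _ => abs_nonneg (x i)

end MP_c487e3_gt
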