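import Mathlib

/-!
# MP_c487e3_gt: linear algebra for the Jacobian estimate
-/

open Set Filter Matrix
open scoped Topology

namespace MP_c487e3_gt

section Mat

variable {n : ℕ}

/-- AM-GM for the eigenvalues of a positive semidefinite matrix. -/
theorem det_rpow_le_trace_div {P : Matrix (Fin n) (Fin n) ℝ} (hn : 0 < n) (hP : P.PosSemidef) :
    P.det ^ (1 / (n : ℝ)) ≤ P.trace / n := by
  have hn' : (0 : ℝ) < n := by exact_mod_cast hn
  have hdet : P.det = ∏ i, hP.1.eigenvalues i := by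
    have := hP.1.det_eq_prod_eigenvalues
    simpa using this
  have htr : P.trace = ∑ i, hP.1.eigenvalues i := by
    have := hP.1.trace_eq_sum_eigenvalues
    simpa using this
  rw [hdet, htr, ← Real.finsetProd_rpow _ _ (fun i _ => hP.eigenvalues_nonneg i)]
  have h := Real.geom_mean_le_arith_mean_weighted (Finset.univ : Finset (Fin n))
    (fun _ => 1 / (n : ℝ)) (fun i => hP.1.eigenvalues i) (fun _ _ => by positivity)
    (by simp [hn'.ne']) (fun i _ => hP.eigenvalues_nonneg i)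
  refine h.trans (le_of_eq ?_)
  rw [← Finset.mul_sum]
  ring

open scoped MatrixOrder in
/-- If `H` is positive definite and `H D` is positive semidefinite then `0 ≤ det D` and
`(det D)^{1/n} ≤ tr D / n`. -/
theorem det_of_posDef_mul {H D : Matrix (Fin n) (Fin n) ℝ} (hn : 0 < n) (hH : H.PosDef)
    (hD : (H * D).PosSemidef) :
    0 ≤ D.det ∧ D.det ^ (1 / (n : ℝ)) ≤ D.trace / n := by
  set S := CFC.sqrt H with hS
  have hSS : S * S = H := CFC.sqrt_mul_sqrt_self H hH.posSemidef.nonneg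
  have hSps : S.PosSemidef := (CFC.sqrt_nonneg H).posSemidef
  have hdetS : S.det ≠ 0 := by
    intro h0
    have : H.det = 0 := by rw [← hSS, Matrix.det_mul, h0, zero_mul]
    exact hH.det_pos.ne' this
  have hunit : IsUnit S.det := isUnit_iff_ne_zero.mpr hdetS
  have hSinv : (S⁻¹).PosSemidef := hSps.inv
  have key : S * D * S⁻¹ = (S⁻¹)ᴴ * (H * D) * S⁻¹ := by
    rw [hSinv.1.eq, ← hSS]
    simp only [← Matrix.mul_assoc]
    rw [Matrix.nonsing_inv_mul S hunit, Matrix.one_mul]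
  have hP : (S * D * S⁻¹).PosSemidef := by
    rw [key]
    exact hD.conjTranspose_mul_mul_same _
  have hdet : (S * D * S⁻¹).det = D.det := by
    rw [Matrix.det_mul, Matrix.det_mul, mul_comm S.det, mul_assoc, ← Matrix.det_mul,
      Matrix.mul_nonsing_inv S hunit, Matrix.det_one, mul_one]
  have htr : (S * D * S⁻¹).trace = D.trace := by
    rw [Matrix.trace_mul_comm, ← Matrix.mul_assoc, Matrix.nonsing_inv_mul S hunit, Matrix.one_mul]
  refine ⟨hdet ▸ hP.det_nonneg, ?_⟩
  have := det_rpow_le_trace_div hn hP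
  rwa [hdet, htr] at this

/-- The elementary inequality behind `CD(0,N')` for `N' ≥ n`. -/
theorem rpow_combo_le_one {n : ℕ} (hn : 0 < n) {N' t a b ta tb : ℝ} (hN : (n : ℝ) ≤ N')
    (ht0 : 0 ≤ t) (ht1 : t ≤ 1) (ha : 0 ≤ a) (hb : 0 ≤ b)
    (hta : a ^ (1 / (n : ℝ)) ≤ ta / n) (htb : b ^ (1 / (n : ℝ)) ≤ tb / n)
    (htr : (1 - t) * ta + t * tb = n) :
    (1 - t) * a ^ (1 / N') + t * b ^ (1 / N') ≤ 1 := by
  have hn' : (0 : ℝ) < n := by exact_mod_cast hn
  have hN' : 0 < N' := lt_of_lt_of_le hn' hN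
  have h1 : (1 - t) * a ^ (1 / (n : ℝ)) + t * b ^ (1 / (n : ℝ)) ≤ 1 := by
    calc (1 - t) * a ^ (1 / (n : ℝ)) + t * b ^ (1 / (n : ℝ))
        ≤ (1 - t) * (ta / n) + t * (tb / n) := by
          gcongr
      _ = ((1 - t) * ta + t * tb) / n := by ring
      _ = 1 := by rw [htr, div_self hn'.ne']
  have hp : 1 ≤ N' / n := by rwa [le_div_iff₀ hn', one_mul]
  have hpow : ∀ x : ℝ, 0 ≤ x → (x ^ (1 / N')) ^ (N' / n) = x ^ (1 / (n : ℝ)) := by
    intro x hx
    rw [← Real.rpow_mul hx]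
    congr 1
    field_simp
  have hu : 0 ≤ a ^ (1 / N') := Real.rpow_nonneg ha _
  have hv : 0 ≤ b ^ (1 / N') := Real.rpow_nonneg hb _
  have hconv := (convexOn_rpow hp).2 (Set.mem_Ici.mpr hu) (Set.mem_Ici.mpr hv)
    (show (0 : ℝ) ≤ 1 - t by linarith) ht0 (by ring)
  simp only [smul_eq_mul] at hconv
  rw [hpow a ha, hpow b hb] at hconv
  have hx0 : 0 ≤ (1 - t) * a ^ (1 / N') + t * b ^ (1 / N') := by
    have : 0 ≤ 1 - t := by linarith
    positivity
  by_contra hcon
  push Not at hcon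
  have : 1 < ((1 - t) * a ^ (1 / N') + t * b ^ (1 / N')) ^ (N' / n) :=
    Real.one_lt_rpow hcon (by positivity)
  linarith

end Mat

end MP_c487e3_gt
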