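import Pool.Agent.Lib.MP_c487e3_gt.Defs
import Pool.Agent.Lib.MP_c487e3_gt.LinAlg
import Mathlib

/-!
# MP_c487e3_gt: the Jacobian inequality (M4-jac)
-/

open Set Filter Matrix
open scoped Topology

namespace MP_c487e3_gt

namespace Jac

/-- The matrix of a bilinear form in the standard basis. -/
noncomputable def bmat (H : E3 →L[ℝ] E3 →L[ℝ] ℝ) : Matrix (Fin 3) (Fin 3) ℝ :=
  Matrix.of fun i j =>
    H ((EuclideanSpace.basisFun (Fin 3) ℝ).toBasis i) ((EuclideanSpace.basisFun (Fin 3) ℝ).toBasis j)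

/-- The matrix of an endomorphism in the standard basis. -/
noncomputable def emat (D : E3 →L[ℝ] E3) : Matrix (Fin 3) (Fin 3) ℝ :=
  LinearMap.toMatrix (EuclideanSpace.basisFun (Fin 3) ℝ).toBasis
    (EuclideanSpace.basisFun (Fin 3) ℝ).toBasis (D : E3 →ₗ[ℝ] E3)

/-- Vector with given coordinates. -/
noncomputable def vec (x : Fin 3 → ℝ) : E3 :=
  ∑ i, x i • (EuclideanSpace.basisFun (Fin 3) ℝ).toBasis i

lemma vec_ne_zero {x : Fin 3 → ℝ} (hx : x ≠ 0) : vec x ≠ 0 := by
  intro h
  apply hx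
  funext i
  exact (Fintype.linearIndependent_iff.mp
    (EuclideanSpace.basisFun (Fin 3) ℝ).toBasis.linearIndependent x h) i

lemma bmat_form (H : E3 →L[ℝ] E3 →L[ℝ] ℝ) (x y : Fin 3 → ℝ) :
    x ⬝ᵥ (bmat H *ᵥ y) = H (vec x) (vec y) := by
  simp only [vec, map_sum, map_smul, _root_.sum_apply,
    _root_.smul_apply, dotProduct, mulVec, bmat, Matrix.of_apply, smul_eq_mul,
    Finset.mul_sum]
  rw [Finset.sum_comm]
  refine Finset.sum_congr rfl fun i _ => Finset.sum_congr rfl fun j _ => ?_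
  ring

lemma emat_vec (D : E3 →L[ℝ] E3) (x : Fin 3 → ℝ) : vec (emat D *ᵥ x) = D (vec x) := by
  have h1 : ∀ j, D ((EuclideanSpace.basisFun (Fin 3) ℝ).toBasis j)
      = ∑ i, emat D i j • (EuclideanSpace.basisFun (Fin 3) ℝ).toBasis i := by
    intro j
    have := (EuclideanSpace.basisFun (Fin 3) ℝ).toBasis.sum_repr
      (D ((EuclideanSpace.basisFun (Fin 3) ℝ).toBasis j))
    rw [← this]
    refine Finset.sum_congr rfl fun i _ => ?_
    rw [emat, LinearMap.toMatrix_apply]
    simp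
  rw [vec, vec, map_sum]
  simp only [map_smul, h1, Finset.smul_sum, mulVec, dotProduct, Finset.sum_smul, smul_smul]
  rw [Finset.sum_comm]
  refine Finset.sum_congr rfl fun i _ => Finset.sum_congr rfl fun j _ => ?_
  rw [mul_comm]

lemma bmat_mul_emat_form (H : E3 →L[ℝ] E3 →L[ℝ] ℝ) (D : E3 →L[ℝ] E3) (x y : Fin 3 → ℝ) :
    x ⬝ᵥ ((bmat H * emat D) *ᵥ y) = H (vec x) (D (vec y)) := by
  rw [← Matrix.mulVec_mulVec, bmat_form, emat_vec]

lemma posDef_bmat {H : E3 →L[ℝ] E3 →L[ℝ] ℝ} (hs : ∀ v w, H v w = H w v)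
    (hpos : ∀ v, v ≠ 0 → 0 < H v v) : (bmat H).PosDef := by
  apply Matrix.PosDef.of_dotProduct_mulVec_pos
  · ext i j
    simp [bmat, Matrix.conjTranspose_apply, hs]
  · intro x hx
    rw [star_trivial, bmat_form]
    exact hpos _ (vec_ne_zero hx)

lemma posSemidef_mul {H : E3 →L[ℝ] E3 →L[ℝ] ℝ} {A : E3 →L[ℝ] E3}
    (hsym : ∀ v w, H v (A w) = H w (A v)) (hpsd : ∀ v, 0 ≤ H v (A v)) :
    (bmat H * emat A).PosSemidef := by
  apply Matrix.PosSemidef.of_dotProduct_mulVec_nonneg
  · have hv : ∀ i, vec (Pi.single i (1 : ℝ)) = (EuclideanSpace.basisFun (Fin 3) ℝ).toBasis i := by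
      intro i
      rw [vec, Finset.sum_eq_single i]
      · simp
      · intro j _ hj
        simp [hj]
      · simp
    ext i j
    have h1 : (bmat H * emat A) i j = H (vec (Pi.single i 1)) (A (vec (Pi.single j 1))) := by
      rw [← bmat_mul_emat_form]
      simp
    have h2 : (bmat H * emat A) j i = H (vec (Pi.single j 1)) (A (vec (Pi.single i 1))) := by
      rw [← bmat_mul_emat_form]
      simp
    rw [Matrix.conjTranspose_apply, star_trivial, h1, h2, hsym]
  · intro x
    rw [star_trivial, bmat_mul_emat_form]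
    exact hpsd _

lemma det_emat (A : E3 →L[ℝ] E3) : (emat A).det = A.det := by
  rw [emat, LinearMap.det_toMatrix]

end Jac

open Jac in
/-- **The Jacobian inequality.** -/
theorem jac_ineq (H : E3 →L[ℝ] E3 →L[ℝ] ℝ) (hs : ∀ v w, H v w = H w v)
    (hpos : ∀ v, v ≠ 0 → 0 < H v v) (D D' : E3 →L[ℝ] E3) {t : ℝ} (ht : t ∈ Ioo (0 : ℝ) 1)
    (hid : ∀ v, (1 - t) • D v + t • D' v = v)
    (hBs : ∀ v w, H (D v) (D' w) = H (D w) (D' v)) (hBp : ∀ v, 0 ≤ H (D v) (D' v)) :
    0 ≤ D.det ∧ 0 ≤ D'.det ∧ ∀ N' : ℝ, 3 ≤ N' →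
      (1 - t) * D.det ^ (1 / N') + t * D'.det ^ (1 / N') ≤ 1 := by
  obtain ⟨ht0, ht1⟩ := ht
  have ht1' : 0 < 1 - t := by linarith
  have hself : ∀ v, 0 ≤ H v v := by
    intro v
    by_cases h : v = 0
    · simp [h]
    · exact (hpos v h).le
  have hD : ∀ v w, H v (D w) = (1 - t) * H (D v) (D w) + t * H (D' v) (D w) := by
    intro v w
    conv_lhs => rw [← hid v]
    simp [smul_eq_mul]
  have hD' : ∀ v w, H v (D' w) = (1 - t) * H (D v) (D' w) + t * H (D' v) (D' w) := by
    intro v w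
    conv_lhs => rw [← hid v]
    simp [smul_eq_mul]
  have hc : ∀ v w, H (D' v) (D w) = H (D' w) (D v) := by
    intro v w
    rw [hs (D' v), hs (D' w), hBs]
  have p1 := det_of_posDef_mul (n := 3) (by norm_num) (posDef_bmat hs hpos)
    (posSemidef_mul (H := H) (A := D)
      (by intro v w; rw [hD v w, hD w v, hs (D v) (D w), hc v w])
      (by
        intro v
        rw [hD v v, hs (D' v)]
        have h1 := hself (D v)
        have h2 := hBp v
        positivity))
  have p2 := det_of_posDef_mul (n := 3) (by norm_num) (posDef_bmat hs hpos)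
    (posSemidef_mul (H := H) (A := D')
      (by intro v w; rw [hD' v w, hD' w v, hs (D' v) (D' w), hBs v w])
      (by
        intro v
        rw [hD' v v]
        have h1 := hself (D' v)
        have h2 := hBp v
        positivity))
  rw [det_emat] at p1 p2
  have htr : (1 - t) * (emat D).trace + t * (emat D').trace = ((3 : ℕ) : ℝ) := by
    have h1 : (1 - t) • emat D + t • emat D' = 1 := by
      have h2 : (1 - t) • D + t • D' = ContinuousLinearMap.id ℝ E3 := by
        ext1 v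
        simpa using hid v
      have h3 : emat ((1 - t) • D + t • D') = (1 - t) • emat D + t • emat D' := by
        simp [emat]
      rw [← h3, h2, emat]
      exact LinearMap.toMatrix_id _
    have h4 := congrArg Matrix.trace h1
    rw [Matrix.trace_add, Matrix.trace_smul, Matrix.trace_smul, Matrix.trace_one] at h4
    simpa using h4
  refine ⟨p1.1, p2.1, ?_⟩
  intro N' hN
  exact rpow_combo_le_one (n := 3) (by norm_num) (by exact_mod_cast hN) ht0.le ht1.le p1.1 p2.1
    p1.2 p2.2 htr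

end MP_c487e3_gt
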