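import Pool.Agent.Lib.MP_c487e3_gt.Tangent
import Pool.Agent.Lib.MP_c487e3_gt.CoreMeas
import Pool.Agent.Lib.MP_c487e3_gt.Jac
import Pool.Agent.Lib.MP_c487e3_gt.H93.Struct

/-!
# MP_c487e3_gt: the Rényi inequality for smooth strongly convex costs
-/

open MeasureTheory Set Filter Metric Measure
open scoped ENNReal Topology NNReal

namespace MP_c487e3_gt

/-- The Jacobian inequality at almost every interpolated point. -/
theorem jac_ae {h : E3 → ℝ} (hC : ContDiff ℝ 2 h) {lam : ℝ} (hlam : 0 < lam)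
    (hconv : StrongConvexOn univ lam h) {Γ : Set (E3 × E3)} (hΓ : IsCompact Γ)
    (hcyc : CycMono (fun x y => h (x - y)) Γ) {t : ℝ} (ht : t ∈ Ioo (0 : ℝ) 1)
    {X Y : E3 → E3} {C : ℝ≥0} (hX : LipschitzWith C X) (hY : LipschitzWith C Y)
    (hXY : ∀ p ∈ Γ, X ((1 - t) • p.1 + t • p.2) = p.1 ∧ Y ((1 - t) • p.1 + t • p.2) = p.2) :
    ∀ᵐ x ∂((volume : Measure E3).restrict ((fun p : E3 × E3 => (1 - t) • p.1 + t • p.2) '' Γ)),
      0 ≤ (fderiv ℝ X x).det ∧ 0 ≤ (fderiv ℝ Y x).det ∧ ∀ N' : ℝ, 3 ≤ N' →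
        (1 - t) * (fderiv ℝ X x).det ^ (1 / N') + t * (fderiv ℝ Y x).det ^ (1 / N') ≤ 1 := by
  set z : E3 × E3 → E3 := fun p => (1 - t) • p.1 + t • p.2 with hz
  have hzc : Continuous z := by fun_prop
  have hZc : IsCompact (z '' Γ) := hΓ.image hzc
  have hXd : ∀ᵐ x ∂((volume : Measure E3).restrict (z '' Γ)), DifferentiableAt ℝ X x :=
    ae_restrict_of_ae hX.ae_differentiableAt
  have hYd : ∀ᵐ x ∂((volume : Measure E3).restrict (z '' Γ)), DifferentiableAt ℝ Y x :=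
    ae_restrict_of_ae hY.ae_differentiableAt
  have hXYZ : ∀ w ∈ z '' Γ, (1 - t) • X w + t • Y w = w := by
    rintro w ⟨p, hp, rfl⟩
    rw [(hXY p hp).1, (hXY p hp).2]
  have hXYΓ : ∀ w ∈ z '' Γ, (X w, Y w) ∈ Γ := by
    rintro w ⟨p, hp, rfl⟩
    rw [(hXY p hp).1, (hXY p hp).2]
    exact hp
  filter_upwards [ae_tangent volume hZc, hXd, hYd, ae_restrict_mem hZc.measurableSet]
    with x htan hXx hYx hxZ
  set D := fderiv ℝ X x with hD
  set D' := fderiv ℝ Y x with hD'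
  have hDX : HasFDerivAt X D x := hXx.hasFDerivAt
  have hDY : HasFDerivAt Y D' x := hYx.hasFDerivAt
  set a := X x - Y x with ha
  have hcyc2 := cyc_second_order hC hcyc hXYΓ hDX hDY htan
  -- the bilinear form `B v w = H (D v) (D' w)`
  set B : E3 →ₗ[ℝ] E3 →ₗ[ℝ] ℝ :=
    LinearMap.mk₂ ℝ (fun v w => Hess h a (D v) (D' w))
      (by intro v v' w; simp) (by intro c v w; simp) (by intro v w w'; simp)
      (by intro c v w; simp) with hB
  have hBapp : ∀ v w, B v w = Hess h a (D v) (D' w) := fun v w => rfl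
  have hBcyc : ∀ (n : ℕ) (v : Fin n → E3) (σ : Equiv.Perm (Fin n)),
      0 ≤ ∑ i, B (v i) (v i - v (σ i)) := fun n v σ => hcyc2 n v σ
  have hmid : ∀ u v : E3, h ((1 / 2 : ℝ) • u + (1 / 2 : ℝ) • v) ≤
      (1 / 2) * h u + (1 / 2) * h v - (1 / 4) * (lam / 2) * ‖u - v‖ ^ 2 := by
    intro u v
    have := hconv.2 (mem_univ u) (mem_univ v) (show (0 : ℝ) ≤ 1 / 2 by norm_num)
      (show (0 : ℝ) ≤ 1 / 2 by norm_num) (by norm_num)
    simp only [smul_eq_mul] at this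
    linarith
  have hpos : ∀ v, v ≠ 0 → 0 < Hess h a v v := by
    intro v hv
    have := hess_lower hC hmid a v
    have hv' : 0 < ‖v‖ := norm_pos_iff.mpr hv
    have : 0 < lam * ‖v‖ ^ 2 := by positivity
    linarith
  refine jac_ineq (Hess h a) (hess_symm hC a) hpos D D' ht
    (combo_eq_id hXYZ hxZ hDX hDY htan) ?_ ?_
  · intro v w
    exact symm_of_cyc B hBcyc v w
  · intro v
    exact psd_of_cyc B hBcyc v

/-- The Rényi inequality for an optimal plan of a smooth strongly convex cost. -/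
theorem core (h : E3 → ℝ) (hC : ContDiff ℝ 2 h) {lam : ℝ} (hlam : 0 < lam)
    (hconv : StrongConvexOn univ lam h) {Γ : Set (E3 × E3)} (hΓ : IsCompact Γ)
    (hcyc : CycMono (fun x y => h (x - y)) Γ) (π : Measure (E3 × E3)) [IsProbabilityMeasure π]
    (hπ : π Γᶜ = 0) {μ₀ μ₁ : Measure E3} (hc : IsCoupling π μ₀ μ₁) (h₀ : μ₀ ≪ volume)
    (h₁ : μ₁ ≪ volume) {t : ℝ} (ht : t ∈ Ioo (0 : ℝ) 1) {N' : ℝ} (hN : 3 ≤ N') :
    ENNReal.ofReal (1 - t) * renyi volume N' μ₀ + ENNReal.ofReal t * renyi volume N' μ₁ ≤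
      renyi volume N' (π.map (fun p => (1 - t) • p.1 + t • p.2)) := by
  obtain ⟨C, X, Y, hX, hY, hXY⟩ := exists_lipschitz_inverse hC hlam hconv hΓ hcyc ht
  obtain ⟨rfl, rfl⟩ := hc
  refine core_measure volume hΓ hπ ht hX hY (fun p hp => (hXY p hp).1)
    (fun p hp => (hXY p hp).2) h₀ h₁ (by linarith) ?_
  filter_upwards [jac_ae hC hlam hconv hΓ hcyc ht hX hY hXY] with x hx
  exact ⟨hx.1, hx.2.1, hx.2.2 N' hN⟩

end MP_c487e3_gt
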