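import Mathlib

/-!
# MP_c487e3_gt: definitions

Metric measure spaces, the `L²`-Wasserstein distance, Rényi entropies, `CD(0,N)`.
-/

open MeasureTheory Set Filter
open scoped ENNReal Topology

namespace MP_c487e3_gt

section Defs

variable {X : Type*}

/-- `π` is a coupling (transport plan) of `μ` and `ν`. -/
def IsCoupling [MeasurableSpace X] (π : Measure (X × X)) (μ ν : Measure X) : Prop :=
  π.map Prod.fst = μ ∧ π.map Prod.snd = ν

/-- The `L²`-Wasserstein distance `W₂(μ, ν)`: the square root of the infimum of `∫ d(x,y)² dπ`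
over all couplings `π` of `μ` and `ν`. -/
noncomputable def W2 [PseudoEMetricSpace X] [MeasurableSpace X] (μ ν : Measure X) : ℝ≥0∞ :=
  (⨅ (π : Measure (X × X)) (_ : IsCoupling π μ ν), ∫⁻ p, edist p.1 p.2 ^ 2 ∂π) ^ (1 / 2 : ℝ)

/-- `μ ∈ 𝒫₂(X)`: a probability measure with finite second moment. -/
def IsP2 [PseudoEMetricSpace X] [MeasurableSpace X] (μ : Measure X) : Prop :=
  IsProbabilityMeasure μ ∧ ∃ x₀ : X, ∫⁻ x, edist x x₀ ^ 2 ∂μ < ∞

/-- A `W₂`-geodesic `(μ_t)_{t ∈ [0,1]}` in `𝒫₂(X)`. -/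
def IsW2Geodesic [PseudoEMetricSpace X] [MeasurableSpace X] (μ : ℝ → Measure X) : Prop :=
  (∀ t ∈ Icc (0 : ℝ) 1, IsP2 (μ t)) ∧
    ∀ s ∈ Icc (0 : ℝ) 1, ∀ t ∈ Icc (0 : ℝ) 1,
      W2 (μ s) (μ t) = ENNReal.ofReal |s - t| * W2 (μ 0) (μ 1)

/-- Minus the Rényi entropy: `renyi m N μ = ∫ ρ^{1 - 1/N} dm = - S_N(μ)`, where `ρ m` is the
absolutely continuous part of `μ`. -/
noncomputable def renyi [MeasurableSpace X] (m : Measure X) (N : ℝ) (μ : Measure X) : ℝ≥0∞ :=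
  ∫⁻ x, (μ.rnDeriv m x) ^ (1 - 1 / N) ∂m

/-- `μ` has bounded support. -/
def BddSupport [PseudoMetricSpace X] [MeasurableSpace X] (μ : Measure X) : Prop :=
  ∃ (x : X) (r : ℝ), μ (Metric.closedBall x r)ᶜ = 0

/-- The curvature-dimension condition `CD(0,N)` (the inequality
`S_{N'}(μ_t) ≤ (1-t) S_{N'}(μ₀) + t S_{N'}(μ₁)` is written for `-S_{N'} = renyi m N'`). -/
def CD0 [PseudoMetricSpace X] [MeasurableSpace X] (m : Measure X) (N : ℝ) : Prop :=
  ∀ μ₀ μ₁ : Measure X, IsP2 μ₀ → IsP2 μ₁ → μ₀ ≪ m → μ₁ ≪ m → BddSupport μ₀ → BddSupport μ₁ →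
    ∃ μ : ℝ → Measure X, IsW2Geodesic μ ∧ μ 0 = μ₀ ∧ μ 1 = μ₁ ∧
      ∀ t ∈ Icc (0 : ℝ) 1, ∀ N' : ℝ, N ≤ N' →
        ENNReal.ofReal (1 - t) * renyi m N' μ₀ + ENNReal.ofReal t * renyi m N' μ₁ ≤
          renyi m N' (μ t)

/-- `(X, d, m)` is a metric measure space: `(X,d)` is a complete, separable, locally compact
geodesic metric space and `m` is a locally finite Borel measure with `supp m = X`. -/
structure IsMMSpace (X : Type*) [MetricSpace X] [MeasurableSpace X] (m : Measure X) : Prop where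
  borel : BorelSpace X
  complete : CompleteSpace X
  separable : TopologicalSpace.SeparableSpace X
  locallyCompact : LocallyCompactSpace X
  geodesic : ∀ x y : X, ∃ γ : ℝ → X, γ 0 = x ∧ γ 1 = y ∧
    ∀ s ∈ Icc (0 : ℝ) 1, ∀ t ∈ Icc (0 : ℝ) 1, dist (γ s) (γ t) = |s - t| * dist x y
  locallyFinite : IsLocallyFiniteMeasure m
  fullSupport : ∀ U : Set X, IsOpen U → U.Nonempty → m U ≠ 0

/-- `X` contains a line. -/
def ContainsLine (X : Type*) [MetricSpace X] : Prop :=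
  ∃ γ : ℝ → X, ∀ s t : ℝ, dist (γ s) (γ t) = |s - t|

end Defs

/-- The base space `ℝ³`. -/
abbrev E3 : Type := EuclideanSpace ℝ (Fin 3)

end MP_c487e3_gt
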