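import Pool.Agent.Lib.MP_c487e3_gt.Defs

/-!
# MP_c487e3_gt: upper semicontinuity of `renyi` (lower semicontinuity of the Rényi entropy)
under weak convergence of measures on a compact set
-/

open MeasureTheory Set Filter
open scoped ENNReal NNReal Topology BoundedContinuousFunction

namespace MP_c487e3_gt

section Usc

variable {E : Type*}

/-- Weighted AM-GM: the tangent line of the concave function `r ↦ r ^ p` at `s`. -/
theorem rpow_le_tangent {p : ℝ} (hp0 : 0 < p) (hp1 : p < 1) {s r : ℝ} (hs : 0 < s)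
    (hr : 0 ≤ r) : r ^ p ≤ (1 - p) * s ^ p + p * s ^ (p - 1) * r := by
  have h1 := Real.geom_mean_le_arith_mean2_weighted hp0.le (by linarith : 0 ≤ 1 - p) hr hs.le
    (by ring)
  have h2 : 0 < s ^ (p - 1) := Real.rpow_pos_of_pos hs _
  have h3 : s ^ (1 - p) * s ^ (p - 1) = 1 := by
    rw [← Real.rpow_add hs]
    simp
  have h4 : s * s ^ (p - 1) = s ^ p := by
    conv_lhs => rw [mul_comm, ← Real.rpow_add_one hs.ne']
    simp
  calc r ^ p = (r ^ p * s ^ (1 - p)) * s ^ (p - 1) := by rw [mul_assoc, h3, mul_one]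
    _ ≤ (p * r + (1 - p) * s) * s ^ (p - 1) := by gcongr
    _ = (1 - p) * (s * s ^ (p - 1)) + p * s ^ (p - 1) * r := by ring
    _ = _ := by rw [h4]

theorem ennreal_rpow_le_tangent {p : ℝ} (hp0 : 0 < p) (hp1 : p < 1) {s : ℝ} (hs : 0 < s)
    (r : ℝ≥0∞) : r ^ p ≤ ENNReal.ofReal ((1 - p) * s ^ p) + ENNReal.ofReal (p * s ^ (p - 1)) * r := by
  have h2 : 0 < s ^ (p - 1) := Real.rpow_pos_of_pos hs _
  have h3 : 0 < s ^ p := Real.rpow_pos_of_pos hs _
  by_cases hr : r = ∞
  · subst hr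
    rw [ENNReal.mul_top (by simpa using mul_pos hp0 h2)]
    simp
  · lift r to ℝ≥0 using hr
    rw [← ENNReal.ofReal_coe_nnreal, ENNReal.ofReal_rpow_of_nonneg r.coe_nonneg hp0.le,
      ← ENNReal.ofReal_mul (by positivity), ← ENNReal.ofReal_add
        (mul_nonneg (by linarith) h3.le) (by positivity)]
    exact ENNReal.ofReal_le_ofReal (rpow_le_tangent hp0 hp1 hs r.coe_nonneg)

/-- Lipschitz bound of `u ↦ u ^ q`, `q ≤ 1`, on `[d, ∞)`. -/
theorem abs_rpow_sub_rpow_le {q : ℝ} (hq : q ≤ 1) {d u v : ℝ} (hd : 0 < d) (hu : d ≤ u)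
    (hv : d ≤ v) : |u ^ q - v ^ q| ≤ |q| * d ^ (q - 1) * |u - v| := by
  have h := Convex.norm_image_sub_le_of_norm_hasDerivWithin_le (f := fun x : ℝ => x ^ q)
    (f' := fun x : ℝ => q * x ^ (q - 1)) (C := |q| * d ^ (q - 1)) (s := Ici d) (x := v) (y := u)
    (fun x hx => (Real.hasDerivAt_rpow_const (Or.inl (hd.trans_le hx).ne')).hasDerivWithinAt)
    (fun x hx => by
      rw [norm_mul, Real.norm_eq_abs, Real.norm_of_nonneg
        (Real.rpow_nonneg (hd.trans_le hx).le _)]
      exact mul_le_mul_of_nonneg_left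
        (Real.rpow_le_rpow_of_nonpos hd (mem_Ici.1 hx) (by linarith)) (abs_nonneg q))
    (convex_Ici d) hv hu
  simpa [Real.norm_eq_abs] using h

theorem ofReal_rpow_le_add {q : ℝ} (hq : q ≤ 1) {c d u v : ℝ} (hc : 0 ≤ c) (hd : 0 < d)
    (hu : d ≤ u) (hv : d ≤ v) :
    ENNReal.ofReal (c * u ^ q) ≤
      ENNReal.ofReal (c * v ^ q) + ENNReal.ofReal (c * (|q| * d ^ (q - 1))) * ‖v - u‖ₑ := by
  have h := abs_rpow_sub_rpow_le hq hd hu hv
  have h1 : u ^ q ≤ v ^ q + |q| * d ^ (q - 1) * |v - u| := by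
    have := le_abs_self (u ^ q - v ^ q)
    rw [abs_sub_comm v u]
    linarith
  have hv0 : 0 ≤ v ^ q := Real.rpow_nonneg (hd.trans_le hv).le _
  have hd0 : 0 ≤ d ^ (q - 1) := Real.rpow_nonneg hd.le _
  rw [← ofReal_norm, ← ENNReal.ofReal_mul (by positivity),
    ← ENNReal.ofReal_add (by positivity) (by positivity), Real.norm_eq_abs]
  apply ENNReal.ofReal_le_ofReal
  calc c * u ^ q ≤ c * (v ^ q + |q| * d ^ (q - 1) * |v - u|) := by gcongr
    _ = _ := by ring

variable [MeasurableSpace E]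

theorem rnDeriv_ae_eq_zero_compl (m ν : Measure E) {K : Set E} (hν : ν Kᶜ = 0) : ∀ᵐ x ∂(m.restrict Kᶜ), ν.rnDeriv m x = 0 := by
  have h1 : ∫⁻ x in Kᶜ, ν.rnDeriv m x ∂m ≤ 0 := by
    have := Measure.setLIntegral_rnDeriv_le (μ := ν) (ν := m) Kᶜ
    exact this.trans hν.le
  have h2 := (lintegral_eq_zero_iff (Measure.measurable_rnDeriv ν m)).1 (le_antisymm h1 bot_le)
  exact h2

theorem renyi_eq_restrict (m : Measure E) {K : Set E} (hK : MeasurableSet K) (ν : Measure E)
    (hν : ν Kᶜ = 0) {N : ℝ} (hN : 1 < N) :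
    renyi m N ν = ∫⁻ x in K, (ν.rnDeriv m x) ^ (1 - 1 / N) ∂m := by
  have hp : 0 < 1 - 1 / N := by
    rw [sub_pos, div_lt_one (by linarith)]
    exact hN
  unfold renyi
  rw [← lintegral_add_compl _ hK]
  have h1 : ∫⁻ x in Kᶜ, (ν.rnDeriv m x) ^ (1 - 1 / N) ∂m = 0 := by
    rw [lintegral_eq_zero_iff ((Measure.measurable_rnDeriv ν m).pow_const _)]
    filter_upwards [rnDeriv_ae_eq_zero_compl m ν hν] with x hx
    rw [hx, ENNReal.zero_rpow_of_pos hp]
    rfl
  rw [h1, add_zero]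

theorem renyi_le_of_tangent (m : Measure E) {K : Set E} (hK : MeasurableSet K) (ν : Measure E)
    (hν : ν Kᶜ = 0) {N : ℝ} (hN : 1 < N) {s : E → ℝ} (hsm : Measurable s) (hs : ∀ x, 0 < s x) :
    renyi m N ν ≤ ∫⁻ x in K, ENNReal.ofReal ((1 - (1 - 1 / N)) * s x ^ (1 - 1 / N)) ∂m +
      ∫⁻ x, ENNReal.ofReal ((1 - 1 / N) * s x ^ ((1 - 1 / N) - 1)) ∂ν := by
  have hp : 0 < 1 - 1 / N := by
    rw [sub_pos, div_lt_one (by linarith)]
    exact hN
  have hp1 : 1 - 1 / N < 1 := by
    have : 0 < 1 / N := by positivity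
    linarith
  rw [renyi_eq_restrict m hK ν hν hN]
  set p : ℝ := 1 - 1 / N with hpdef
  have hmeas1 : Measurable (fun x => ENNReal.ofReal ((1 - p) * s x ^ p)) := by fun_prop
  have hmeas2 : Measurable (fun x => ENNReal.ofReal (p * s x ^ (p - 1))) := by fun_prop
  calc ∫⁻ x in K, (ν.rnDeriv m x) ^ p ∂m
      ≤ ∫⁻ x in K, (ENNReal.ofReal ((1 - p) * s x ^ p) +
          ENNReal.ofReal (p * s x ^ (p - 1)) * ν.rnDeriv m x) ∂m :=
        lintegral_mono fun x => ennreal_rpow_le_tangent hp hp1 (hs x) _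
    _ = ∫⁻ x in K, ENNReal.ofReal ((1 - p) * s x ^ p) ∂m +
          ∫⁻ x in K, ENNReal.ofReal (p * s x ^ (p - 1)) * ν.rnDeriv m x ∂m :=
        lintegral_add_left hmeas1 _
    _ ≤ ∫⁻ x in K, ENNReal.ofReal ((1 - p) * s x ^ p) ∂m +
          ∫⁻ x, ENNReal.ofReal (p * s x ^ (p - 1)) * ν.rnDeriv m x ∂m := by
        gcongr
        exact Measure.restrict_le_self
    _ = ∫⁻ x in K, ENNReal.ofReal ((1 - p) * s x ^ p) ∂m +
          ∫⁻ x, ENNReal.ofReal (p * s x ^ (p - 1)) ∂(m.withDensity (ν.rnDeriv m)) := by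
        congr 1
        rw [lintegral_withDensity_eq_lintegral_mul _ (Measure.measurable_rnDeriv ν m) hmeas2]
        refine lintegral_congr fun x => ?_
        rw [Pi.mul_apply, mul_comm]
    _ ≤ _ := by
        gcongr
        exact Measure.withDensity_rnDeriv_le ν m

variable [MetricSpace E] [BorelSpace E]

/-- The bound by a continuous tangent function passes to the weak limit. -/
theorem le_of_continuous_tangent (m : Measure E) {K : Set E} (hK : MeasurableSet K)
    (μn : ℕ → ProbabilityMeasure E) (μ : ProbabilityMeasure E)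
    (hn : ∀ n, (μn n : Measure E) Kᶜ = 0) (hconv : Tendsto μn atTop (𝓝 μ)) {N : ℝ} (hN : 1 < N)
    (L : ℝ≥0∞) (hL : ∀ n, L ≤ renyi m N (μn n)) {s : E → ℝ} (hsc : Continuous s) {d : ℝ}
    (hd : 0 < d) (hds : ∀ x, d ≤ s x) :
    L ≤ ∫⁻ x in K, ENNReal.ofReal ((1 - (1 - 1 / N)) * s x ^ (1 - 1 / N)) ∂m +
      ∫⁻ x, ENNReal.ofReal ((1 - 1 / N) * s x ^ ((1 - 1 / N) - 1)) ∂(μ : Measure E) := by
  have hp : 0 < 1 - 1 / N := by
    rw [sub_pos, div_lt_one (by linarith)]
    exact hN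
  have hp1 : 1 - 1 / N < 1 := by
    have : 0 < 1 / N := by positivity
    linarith
  have hs : ∀ x, 0 < s x := fun x => hd.trans_le (hds x)
  have hb : ∀ n, L ≤ ∫⁻ x in K, ENNReal.ofReal ((1 - (1 - 1 / N)) * s x ^ (1 - 1 / N)) ∂m +
      ∫⁻ x, ENNReal.ofReal ((1 - 1 / N) * s x ^ ((1 - 1 / N) - 1)) ∂(μn n : Measure E) :=
    fun n => (hL n).trans (renyi_le_of_tangent m hK _ (hn n) hN hsc.measurable hs)
  set p : ℝ := 1 - 1 / N with hpdef
  have hfc : Continuous (fun x => Real.toNNReal (p * s x ^ (p - 1))) := by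
    apply continuous_real_toNNReal.comp
    exact continuous_const.mul (hsc.rpow_const fun x => Or.inl (hs x).ne')
  have hfb : ∀ x, Real.toNNReal (p * s x ^ (p - 1)) ≤ Real.toNNReal (p * d ^ (p - 1)) := by
    intro x
    apply Real.toNNReal_le_toNNReal
    exact mul_le_mul_of_nonneg_left (Real.rpow_le_rpow_of_nonpos hd (hds x) (by linarith)) hp.le
  let f : E →ᵇ ℝ≥0 := BoundedContinuousFunction.mkOfBound ⟨_, hfc⟩ (Real.toNNReal (p * d ^ (p - 1)))
    (fun x y => by
      have hx := hfb x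
      have hy := hfb y
      rw [NNReal.dist_eq, abs_sub_le_iff]
      have hx' : ((Real.toNNReal (p * s x ^ (p - 1)) : ℝ≥0) : ℝ) ≤ Real.toNNReal (p * d ^ (p - 1)) := by
        exact_mod_cast hx
      have hy' : ((Real.toNNReal (p * s y ^ (p - 1)) : ℝ≥0) : ℝ) ≤ Real.toNNReal (p * d ^ (p - 1)) := by
        exact_mod_cast hy
      have hx0 : (0 : ℝ) ≤ ((Real.toNNReal (p * s x ^ (p - 1)) : ℝ≥0) : ℝ) := NNReal.coe_nonneg _
      have hy0 : (0 : ℝ) ≤ ((Real.toNNReal (p * s y ^ (p - 1)) : ℝ≥0) : ℝ) := NNReal.coe_nonneg _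
      constructor
      · change ((Real.toNNReal (p * s x ^ (p - 1)) : ℝ≥0) : ℝ) -
          ((Real.toNNReal (p * s y ^ (p - 1)) : ℝ≥0) : ℝ) ≤ _
        linarith
      · change ((Real.toNNReal (p * s y ^ (p - 1)) : ℝ≥0) : ℝ) -
          ((Real.toNNReal (p * s x ^ (p - 1)) : ℝ≥0) : ℝ) ≤ _
        linarith)
  have hlim := (ProbabilityMeasure.tendsto_iff_forall_lintegral_tendsto.1 hconv) f
  have hlim2 := hlim.const_add (∫⁻ x in K, ENNReal.ofReal ((1 - p) * s x ^ p) ∂m)
  exact ge_of_tendsto' hlim2 hb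

/-- The bound by a bounded measurable tangent function. -/
theorem le_of_measurable_tangent (m : Measure E) {K : Set E} (hK : MeasurableSet K)
    (hmK : m K < ∞) (μn : ℕ → ProbabilityMeasure E) (μ : ProbabilityMeasure E)
    (hn : ∀ n, (μn n : Measure E) Kᶜ = 0) (hconv : Tendsto μn atTop (𝓝 μ)) {N : ℝ} (hN : 1 < N)
    (L : ℝ≥0∞) (hL : ∀ n, L ≤ renyi m N (μn n)) {g : E → ℝ} (hg : Measurable g) {d M : ℝ}
    (hd : 0 < d) (hgd : ∀ x, d ≤ g x) (hgM : ∀ x, g x ≤ M) :
    L ≤ ∫⁻ x in K, ENNReal.ofReal ((1 - (1 - 1 / N)) * g x ^ (1 - 1 / N)) ∂m +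
      ∫⁻ x, ENNReal.ofReal ((1 - 1 / N) * g x ^ ((1 - 1 / N) - 1)) ∂(μ : Measure E) := by
  have hp : 0 < 1 - 1 / N := by
    rw [sub_pos, div_lt_one (by linarith)]
    exact hN
  have hp1 : 1 - 1 / N < 1 := by
    have : 0 < 1 / N := by positivity
    linarith
  have hcont := fun (s : E → ℝ) (hsc : Continuous s) (hds : ∀ x, d ≤ s x) =>
    le_of_continuous_tangent m hK μn μ hn hconv hN L hL hsc hd hds
  set p : ℝ := 1 - 1 / N with hpdef
  have : IsFiniteMeasure (m.restrict K) := ⟨by simpa using hmK⟩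
  set lam : Measure E := m.restrict K + (μ : Measure E) with hlam
  have hgi : Integrable g lam := by
    refine Integrable.of_bound (C := max |d| |M|) hg.aestronglyMeasurable
      (Eventually.of_forall fun x => ?_)
    rw [Real.norm_eq_abs]
    exact abs_le_max_abs_abs (hgd x) (hgM x)
  -- Lipschitz constants
  set C1 : ℝ≥0∞ := ENNReal.ofReal ((1 - p) * (|p| * d ^ (p - 1))) with hC1
  set C2 : ℝ≥0∞ := ENNReal.ofReal (p * (|p - 1| * d ^ (p - 1 - 1))) with hC2
  have key : ∀ ε : ℝ≥0∞, ε ≠ 0 → L ≤ (∫⁻ x in K, ENNReal.ofReal ((1 - p) * g x ^ p) ∂m +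
      ∫⁻ x, ENNReal.ofReal (p * g x ^ (p - 1)) ∂(μ : Measure E)) + (C1 + C2) * ε := by
    intro ε hε
    obtain ⟨f, hf, -⟩ := hgi.exists_boundedContinuous_lintegral_sub_le hε
    set s : E → ℝ := fun x => max d (min M (f x)) with hs
    have hsc : Continuous s := continuous_const.max (continuous_const.min f.continuous)
    have hds : ∀ x, d ≤ s x := fun x => le_max_left _ _
    have hgs : ∀ x, ‖g x - s x‖ₑ ≤ ‖g x - f x‖ₑ := by
      intro x
      rw [enorm_le_iff_norm_le, Real.norm_eq_abs, Real.norm_eq_abs]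
      have h1 : g x = max d (min M (g x)) := by
        rw [min_eq_right (hgM x), max_eq_right (hgd x)]
      calc |g x - s x| = |max d (min M (g x)) - max d (min M (f x))| := by rw [← h1]
        _ ≤ |min M (g x) - min M (f x)| := by
            rw [max_comm d, max_comm d]
            exact abs_max_sub_max_le_abs _ _ _
        _ ≤ |g x - f x| := by
            rw [min_comm M, min_comm M]
            have := abs_min_sub_min_le_max (g x) M (f x) M
            simpa using this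
    have h1 := hcont s hsc hds
    have hme : Measurable (fun x => ‖g x - s x‖ₑ) := (hg.sub hsc.measurable).enorm
    have hsum : ∫⁻ x in K, ‖g x - s x‖ₑ ∂m ≤ ε ∧ ∫⁻ x, ‖g x - s x‖ₑ ∂(μ : Measure E) ≤ ε := by
      have h2 : ∫⁻ x, ‖g x - s x‖ₑ ∂lam ≤ ε := (lintegral_mono hgs).trans hf
      rw [hlam, lintegral_add_measure] at h2
      exact ⟨le_self_add.trans h2, le_add_self.trans h2⟩
    have h3 : ∫⁻ x in K, ENNReal.ofReal ((1 - p) * s x ^ p) ∂m ≤
        ∫⁻ x in K, ENNReal.ofReal ((1 - p) * g x ^ p) ∂m + C1 * ε := by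
      calc ∫⁻ x in K, ENNReal.ofReal ((1 - p) * s x ^ p) ∂m
          ≤ ∫⁻ x in K, (ENNReal.ofReal ((1 - p) * g x ^ p) + C1 * ‖g x - s x‖ₑ) ∂m :=
            lintegral_mono fun x => ofReal_rpow_le_add hp1.le (by linarith) hd (hds x) (hgd x)
        _ = ∫⁻ x in K, ENNReal.ofReal ((1 - p) * g x ^ p) ∂m +
              C1 * ∫⁻ x in K, ‖g x - s x‖ₑ ∂m := by
            rw [lintegral_add_left (by fun_prop), lintegral_const_mul _ hme]
        _ ≤ _ := by
            gcongr
            exact hsum.1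
    have h4 : ∫⁻ x, ENNReal.ofReal (p * s x ^ (p - 1)) ∂(μ : Measure E) ≤
        ∫⁻ x, ENNReal.ofReal (p * g x ^ (p - 1)) ∂(μ : Measure E) + C2 * ε := by
      calc ∫⁻ x, ENNReal.ofReal (p * s x ^ (p - 1)) ∂(μ : Measure E)
          ≤ ∫⁻ x, (ENNReal.ofReal (p * g x ^ (p - 1)) + C2 * ‖g x - s x‖ₑ) ∂(μ : Measure E) :=
            lintegral_mono fun x => ofReal_rpow_le_add (by linarith) hp.le hd (hds x) (hgd x)
        _ = ∫⁻ x, ENNReal.ofReal (p * g x ^ (p - 1)) ∂(μ : Measure E) +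
              C2 * ∫⁻ x, ‖g x - s x‖ₑ ∂(μ : Measure E) := by
            rw [lintegral_add_left (by fun_prop), lintegral_const_mul _ hme]
        _ ≤ _ := by
            gcongr
            exact hsum.2
    refine h1.trans ((add_le_add h3 h4).trans (le_of_eq ?_))
    ring
  have hC : C1 + C2 ≠ ∞ := by simp [C1, C2]
  have hlim : Tendsto (fun ε : ℝ≥0∞ => (∫⁻ x in K, ENNReal.ofReal ((1 - p) * g x ^ p) ∂m +
      ∫⁻ x, ENNReal.ofReal (p * g x ^ (p - 1)) ∂(μ : Measure E)) + (C1 + C2) * ε) (𝓝[>] 0)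
      (𝓝 ((∫⁻ x in K, ENNReal.ofReal ((1 - p) * g x ^ p) ∂m +
      ∫⁻ x, ENNReal.ofReal (p * g x ^ (p - 1)) ∂(μ : Measure E)) + (C1 + C2) * 0)) := by
    apply Tendsto.const_add
    apply ENNReal.Tendsto.const_mul _ (Or.inr hC)
    exact tendsto_id.mono_left nhdsWithin_le_nhds
  rw [mul_zero, add_zero] at hlim
  refine ge_of_tendsto hlim ?_
  filter_upwards [self_mem_nhdsWithin] with ε hε
  exact key ε (ne_of_gt hε)

/-- Pointwise bound for the truncated density. -/
theorem trunc_tangent_le {p : ℝ} (hp0 : 0 < p) (hp1 : p < 1) {d M : ℝ} (hd : 0 < d) (hdM : d ≤ M)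
    {r : ℝ} (hr : 0 ≤ r) :
    (1 - p) * (max d (min M r)) ^ p + p * (max d (min M r)) ^ (p - 1) * r ≤
      r ^ p + (d ^ p + M ^ (p - 1) * r) := by
  have hM : 0 < M := hd.trans_le hdM
  have hM1 : 0 < M ^ (p - 1) := Real.rpow_pos_of_pos hM _
  have hd1 : 0 < d ^ p := Real.rpow_pos_of_pos hd _
  have hr1 : 0 ≤ r ^ p := Real.rpow_nonneg hr _
  rcases le_total r d with h1 | h1
  · rw [min_eq_right (h1.trans hdM), max_eq_left h1]
    have h2 : d ^ (p - 1) * r ≤ d ^ p := by
      calc d ^ (p - 1) * r ≤ d ^ (p - 1) * d := by gcongr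
        _ = d ^ p := by rw [← Real.rpow_add_one hd.ne']; simp
    nlinarith [mul_nonneg hM1.le hr]
  · have hr0 : 0 < r := hd.trans_le h1
    rcases le_total r M with h2 | h2
    · rw [min_eq_right h2, max_eq_right h1]
      have h3 : r ^ (p - 1) * r = r ^ p := by rw [← Real.rpow_add_one hr0.ne']; simp
      have h4 : (1 - p) * r ^ p + p * r ^ (p - 1) * r = r ^ p := by
        rw [mul_assoc, h3]; ring
      rw [h4]
      nlinarith [mul_nonneg hM1.le hr]
    · rw [min_eq_left h2, max_eq_right hdM]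
      have h3 : M ^ p ≤ r ^ p := Real.rpow_le_rpow hM.le h2 hp0.le
      have h4 : 0 ≤ M ^ (p - 1) * r := mul_nonneg hM1.le hr
      nlinarith [Real.rpow_nonneg hM.le p]

/-- **Upper semicontinuity of `renyi`** along weakly convergent sequences of probability measures
on a compact set. -/
theorem renyi_usc [ProperSpace E] (m : Measure E) [IsLocallyFiniteMeasure m] {K : Set E}
    (hK : IsCompact K) (μn : ℕ → ProbabilityMeasure E) (μ : ProbabilityMeasure E)
    (hn : ∀ n, (μn n : Measure E) Kᶜ = 0) (hconv : Tendsto μn atTop (𝓝 μ)) {N : ℝ} (hN : 1 < N)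
    (L : ℝ≥0∞) (hL : ∀ n, L ≤ renyi m N (μn n)) : L ≤ renyi m N μ := by
  have hp : 0 < 1 - 1 / N := by
    rw [sub_pos, div_lt_one (by linarith)]
    exact hN
  have hp1 : 1 - 1 / N < 1 := by
    have : 0 < 1 / N := by positivity
    linarith
  have hKm : MeasurableSet K := hK.measurableSet
  have hmK : m K < ∞ := hK.measure_lt_top
  have hμK : (μ : Measure E) Kᶜ = 0 := by
    have h1 := ProbabilityMeasure.le_liminf_measure_open_of_tendsto hconv hK.isClosed.isOpen_compl
    simp only [hn] at h1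
    simpa using h1
  have hren := renyi_eq_restrict m hKm (μ : Measure E) hμK hN
  have hmeas := fun (g : E → ℝ) (hg : Measurable g) (d M : ℝ) (hd : 0 < d) (hgd : ∀ x, d ≤ g x)
      (hgM : ∀ x, g x ≤ M) => le_of_measurable_tangent m hKm hmK μn μ hn hconv hN L hL hg hd hgd hgM
  have hzero := rnDeriv_ae_eq_zero_compl m (μ : Measure E) hμK
  set p : ℝ := 1 - 1 / N with hpdef
  set ρ : E → ℝ≥0∞ := (μ : Measure E).rnDeriv m with hρ
  have hρm : Measurable ρ := Measure.measurable_rnDeriv _ _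
  have hρt : ∀ᵐ x ∂m, ρ x < ∞ := Measure.rnDeriv_lt_top _ _
  obtain ⟨A, hA, hA1, hA2⟩ := Measure.mutuallySingular_singularPart (μ : Measure E) m
  -- `A`: null set of the singular part; `Aᶜ`: null set of `m`
  have key : ∀ d : ℝ, 0 < d → d ≤ 1 →
      L ≤ renyi m N (μ : Measure E) + (ENNReal.ofReal (d ^ p) * m K +
        2 * ENNReal.ofReal (d ^ (1 - p))) := by
    intro d hd hd1
    set M : ℝ := d⁻¹ with hMdef
    have hdM : d ≤ M := hd1.trans ((one_le_inv₀ hd).2 hd1)
    have hM : 0 < M := hd.trans_le hdM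
    have hMp : M ^ (p - 1) = d ^ (1 - p) := by
      rw [hMdef, Real.inv_rpow hd.le, ← Real.rpow_neg hd.le]
      congr 1
      ring
    classical
    set g : E → ℝ := fun x => if x ∈ A then max d (min M (ρ x).toReal) else M with hg
    have hgm : Measurable g := by
      apply Measurable.ite hA _ measurable_const
      exact measurable_const.max (measurable_const.min hρm.ennreal_toReal)
    have hgd : ∀ x, d ≤ g x := by
      intro x
      simp only [hg]
      split_ifs
      · exact le_max_left _ _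
      · exact hdM
    have hgM : ∀ x, g x ≤ M := by
      intro x
      simp only [hg]
      split_ifs
      · exact max_le hdM (min_le_left _ _)
      · exact le_rfl
    have h1 := hmeas g hgm d M hd hgd hgM
    have hgm2 : Measurable (fun x => ENNReal.ofReal (p * g x ^ (p - 1))) := by fun_prop
    have hgm1 : Measurable (fun x => ENNReal.ofReal ((1 - p) * g x ^ p)) := by fun_prop
    -- the integral with respect to `μ`
    have h2 : ∫⁻ x, ENNReal.ofReal (p * g x ^ (p - 1)) ∂(μ : Measure E) =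
        ∫⁻ x, ENNReal.ofReal (p * g x ^ (p - 1)) ∂((μ : Measure E).singularPart m) +
          ∫⁻ x, ENNReal.ofReal (p * g x ^ (p - 1)) ∂(m.withDensity ρ) := by
      conv_lhs => rw [(Measure.haveLebesgueDecomposition_add (μ : Measure E) m)]
      rw [lintegral_add_measure]
    have h3 : ∫⁻ x, ENNReal.ofReal (p * g x ^ (p - 1)) ∂((μ : Measure E).singularPart m) ≤
        ENNReal.ofReal (d ^ (1 - p)) := by
      calc ∫⁻ x, ENNReal.ofReal (p * g x ^ (p - 1)) ∂((μ : Measure E).singularPart m)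
          ≤ ∫⁻ _, ENNReal.ofReal (d ^ (1 - p)) ∂((μ : Measure E).singularPart m) := by
            apply lintegral_mono_ae
            have : ∀ᵐ x ∂((μ : Measure E).singularPart m), x ∉ A := by
              rw [ae_iff]
              simpa using hA1
            filter_upwards [this] with x hx
            apply ENNReal.ofReal_le_ofReal
            simp only [hg, hx, if_false]
            rw [hMp]
            exact mul_le_of_le_one_left (Real.rpow_nonneg hd.le _) hp1.le
        _ = ENNReal.ofReal (d ^ (1 - p)) * ((μ : Measure E).singularPart m) univ :=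
            lintegral_const _
        _ ≤ ENNReal.ofReal (d ^ (1 - p)) * 1 := by
            gcongr
            exact (Measure.singularPart_le _ _ _).trans prob_le_one
        _ = _ := mul_one _
    have h4 : ∫⁻ x, ENNReal.ofReal (p * g x ^ (p - 1)) ∂(m.withDensity ρ) =
        ∫⁻ x in K, ENNReal.ofReal (p * g x ^ (p - 1)) * ρ x ∂m := by
      rw [lintegral_withDensity_eq_lintegral_mul _ hρm hgm2, ← lintegral_add_compl _ hKm]
      have : ∫⁻ x in Kᶜ, (ρ * fun x => ENNReal.ofReal (p * g x ^ (p - 1))) x ∂m = 0 := by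
        rw [lintegral_eq_zero_iff (hρm.mul hgm2)]
        filter_upwards [hzero] with x hx
        rw [Pi.mul_apply, hx, zero_mul]
        rfl
      rw [this, add_zero]
      refine lintegral_congr fun x => ?_
      rw [Pi.mul_apply, mul_comm]
    have h5 : ∫⁻ x in K, ENNReal.ofReal ((1 - p) * g x ^ p) ∂m +
        ∫⁻ x in K, ENNReal.ofReal (p * g x ^ (p - 1)) * ρ x ∂m ≤
        ∫⁻ x in K, (ρ x ^ p + (ENNReal.ofReal (d ^ p) + ENNReal.ofReal (d ^ (1 - p)) * ρ x)) ∂m := by
      rw [← lintegral_add_left hgm1]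
      apply lintegral_mono_ae
      apply ae_restrict_of_ae
      have hA3 : ∀ᵐ x ∂m, x ∈ A := by
        rw [ae_iff]
        exact hA2
      filter_upwards [hA3, hρt] with x hx hxt
      have hgx : g x = max d (min M (ρ x).toReal) := by
        simp only [hg, hx, if_true]
      have hr : ρ x = ENNReal.ofReal (ρ x).toReal := (ENNReal.ofReal_toReal hxt.ne).symm
      set r : ℝ := (ρ x).toReal with hrdef
      have hr0 : 0 ≤ r := ENNReal.toReal_nonneg
      have hgx0 : 0 < g x := hd.trans_le (hgd x)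
      rw [hr, ENNReal.ofReal_rpow_of_nonneg hr0 hp.le,
        ← ENNReal.ofReal_mul (mul_nonneg hp.le (Real.rpow_nonneg hgx0.le _)),
        ← ENNReal.ofReal_mul (Real.rpow_nonneg hd.le _),
        ← ENNReal.ofReal_add (mul_nonneg (by linarith) (Real.rpow_nonneg hgx0.le _))
          (mul_nonneg (mul_nonneg hp.le (Real.rpow_nonneg hgx0.le _)) hr0),
        ← ENNReal.ofReal_add (Real.rpow_nonneg hd.le _)
          (mul_nonneg (Real.rpow_nonneg hd.le _) hr0),
        ← ENNReal.ofReal_add (Real.rpow_nonneg hr0 _) (add_nonneg (Real.rpow_nonneg hd.le _)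
          (mul_nonneg (Real.rpow_nonneg hd.le _) hr0))]
      apply ENNReal.ofReal_le_ofReal
      rw [hgx, ← hMp]
      exact trunc_tangent_le hp hp1 hd hdM hr0
    have h6 : ∫⁻ x in K, (ρ x ^ p + (ENNReal.ofReal (d ^ p) + ENNReal.ofReal (d ^ (1 - p)) * ρ x)) ∂m
        ≤ renyi m N (μ : Measure E) + (ENNReal.ofReal (d ^ p) * m K +
          ENNReal.ofReal (d ^ (1 - p))) := by
      rw [lintegral_add_left (hρm.pow_const p), lintegral_add_left measurable_const,
        lintegral_const_mul _ hρm, hren]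
      gcongr
      · simp
      · calc ENNReal.ofReal (d ^ (1 - p)) * ∫⁻ x in K, ρ x ∂m
            ≤ ENNReal.ofReal (d ^ (1 - p)) * 1 := by
              gcongr
              exact (Measure.setLIntegral_rnDeriv_le K).trans prob_le_one
          _ = _ := mul_one _
    calc L ≤ _ := h1
      _ ≤ ∫⁻ x in K, ENNReal.ofReal ((1 - p) * g x ^ p) ∂m +
          (ENNReal.ofReal (d ^ (1 - p)) + ∫⁻ x in K, ENNReal.ofReal (p * g x ^ (p - 1)) * ρ x ∂m) := by
          rw [h2, h4]
          gcongr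
      _ = (∫⁻ x in K, ENNReal.ofReal ((1 - p) * g x ^ p) ∂m +
          ∫⁻ x in K, ENNReal.ofReal (p * g x ^ (p - 1)) * ρ x ∂m) +
            ENNReal.ofReal (d ^ (1 - p)) := by ring
      _ ≤ (renyi m N (μ : Measure E) + (ENNReal.ofReal (d ^ p) * m K +
          ENNReal.ofReal (d ^ (1 - p)))) + ENNReal.ofReal (d ^ (1 - p)) :=
          add_le_add (h5.trans h6) le_rfl
      _ = _ := by ring
  have hlim1 : Tendsto (fun d : ℝ => ENNReal.ofReal (d ^ p) * m K) (𝓝[>] 0) (𝓝 0) := by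
    have h1 : Tendsto (fun d : ℝ => ENNReal.ofReal (d ^ p)) (𝓝[>] 0) (𝓝 (ENNReal.ofReal (0 ^ p))) := by
      apply ENNReal.tendsto_ofReal
      exact ((Real.continuousAt_rpow_const 0 p (Or.inr hp.le)).tendsto).mono_left nhdsWithin_le_nhds
    rw [Real.zero_rpow hp.ne', ENNReal.ofReal_zero] at h1
    have h2 := ENNReal.Tendsto.mul_const (b := m K) h1 (Or.inr hmK.ne)
    rwa [zero_mul] at h2
  have hlim2 : Tendsto (fun d : ℝ => 2 * ENNReal.ofReal (d ^ (1 - p))) (𝓝[>] 0) (𝓝 0) := by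
    have h1 : Tendsto (fun d : ℝ => ENNReal.ofReal (d ^ (1 - p))) (𝓝[>] 0)
        (𝓝 (ENNReal.ofReal (0 ^ (1 - p)))) := by
      apply ENNReal.tendsto_ofReal
      exact ((Real.continuousAt_rpow_const 0 (1 - p) (Or.inr (by linarith))).tendsto).mono_left
        nhdsWithin_le_nhds
    rw [Real.zero_rpow (by linarith), ENNReal.ofReal_zero] at h1
    have h2 := ENNReal.Tendsto.const_mul (a := 2) h1 (Or.inr (by simp))
    rwa [mul_zero] at h2
  have hlim := (hlim1.add hlim2).const_add (renyi m N (μ : Measure E))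
  rw [add_zero, add_zero] at hlim
  refine ge_of_tendsto hlim ?_
  have : ∀ᶠ d : ℝ in 𝓝[>] 0, d ∈ Ioc (0 : ℝ) 1 :=
    Ioc_mem_nhdsGT (by norm_num)
  filter_upwards [this] with d hd
  exact key d hd.1 hd.2

end Usc

end MP_c487e3_gt
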