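import Pool.Agent.Lib.MP_c487e3_gt.SmoothCost
import Pool.Agent.Lib.MP_c487e3_gt.Usc
import Pool.Agent.Lib.MP_c487e3_gt.H93.LimitPlans

/-!
# MP_c487e3_gt: the limit `e → 0` (from smooth strongly convex costs to the square of the `ℓ¹` norm)
-/

open MeasureTheory Set Filter
open scoped ENNReal Topology

namespace MP_c487e3_gt

/-- The inequality `core` for smooth strongly convex costs (proved in `Core.lean`). -/
def CoreStatement : Prop :=
  ∀ (h : E3 → ℝ) (_ : ContDiff ℝ 2 h) {lam : ℝ} (_ : 0 < lam)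
    (_ : StrongConvexOn univ lam h) {Γ : Set (E3 × E3)} (_ : IsCompact Γ)
    (_ : CycMono (fun x y => h (x - y)) Γ) (π : Measure (E3 × E3)) (_ : IsProbabilityMeasure π)
    (_ : π Γᶜ = 0) {μ₀ μ₁ : Measure E3} (_ : IsCoupling π μ₀ μ₁) (_ : μ₀ ≪ volume)
    (_ : μ₁ ≪ volume) {t : ℝ} (_ : t ∈ Ioo (0 : ℝ) 1) {N' : ℝ} (_ : 3 ≤ N'),
    ENNReal.ofReal (1 - t) * renyi volume N' μ₀ + ENNReal.ofReal t * renyi volume N' μ₁ ≤
      renyi volume N' (π.map (fun p => (1 - t) • p.1 + t • p.2))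

theorem N1_continuous : Continuous N1 := by
  unfold N1
  fun_prop

/-- `∫⁻ ofReal (N1 (x - y)) ^ 2` as a real integral, for a plan concentrated on a compact set. -/
theorem lintegral_N1_sq {π : Measure (E3 × E3)} {μ₀ μ₁ : Measure E3} [IsProbabilityMeasure μ₀]
    (hπ : IsCoupling π μ₀ μ₁) {K : Set E3} (hK : IsCompact K) (h₀ : μ₀ Kᶜ = 0) (h₁ : μ₁ Kᶜ = 0) :
    ∫⁻ p, ENNReal.ofReal (N1 (p.1 - p.2)) ^ 2 ∂π =
      ENNReal.ofReal (∫ p, N1 (p.1 - p.2) ^ 2 ∂π) := by
  have : IsProbabilityMeasure π := hπ.isProbabilityMeasure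
  have hc : Continuous (fun p : E3 × E3 => N1 (p.1 - p.2) ^ 2) := by
    exact (N1_continuous.comp (continuous_fst.sub continuous_snd)).pow 2
  have hi : Integrable (fun p : E3 × E3 => N1 (p.1 - p.2) ^ 2) π :=
    integrable_of_compact hc (hK.prod hK) π (hπ.compl_null hK.measurableSet h₀ h₁)
  rw [ofReal_integral_eq_lintegral_ofReal hi (Eventually.of_forall fun p => sq_nonneg _)]
  refine lintegral_congr fun p => ?_
  rw [ENNReal.ofReal_pow (N1_nonneg _)]

theorem cd_base_of_core (hcore : CoreStatement) (μ₀ μ₁ : Measure E3) [IsProbabilityMeasure μ₀]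
    [IsProbabilityMeasure μ₁] (h₀ : μ₀ ≪ volume) (h₁ : μ₁ ≪ volume) {R : ℝ}
    (hR₀ : μ₀ (Metric.closedBall 0 R)ᶜ = 0) (hR₁ : μ₁ (Metric.closedBall 0 R)ᶜ = 0) :
    ∃ π : Measure (E3 × E3), IsCoupling π μ₀ μ₁ ∧
      (∀ π' : Measure (E3 × E3), IsCoupling π' μ₀ μ₁ →
        ∫⁻ p, ENNReal.ofReal (N1 (p.1 - p.2)) ^ 2 ∂π ≤
          ∫⁻ p, ENNReal.ofReal (N1 (p.1 - p.2)) ^ 2 ∂π') ∧
      ∀ t ∈ Icc (0 : ℝ) 1, ∀ N' : ℝ, 3 ≤ N' →
        ENNReal.ofReal (1 - t) * renyi volume N' μ₀ + ENNReal.ofReal t * renyi volume N' μ₁ ≤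
          renyi volume N' (π.map (fun p => (1 - t) • p.1 + t • p.2)) := by
  set K : Set E3 := Metric.closedBall 0 R with hKdef
  have hK : IsCompact K := isCompact_closedBall _ _
  set e : ℕ → ℝ := fun k => 1 / ((k : ℝ) + 1) with he
  have hepos : ∀ k, 0 < e k := fun k => by positivity
  have he1 : ∀ k, e k ≤ 1 := by
    intro k
    have hk : (0 : ℝ) ≤ k := Nat.cast_nonneg k
    simp only [he]
    rw [div_le_one (by positivity)]
    linarith
  have hcont : ∀ k, Continuous (fun p : E3 × E3 => hcost (e k) (p.1 - p.2)) := fun k =>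
    (hcost_continuous (e k)).comp (continuous_fst.sub continuous_snd)
  have hex := fun k => exists_optimal (fun x y => hcost (e k) (x - y)) (hcont k) hK μ₀ μ₁ hR₀ hR₁
  choose π hπc hπo Γ hΓc hΓK hΓ0 hΓm using hex
  have hπp : ∀ k, IsProbabilityMeasure (π k) := fun k => (hπc k).isProbabilityMeasure
  have hcN : Continuous (fun p : E3 × E3 => N1 (p.1 - p.2) ^ 2) :=
    (N1_continuous.comp (continuous_fst.sub continuous_snd)).pow 2
  obtain ⟨πl, φ, hφ, hlim, hlc, hlo⟩ := exists_limit_optimal (fun x y => N1 (x - y) ^ 2) hcN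
    (fun k x y => hcost (e k) (x - y)) hcont hK (by
      intro ε hε
      set C : ℝ := 36 * |R| + 9 + 4 * R ^ 2 with hC
      have hC0 : 0 < C := by positivity
      have hlim : Tendsto (fun k => e k * C) atTop (𝓝 (0 * C)) :=
        (tendsto_one_div_add_atTop_nhds_zero_nat (𝕜 := ℝ)).mul_const C
      rw [zero_mul] at hlim
      filter_upwards [hlim.eventually (ge_mem_nhds hε)] with k hk x hx y hy
      refine le_trans ?_ hk
      have hx1 : ‖x‖ ≤ R := by simpa [hKdef] using hx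
      have hy1 : ‖y‖ ≤ R := by simpa [hKdef] using hy
      have hxy : ‖x - y‖ ≤ 2 * |R| := by
        have := norm_sub_le x y
        have h2 := le_abs_self R
        linarith
      have := hcost_close (hepos k) (he1 k) hxy
      rwa [sq_abs] at this)
    μ₀ μ₁ hR₀ hR₁ (fun k => ⟨π k, hπp k⟩) hπc hπo
  refine ⟨πl, hlc, fun π' hπ' => ?_, fun t ht N' hN' => ?_⟩
  · rw [lintegral_N1_sq hlc hK hR₀ hR₁, lintegral_N1_sq hπ' hK hR₀ hR₁]
    exact ENNReal.ofReal_le_ofReal (hlo π' hπ')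
  · rcases eq_or_lt_of_le ht.1 with h0 | h0
    · subst h0
      have h1 : (fun p : E3 × E3 => (1 - (0 : ℝ)) • p.1 + (0 : ℝ) • p.2) = Prod.fst := by
        funext p
        simp
      rw [h1, hlc.1]
      simp
    rcases eq_or_lt_of_le ht.2 with h1 | h1
    · subst h1
      have h2 : (fun p : E3 × E3 => (1 - (1 : ℝ)) • p.1 + (1 : ℝ) • p.2) = Prod.snd := by
        funext p
        simp
      rw [h2, hlc.2]
      simp
    · have hz : Continuous (fun p : E3 × E3 => (1 - t) • p.1 + t • p.2) := by fun_prop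
      have hmap := ProbabilityMeasure.tendsto_map_of_tendsto_of_continuous _ _ hlim hz
      have hsub : ∀ k, (π k).map (fun p : E3 × E3 => (1 - t) • p.1 + t • p.2) Kᶜ = 0 := by
        intro k
        rw [Measure.map_apply hz.measurable hK.measurableSet.compl]
        refine measure_mono_null ?_ ((hπc k).compl_null hK.measurableSet hR₀ hR₁)
        intro p hp hp2
        apply hp
        exact (convex_closedBall (0 : E3) R) hp2.1 hp2.2 (by linarith) h0.le (by ring)
      have := renyi_usc volume hK (fun k => (ProbabilityMeasure.map ⟨π (φ k), hπp (φ k)⟩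
        hz.measurable.aemeasurable)) (πl.map hz.measurable.aemeasurable)
        (fun k => hsub (φ k)) hmap (N := N') (by linarith)
        (ENNReal.ofReal (1 - t) * renyi volume N' μ₀ + ENNReal.ofReal t * renyi volume N' μ₁)
        (fun k => by
          have := hcore (hcost (e (φ k))) (hcost_contDiff (hepos _)) (hepos _)
            (hcost_strongConvex (hepos _)) (hΓc (φ k)) (hΓm (φ k)) (π (φ k)) (hπp _) (hΓ0 _)
            (hπc _) h₀ h₁ ⟨h0, h1⟩ hN'
          exact this)
      exact this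

end MP_c487e3_gt
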