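import Pool.Agent.Lib.MP_c487e3_gt.Defs
import Mathlib

/-!
# MP_c487e3_gt, M7: the cone `ℝ³/{±1}` over the projective plane does not split off a line

Topological statement: a quotient of `ℝ³` by `±1` is not homeomorphic to a product `Y × ℝ`.
-/

open Set Topology Filter

namespace MP_c487e3_gt

namespace TopCone

variable {X : Type*} [TopologicalSpace X] {q : E3 → X}

/-- `q` is a covering map away from the apex. -/
lemma isCoveringMap_restrict [T2Space X] (hc : Continuous q) (ho : IsOpenMap q)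
    (hs : Function.Surjective q) (hq : ∀ x y, q x = q y ↔ x = y ∨ x = -y) :
    IsCoveringMap (({q 0}ᶜ : Set X).restrictPreimage q) := by
  have hQ : IsQuotientMap q := ho.isQuotientMap hc hs
  have horb : ∀ {e₁ e₂ : E3}, q e₁ = q e₂ ↔ e₁ ∈ MulAction.orbit ℤˣ e₂ := by
    intro e₁ e₂
    rw [hq, MulAction.mem_orbit_iff]
    constructor
    · rintro (h | h)
      · exact ⟨1, by simp [h]⟩
      · exact ⟨-1, by simp [h]⟩
    · rintro ⟨u, hu⟩
      rcases Int.units_eq_one_or u with rfl | rfl
      · left; simpa using hu.symm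
      · right; simpa using hu.symm
  have hcov : IsCoveringMapOn q (q '' {e | MulAction.stabilizer ℤˣ e = ⊥}) := by
    apply hQ.isCoveringMapOn_of_smul_disjoint horb
    intro e
    by_cases he : e = 0
    · refine ⟨univ, univ_mem, ?_⟩
      intro g _
      rw [he, smul_zero]
    · have hne : e ≠ -e := by
        intro h
        apply he
        have : (2 : ℝ) • e = 0 := by
          rw [two_smul]
          nth_rewrite 2 [h]
          simp
        simpa using this
      obtain ⟨U, V, hU, hV, heU, heV, hUV⟩ := t2_separation hne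
      refine ⟨U ∩ (fun x => -x) ⁻¹' V, ?_, ?_⟩
      · apply IsOpen.mem_nhds
        · exact hU.inter (hV.preimage continuous_neg)
        · exact ⟨heU, heV⟩
      · intro g hg
        rcases Int.units_eq_one_or g with rfl | rfl
        · simp
        · exfalso
          obtain ⟨y, ⟨x, ⟨hx1, hx2⟩, rfl⟩, hy1, hy2⟩ := hg
          have h1 : -x ∈ U := by simpa using hy1
          exact Set.disjoint_left.mp hUV h1 hx2
  have hset : q '' {e | MulAction.stabilizer ℤˣ e = ⊥} = ({q 0}ᶜ : Set X) := by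
    ext x
    constructor
    · rintro ⟨e, he, rfl⟩
      simp only [mem_compl_iff, mem_singleton_iff]
      intro h
      have h0 : e = 0 := by
        rcases (hq _ _).mp h with h | h
        · exact h
        · simpa using h
      subst h0
      have : (-1 : ℤˣ) ∈ MulAction.stabilizer ℤˣ (0 : E3) := by
        rw [MulAction.mem_stabilizer_iff]; simp
      rw [show MulAction.stabilizer ℤˣ (0 : E3) = ⊥ from he, Subgroup.mem_bot] at this
      exact absurd this (by decide)
    · intro hx
      obtain ⟨e, rfl⟩ := hs x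
      refine ⟨e, ?_, rfl⟩
      have he : e ≠ 0 := by
        rintro rfl
        exact hx rfl
      show MulAction.stabilizer ℤˣ e = ⊥
      rw [Subgroup.eq_bot_iff_forall]
      intro u hu
      rw [MulAction.mem_stabilizer_iff] at hu
      rcases Int.units_eq_one_or u with rfl | rfl
      · rfl
      · exfalso
        apply he
        have h1 : -e = e := by simpa using hu
        have : (2 : ℝ) • e = 0 := by
          rw [two_smul]
          nth_rewrite 2 [← h1]
          simp
        simpa using this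
  rw [hset] at hcov
  exact hcov.isCoveringMap_restrictPreimage

/-- Lifting on an open star-shaped set. -/
lemma exists_lift_of_star (cov : IsCoveringMap (({q 0}ᶜ : Set X).restrictPreimage q))
    {U : Set E3} (hU : IsOpen U) {u₀ : E3} (hstar : StarConvex ℝ u₀ U) {a₀ : E3} (ha₀ : a₀ ∈ U)
    {g : E3 → X} (hg : ContinuousOn g U) (hg0 : ∀ x ∈ U, g x ≠ q 0)
    {e₀ : E3} (he₀ : q e₀ = g a₀) :
    ∃ G : E3 → E3, ContinuousOn G U ∧ G a₀ = e₀ ∧ ∀ x ∈ U, q (G x) = g x := by
  have : ContractibleSpace U := hstar.contractibleSpace ⟨a₀, ha₀⟩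
  have : LocallyPathConnectedSpace U := hU.locallyPathConnectedSpace
  let f : C(U, ({q 0}ᶜ : Set X)) :=
    ⟨fun x => ⟨g x, hg0 x x.2⟩, by
      apply Continuous.subtype_mk
      exact hg.domRestrict⟩
  have hmem : e₀ ∈ q ⁻¹' ({q 0}ᶜ : Set X) := by
    simp only [mem_preimage, mem_compl_iff, mem_singleton_iff]
    rw [he₀]
    exact hg0 a₀ ha₀
  obtain ⟨F, ⟨hF0, hF⟩, -⟩ := cov.existsUnique_continuousMap_lifts f ⟨a₀, ha₀⟩ ⟨e₀, hmem⟩
    (by apply Subtype.ext; exact he₀)
  classical
  refine ⟨fun x => if h : x ∈ U then (F ⟨x, h⟩ : E3) else 0, ?_, ?_, ?_⟩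
  · rw [continuousOn_iff_continuous_domRestrict]
    have : U.domRestrict (fun x => if h : x ∈ U then (F ⟨x, h⟩ : E3) else 0)
        = fun x => (F x : E3) := by
      funext x
      simp [Set.domRestrict]
    rw [this]
    exact continuous_subtype_val.comp F.continuous
  · simp only [ha₀, dif_pos, hF0]
  · intro x hx
    simp only [hx, dif_pos]
    have := congrFun hF ⟨x, hx⟩
    have h2 := congrArg Subtype.val this
    simpa [f] using h2

/-- The complement of a closed ray is star-shaped. -/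
lemma starConvex_ray (e : E3) (he : e ≠ 0) :
    StarConvex ℝ e {x : E3 | ¬ ∃ t : ℝ, t ≤ 0 ∧ x = t • e} := by
  intro x hx a b ha hb hab
  rintro ⟨t, ht, h⟩
  apply hx
  rcases eq_or_lt_of_le hb with hb0 | hb0
  · exfalso
    rw [← hb0] at hab h
    have ha1 : a = 1 := by linarith
    rw [ha1] at h
    have h2 : (1 - t) • e = 0 := by
      rw [sub_smul, one_smul]
      rw [sub_eq_zero]
      simpa using h
    rcases smul_eq_zero.mp h2 with h3 | h3
    · linarith
    · exact he h3
  · refine ⟨(t - a) / b, ?_, ?_⟩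
    · apply div_nonpos_of_nonpos_of_nonneg
      · linarith
      · exact hb
    · have h2 : b • x = (t - a) • e := by
        rw [sub_smul, ← h]; abel
      rw [div_eq_inv_mul, mul_smul, ← h2, smul_smul, inv_mul_cancel₀ hb0.ne', one_smul]

lemma isOpen_ray (e : E3) (he : e ≠ 0) :
    IsOpen {x : E3 | ¬ ∃ t : ℝ, t ≤ 0 ∧ x = t • e} := by
  have h : IsClosed ((fun t : ℝ => t • e) '' Iic 0) :=
    (isClosedEmbedding_smul_left he).isClosedMap _ isClosed_Iic
  have h2 : {x : E3 | ¬ ∃ t : ℝ, t ≤ 0 ∧ x = t • e} = ((fun t : ℝ => t • e) '' Iic 0)ᶜ := by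
    ext x
    simp only [mem_ofPred_eq, mem_compl_iff, mem_image, mem_Iic]
    apply not_congr
    constructor
    · rintro ⟨t, ht, h⟩; exact ⟨t, ht, h.symm⟩
    · rintro ⟨t, ht, h⟩; exact ⟨t, ht, h.symm⟩
  rw [h2]
  exact h.isOpen_compl

/-- Every continuous map from the punctured space to `X` minus the apex lifts. -/
lemma exists_lift_punctured (cov : IsCoveringMap (({q 0}ᶜ : Set X).restrictPreimage q))
    (hs : Function.Surjective q)
    {g : E3 → X} (hg : ContinuousOn g {0}ᶜ) (hg0 : ∀ x : E3, x ≠ 0 → g x ≠ q 0) :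
    ∃ G : E3 → E3, ContinuousOn G {0}ᶜ ∧ ∀ x : E3, x ≠ 0 → q (G x) = g x := by
  let e : E3 := EuclideanSpace.single 0 1
  have he : e ≠ 0 := by
    intro h
    have := congrArg (fun v : E3 => v 0) h
    simp [e] at this
  let w : E3 := EuclideanSpace.single 1 1
  let U₁ : Set E3 := {x : E3 | ¬ ∃ t : ℝ, t ≤ 0 ∧ x = t • e}
  let U₂ : Set E3 := {x : E3 | ¬ ∃ t : ℝ, t ≤ 0 ∧ x = t • (-e)}
  have hU₁ : IsOpen U₁ := isOpen_ray e he
  have hU₂ : IsOpen U₂ := isOpen_ray (-e) (neg_ne_zero.mpr he)
  have hsub₁ : U₁ ⊆ {0}ᶜ := by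
    intro x hx h
    apply hx
    exact ⟨0, le_rfl, by simpa using h⟩
  have hsub₂ : U₂ ⊆ {0}ᶜ := by
    intro x hx h
    apply hx
    exact ⟨0, le_rfl, by simpa using h⟩
  have hcover : ∀ x : E3, x ≠ 0 → x ∈ U₁ ∨ x ∈ U₂ := by
    intro x hx
    by_contra hcon
    push Not at hcon
    obtain ⟨h1, h2⟩ := hcon
    simp only [U₁, U₂, mem_ofPred_eq, not_not] at h1 h2
    obtain ⟨t, ht, h1⟩ := h1
    obtain ⟨s, hs, h2⟩ := h2
    have h3 : (t + s) • e = 0 := by
      rw [add_smul, ← h1]
      rw [smul_neg] at h2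
      rw [h2]; simp
    rcases smul_eq_zero.mp h3 with h4 | h4
    · have : t = 0 := by linarith
      apply hx
      rw [h1, this, zero_smul]
    · exact he h4
  have hinter : U₁ ∩ U₂ = ((Submodule.span ℝ {e} : Submodule ℝ E3) : Set E3)ᶜ := by
    ext x
    simp only [U₁, U₂, mem_inter_iff, mem_ofPred_eq, mem_compl_iff, SetLike.mem_coe,
      Submodule.mem_span_singleton]
    constructor
    · rintro ⟨h1, h2⟩ ⟨t, ht⟩
      rcases le_total t 0 with h | h
      · exact h1 ⟨t, h, ht.symm⟩
      · exact h2 ⟨-t, by linarith, by simp [ht]⟩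
    · intro h
      constructor
      · rintro ⟨t, -, ht⟩
        exact h ⟨t, ht.symm⟩
      · rintro ⟨t, -, ht⟩
        exact h ⟨-t, by simp [ht]⟩
  have hconn : IsPreconnected (U₁ ∩ U₂) := by
    rw [hinter]
    have : 1 < Module.rank ℝ (E3 ⧸ (Submodule.span ℝ {e} : Submodule ℝ E3)) := by
      rw [← Module.finrank_eq_rank]
      have h1 := Submodule.finrank_quotient_add_finrank (Submodule.span ℝ {e} : Submodule ℝ E3)
      rw [finrank_span_singleton he, finrank_euclideanSpace_fin] at h1
      have h2 : Module.finrank ℝ (E3 ⧸ (Submodule.span ℝ {e} : Submodule ℝ E3)) = 2 := by omega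
      rw [h2]
      norm_num
    exact (isPathConnected_compl_of_one_lt_codim this).isConnected.isPreconnected
  have hw : w ∈ U₁ ∩ U₂ := by
    rw [hinter]
    simp only [mem_compl_iff, SetLike.mem_coe, Submodule.mem_span_singleton]
    rintro ⟨t, ht⟩
    have := congrArg (fun v : E3 => v 1) ht
    simp [e, w] at this
  obtain ⟨e₀, he₀⟩ := hs (g w)
  obtain ⟨G₁, hG₁c, hG₁w, hG₁⟩ := exists_lift_of_star cov hU₁ (starConvex_ray e he) hw.1
    (hg.mono hsub₁) (fun x hx => hg0 x (hsub₁ hx)) he₀
  obtain ⟨G₂, hG₂c, hG₂w, hG₂⟩ := exists_lift_of_star cov hU₂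
    (starConvex_ray (-e) (neg_ne_zero.mpr he)) hw.2
    (hg.mono hsub₂) (fun x hx => hg0 x (hsub₂ hx)) he₀
  -- the two lifts agree on the intersection
  have hagree : ∀ x ∈ U₁ ∩ U₂, G₁ x = G₂ x := by
    intro x hx
    have : PreconnectedSpace ↥(U₁ ∩ U₂) := isPreconnected_iff_preconnectedSpace.mp hconn
    have hmem₁ : ∀ y : ↥(U₁ ∩ U₂), G₁ y ∈ q ⁻¹' ({q 0}ᶜ : Set X) := by
      intro y
      simp only [mem_preimage, mem_compl_iff, mem_singleton_iff]
      rw [hG₁ y y.2.1]
      exact hg0 y (hsub₁ y.2.1)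
    have hmem₂ : ∀ y : ↥(U₁ ∩ U₂), G₂ y ∈ q ⁻¹' ({q 0}ᶜ : Set X) := by
      intro y
      simp only [mem_preimage, mem_compl_iff, mem_singleton_iff]
      rw [hG₂ y y.2.2]
      exact hg0 y (hsub₂ y.2.2)
    have key := cov.eq_of_comp_eq (A := ↥(U₁ ∩ U₂))
      (g₁ := fun y => (⟨G₁ y, hmem₁ y⟩ : q ⁻¹' ({q 0}ᶜ : Set X)))
      (g₂ := fun y => (⟨G₂ y, hmem₂ y⟩ : q ⁻¹' ({q 0}ᶜ : Set X)))
      (by
        apply Continuous.subtype_mk
        exact (hG₁c.mono inter_subset_left).domRestrict)
      (by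
        apply Continuous.subtype_mk
        exact (hG₂c.mono inter_subset_right).domRestrict)
      (by
        funext y
        apply Subtype.ext
        show q (G₁ y) = q (G₂ y)
        rw [hG₁ y y.2.1, hG₂ y y.2.2])
      ⟨w, hw⟩
      (by
        apply Subtype.ext
        show G₁ w = G₂ w
        rw [hG₁w, hG₂w])
    have := congrFun key ⟨x, hx⟩
    exact congrArg Subtype.val this
  classical
  refine ⟨fun x => if x ∈ U₁ then G₁ x else G₂ x, ?_, ?_⟩
  · intro x hx
    apply ContinuousAt.continuousWithinAt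
    rcases hcover x hx with h | h
    · have h1 : ContinuousAt G₁ x := hG₁c.continuousAt (hU₁.mem_nhds h)
      apply h1.congr
      filter_upwards [hU₁.mem_nhds h] with y hy
      rw [if_pos hy]
    · have h1 : ContinuousAt G₂ x := hG₂c.continuousAt (hU₂.mem_nhds h)
      apply h1.congr
      filter_upwards [hU₂.mem_nhds h] with y hy
      by_cases hy1 : y ∈ U₁
      · rw [if_pos hy1]
        exact (hagree y ⟨hy1, hy⟩).symm
      · rw [if_neg hy1]
  · intro x hx
    show q (if x ∈ U₁ then G₁ x else G₂ x) = g x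
    by_cases h : x ∈ U₁
    · rw [if_pos h]; exact hG₁ x h
    · rw [if_neg h]; exact hG₂ x ((hcover x hx).resolve_left h)

end TopCone

open TopCone in
/-- **The cone `ℝ³/{±1}` over the projective plane does not split off a line.** -/
theorem no_splitting {X : Type*} [TopologicalSpace X] [T2Space X] (q : E3 → X)
    (hc : Continuous q) (ho : IsOpenMap q) (hs : Function.Surjective q)
    (hq : ∀ x y, q x = q y ↔ x = y ∨ x = -y) (Y : Type*) [TopologicalSpace Y] :
    IsEmpty (X ≃ₜ Y × ℝ) := by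
  constructor
  intro Φ
  have cov := isCoveringMap_restrict hc ho hs hq
  -- the homeomorphism moving the apex
  let h : X ≃ₜ X := (Φ.trans ((Homeomorph.refl Y).prodCongr (Homeomorph.addRight (1 : ℝ)))).trans
    Φ.symm
  have hho : h (q 0) ≠ q 0 := by
    intro heq
    have h1 : Φ (h (q 0)) = Φ (q 0) := by rw [heq]
    have h2 : Φ (h (q 0)) = ((Φ (q 0)).1, (Φ (q 0)).2 + 1) := by
      simp [h, Prod.map]
    rw [h2] at h1
    have h3 := congrArg Prod.snd h1
    simp at h3
  obtain ⟨a, ha⟩ := hs (h (q 0))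
  have ha0 : a ≠ 0 := by
    rintro rfl
    exact hho ha.symm
  have hr : 0 < ‖a‖ := norm_pos_iff.mpr ha0
  have hinj : ∀ x ∈ Metric.ball a ‖a‖, ∀ y ∈ Metric.ball a ‖a‖, q x = q y → x = y := by
    intro x hx y hy hxy
    rcases (hq x y).mp hxy with h1 | h1
    · exact h1
    · exfalso
      rw [Metric.mem_ball, dist_eq_norm] at hx hy
      have h2 : ‖y + a‖ < ‖a‖ := by
        have : x - a = -(y + a) := by rw [h1]; abel
        rwa [this, norm_neg] at hx
      have h3 : ‖(2 : ℝ) • a‖ < 2 * ‖a‖ := by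
        have : (2 : ℝ) • a = (y + a) - (y - a) := by rw [two_smul]; abel
        rw [this]
        calc ‖(y + a) - (y - a)‖ ≤ ‖y + a‖ + ‖y - a‖ := norm_sub_le _ _
          _ < 2 * ‖a‖ := by linarith
      rw [norm_smul] at h3
      norm_num at h3
  let ψ : OpenPartialHomeomorph E3 E3 := OpenPartialHomeomorph.univBall a ‖a‖
  have hψs : ψ.source = univ := OpenPartialHomeomorph.univBall_source a ‖a‖
  have hψt : ψ.target = Metric.ball a ‖a‖ := OpenPartialHomeomorph.univBall_target a hr
  have hψ0 : ψ 0 = a := OpenPartialHomeomorph.univBall_apply_zero a ‖a‖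
  have hψe : IsOpenEmbedding ψ := ψ.isOpenEmbedding hψs
  have hψmem : ∀ v, ψ v ∈ Metric.ball a ‖a‖ := by
    intro v
    rw [← hψt]
    exact ψ.map_source (by rw [hψs]; trivial)
  let κ : E3 → X := fun v => q (ψ v)
  have hκc : Continuous κ := hc.comp hψe.continuous
  have hκinj : Function.Injective κ := by
    intro v w hvw
    exact hψe.injective (hinj _ (hψmem v) _ (hψmem w) hvw)
  have hκo : IsOpenMap κ := ho.comp hψe.isOpenMap
  have hκe : IsOpenEmbedding κ := IsOpenEmbedding.of_continuous_injective_isOpenMap hκc hκinj hκo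
  have hκ0 : κ 0 = h (q 0) := by
    show q (ψ 0) = _
    rw [hψ0, ha]
  -- the lift of `h⁻¹ ∘ q ∘ ψ`
  have hg0 : ∀ v : E3, v ≠ 0 → h.symm (κ v) ≠ q 0 := by
    intro v hv heq
    apply hv
    apply hκinj
    rw [hκ0, ← heq, Homeomorph.apply_symm_apply]
  obtain ⟨G, hGc, hG⟩ := exists_lift_punctured cov hs
    (g := fun v => h.symm (κ v)) (h.symm.continuous.comp hκc).continuousOn hg0
  -- a small sphere around the apex
  let κ' : OpenPartialHomeomorph E3 X := hκe.toOpenPartialHomeomorph κ
  have hκ's : κ'.source = univ := hκe.toOpenPartialHomeomorph_source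
  have hκ't : κ'.target = range κ := hκe.toOpenPartialHomeomorph_target
  have hκ'f : ∀ v, κ' v = κ v := fun v => rfl
  have hVopen : IsOpen ((fun x => h (q x)) ⁻¹' (range κ)) :=
    hκe.isOpen_range.preimage (h.continuous.comp hc)
  have hV0 : (0 : E3) ∈ (fun x => h (q x)) ⁻¹' (range κ) := ⟨0, hκ0⟩
  obtain ⟨δ, hδ, hδV⟩ := Metric.isOpen_iff.mp hVopen 0 hV0
  let S : Set E3 := Metric.sphere 0 (δ / 2)
  have hSV : ∀ x ∈ S, h (q x) ∈ range κ := by
    intro x hx
    apply hδV
    rw [Metric.mem_ball]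
    have : dist x 0 = δ / 2 := hx
    linarith
  have hS0 : ∀ x ∈ S, x ≠ 0 := by
    rintro x hx rfl
    have : dist (0 : E3) 0 = δ / 2 := hx
    rw [dist_self] at this
    linarith
  let v : E3 → E3 := fun x => κ'.symm (h (q x))
  have hv : ∀ x ∈ S, κ (v x) = h (q x) := by
    intro x hx
    rw [← hκ'f]
    exact κ'.right_inv (by rw [hκ't]; exact hSV x hx)
  have hvc : ContinuousOn v S := by
    apply κ'.continuousOn_symm.comp (h.continuous.comp hc).continuousOn
    intro x hx
    rw [hκ't]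
    exact hSV x hx
  have hv0 : ∀ x ∈ S, v x ≠ 0 := by
    intro x hx h0
    have h1 := hv x hx
    rw [h0, hκ0] at h1
    have h2 : q 0 = q x := h.injective h1
    rcases (hq _ _).mp h2 with h3 | h3
    · exact hS0 x hx h3.symm
    · apply hS0 x hx
      have : -x = 0 := h3.symm
      simpa using this
  have hGv : ∀ x ∈ S, G (v x) = x ∨ G (v x) = -x := by
    intro x hx
    rw [← hq]
    rw [hG (v x) (hv0 x hx), hv x hx]
    exact h.symm_apply_apply _
  let φ : E3 → ℝ := fun x => inner ℝ (G (v x)) x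
  have hφc : ContinuousOn φ S := by
    have h1 : ContinuousOn (fun x => G (v x)) S := by
      apply hGc.comp hvc
      intro x hx
      exact hv0 x hx
    exact ContinuousOn.inner (𝕜 := ℝ) h1 continuousOn_id
  have hφne : ∀ x ∈ S, φ x ≠ 0 := by
    intro x hx h0
    have hx0 := hS0 x hx
    rcases hGv x hx with h1 | h1
    · have : (inner ℝ (G (v x)) x : ℝ) = 0 := h0
      rw [h1] at this
      exact hx0 (inner_self_eq_zero.mp this)
    · have : (inner ℝ (G (v x)) x : ℝ) = 0 := h0
      rw [h1, inner_neg_left, neg_eq_zero] at this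
      exact hx0 (inner_self_eq_zero.mp this)
  have hφodd : ∀ x, φ (-x) = -φ x := by
    intro x
    have h1 : v (-x) = v x := by
      show κ'.symm (h (q (-x))) = κ'.symm (h (q x))
      have : q (-x) = q x := (hq _ _).mpr (Or.inr rfl)
      rw [this]
    show (inner ℝ (G (v (-x))) (-x) : ℝ) = - inner ℝ (G (v x)) x
    rw [h1, inner_neg_right]
  have hSconn : IsPreconnected S := by
    apply isPreconnected_sphere
    rw [← Module.finrank_eq_rank, finrank_euclideanSpace_fin]
    norm_num
  have hSneg : ∀ x ∈ S, -x ∈ S := by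
    intro x hx
    have h1 : dist x 0 = δ / 2 := hx
    show dist (-x) 0 = δ / 2
    rw [dist_zero_right, norm_neg, ← dist_zero_right, h1]
  obtain ⟨x₀, hx₀⟩ : S.Nonempty := NormedSpace.sphere_nonempty.mpr (by linarith)
  have : (0 : ℝ) ∈ φ '' S := by
    rcases le_total (φ x₀) 0 with h0 | h0
    · apply hSconn.intermediate_value hx₀ (hSneg x₀ hx₀) hφc
      rw [hφodd]
      exact ⟨h0, by linarith⟩
    · apply hSconn.intermediate_value (hSneg x₀ hx₀) hx₀ hφc
      rw [hφodd]
      exact ⟨by linarith, h0⟩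
  obtain ⟨x, hx, hx0⟩ := this
  exact hφne x hx hx0

end MP_c487e3_gt
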