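import Pool.Agent.Lib.MP_c487e3_gt.Core
import Pool.Agent.Lib.MP_c487e3_gt.LimitCore
import Pool.Agent.Lib.MP_c487e3_gt.CDQ
import Pool.Agent.Lib.MP_c487e3_gt.TopCone

/-!
# MP_c487e3_gt: assembly
-/

open MeasureTheory Set Filter
open scoped ENNReal Topology

namespace MP_c487e3_gt

theorem coreStatement : CoreStatement := by
  intro h hC lam hlam hconv Γ hΓ hcyc π hπp hπ μ₀ μ₁ hc h₀ h₁ t ht N' hN
  exact core h hC hlam hconv hΓ hcyc π hπ hc h₀ h₁ ht hN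

theorem cdBase : CDBase := by
  intro μ₀ μ₁ _ _ h₀ h₁ R hR₀ hR₁
  exact cd_base_of_core coreStatement μ₀ μ₁ h₀ h₁ hR₀ hR₁

/-- `ℝ³/{±1}` with the quotient `ℓ¹` metric and the image of the Lebesgue measure is `CD(0,3)`. -/
theorem cd_Q3 : CD0 mQ 3 := cd_Q3_of_base cdBase

theorem no_splitting_Q3 (Y : Type*) [TopologicalSpace Y] : IsEmpty (Q3 ≃ₜ Y × ℝ) :=
  no_splitting mk mk_continuous mk_isOpenMap mk_surjective (fun _ _ => mk_eq_iff) Y

end MP_c487e3_gt
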