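import Pool.Agent.Lib.MP_c487e3_gt.Quot

/-!
# MP_c487e3_gt: lifting measures from `ℝ³/{±1}` to `ℝ³`
-/

open MeasureTheory Set Filter
open scoped ENNReal Topology NNReal

namespace MP_c487e3_gt

theorem lintegral_mQ {f : Q3 → ℝ≥0∞} (hf : Measurable f) :
    ∫⁻ q, f q ∂mQ = ∫⁻ x, f (mk x) := lintegral_map hf measurable_mk

/-- The image under `mk` of a measure with density `g ∘ mk`. -/
theorem map_withDensity_mk {g : Q3 → ℝ≥0∞} (hg : Measurable g) :
    ((volume : Measure E3).withDensity (fun x => g (mk x))).map mk = mQ.withDensity g := by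
  apply Measure.ext
  intro s hs
  rw [Measure.map_apply measurable_mk hs, withDensity_apply _ (measurable_mk hs),
    withDensity_apply _ hs, mQ, setLIntegral_map hs hg measurable_mk]

theorem lintegral_comp_neg (f : E3 → ℝ≥0∞) : ∫⁻ x, f (-x) = ∫⁻ x, f x :=
  (Measure.measurePreserving_neg (volume : Measure E3)).lintegral_comp_emb
    (MeasurableEquiv.neg E3).measurableEmbedding f

theorem setLIntegral_comp_neg (f : E3 → ℝ≥0∞) (s : Set E3) :
    ∫⁻ x in Neg.neg ⁻¹' s, f (-x) = ∫⁻ x in s, f x :=
  (Measure.measurePreserving_neg (volume : Measure E3)).setLIntegral_comp_preimage_emb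
    (MeasurableEquiv.neg E3).measurableEmbedding f s

/-- An absolutely continuous probability measure on `ℝ³/{±1}` lifts to an even measure with the
same Rényi entropies. -/
theorem exists_lift (μ : Measure Q3) [IsProbabilityMeasure μ] (hμ : μ ≪ mQ) :
    let μh := (volume : Measure E3).withDensity (fun x => μ.rnDeriv mQ (mk x))
    μh.map mk = μ ∧ μh.map Neg.neg = μh ∧ ∀ N : ℝ, renyi volume N μh = renyi mQ N μ := by
  intro μh
  have hm : Measurable (μ.rnDeriv mQ) := Measure.measurable_rnDeriv _ _
  refine ⟨?_, ?_, ?_⟩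
  · rw [map_withDensity_mk hm, Measure.withDensity_rnDeriv_eq _ _ hμ]
  · apply Measure.ext
    intro s hs
    rw [Measure.map_apply measurable_neg hs, withDensity_apply _ (measurable_neg hs),
      withDensity_apply _ hs, ← setLIntegral_comp_neg _ s]
    simp only [mk_neg]
  · intro N
    unfold renyi
    have h1 : μh.rnDeriv volume =ᵐ[volume] fun x => μ.rnDeriv mQ (mk x) :=
      Measure.rnDeriv_withDensity _ (hm.comp measurable_mk)
    rw [lintegral_mQ (hm.pow_const _)]
    apply lintegral_congr_ae
    filter_upwards [h1] with x hx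
    rw [hx]

theorem exists_lift_prob (μ : Measure Q3) [IsProbabilityMeasure μ] (hμ : μ ≪ mQ) :
    IsProbabilityMeasure
      ((volume : Measure E3).withDensity (fun x => μ.rnDeriv mQ (mk x))) := by
  have h := (exists_lift μ hμ).1
  constructor
  rw [← preimage_univ (f := mk), ← Measure.map_apply measurable_mk MeasurableSet.univ, h,
    measure_univ]

theorem rpow_mean {a b : ℝ≥0∞} {p : ℝ} (hp : 0 < p) (hp1 : p ≤ 1) :
    2⁻¹ * a ^ p + 2⁻¹ * b ^ p ≤ (2⁻¹ * (a + b)) ^ p := by
  have h := ENNReal.rpow_arith_mean_le_arith_mean2_rpow 2⁻¹ 2⁻¹ (a ^ p) (b ^ p)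
    ENNReal.inv_two_add_inv_two (p := 1 / p) (by rw [le_div_iff₀ hp]; linarith)
  rw [← ENNReal.rpow_mul, ← ENNReal.rpow_mul, mul_one_div_cancel hp.ne', ENNReal.rpow_one,
    ENNReal.rpow_one] at h
  have h2 := ENNReal.rpow_le_rpow h hp.le
  rw [← ENNReal.rpow_mul, one_div_mul_cancel hp.ne', ENNReal.rpow_one] at h2
  rwa [mul_add]

/-- The push-forward to `ℝ³/{±1}` does not decrease `∫ ρ^{1-1/N}`. -/
theorem renyi_push (k : Measure E3) [IsFiniteMeasure k] {N : ℝ} (hN : 1 < N) :
    renyi volume N k ≤ renyi mQ N (k.map mk) := by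
  have hN0 : 0 < N := by linarith
  have hp : 0 < 1 - 1 / N := by
    have : 1 / N < 1 := by rw [div_lt_one hN0]; exact hN
    linarith
  have hp1 : 1 - 1 / N ≤ 1 := by
    have : 0 < 1 / N := by positivity
    linarith
  set p : ℝ := 1 - 1 / N with hpdef
  set f : E3 → ℝ≥0∞ := k.rnDeriv volume with hf
  have hfm : Measurable f := Measure.measurable_rnDeriv _ _
  -- the even part of `f` and the function induced on the quotient
  set g : E3 → ℝ≥0∞ := fun x => 2⁻¹ * (f x + f (-x)) with hg
  have hgm : Measurable g := (hfm.add (hfm.comp measurable_neg)).const_mul _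
  set G : Q3 → ℝ≥0∞ := Quotient.lift g (by
    rintro x y (h | h)
    · rw [h]
    · simp only [hg, h, neg_neg]
      rw [add_comm]) with hG
  have hGg : ∀ x, G (mk x) = g x := fun x => rfl
  have hGm : Measurable G := by
    rw [← measurable_mk.measurable_comp_iff_of_surjective mk_surjective]
    exact hgm
  have hfin : ∫⁻ x, f x ≠ ∞ := by
    have h := Measure.lintegral_rnDeriv_lt_top k (volume : Measure E3)
    exact h.ne
  have hmap : ((volume : Measure E3).withDensity f).map mk = mQ.withDensity G := by
    rw [← map_withDensity_mk hGm]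
    apply Measure.ext
    intro s hs
    rw [Measure.map_apply measurable_mk hs, Measure.map_apply measurable_mk hs,
      withDensity_apply _ (measurable_mk hs), withDensity_apply _ (measurable_mk hs)]
    have hs' : Neg.neg ⁻¹' (mk ⁻¹' s) = mk ⁻¹' s := by
      ext x
      simp only [mem_preimage, mk_neg]
    have h1 := setLIntegral_comp_neg f (mk ⁻¹' s)
    rw [hs'] at h1
    simp only [hGg, hg]
    have hfn : Measurable fun x => f (-x) := hfm.comp measurable_neg
    have hfs : Measurable fun x => f x + f (-x) := hfm.add hfn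
    rw [lintegral_const_mul _ hfs, lintegral_add_left hfm, h1,
      mul_add, ← add_mul, ENNReal.inv_two_add_inv_two, one_mul]
  have hdec : k.map mk = (k.singularPart volume).map mk + mQ.withDensity G := by
    rw [← hmap, ← Measure.map_add _ _ measurable_mk]
    congr 1
    exact Measure.haveLebesgueDecomposition_add k volume
  have hGfin : IsFiniteMeasure (mQ.withDensity G) := by
    rw [← hmap]
    have : IsFiniteMeasure ((volume : Measure E3).withDensity f) := isFiniteMeasure_withDensity hfin
    infer_instance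
  have hge : ∀ᵐ q ∂mQ, G q ≤ (k.map mk).rnDeriv mQ q := by
    have h1 := Measure.rnDeriv_add' ((k.singularPart volume).map mk) (mQ.withDensity G) mQ
    rw [← hdec] at h1
    have h2 := Measure.rnDeriv_withDensity mQ hGm
    filter_upwards [h1, h2] with q hq1 hq2
    rw [hq1, Pi.add_apply, hq2]
    exact le_add_self
  calc renyi volume N k = ∫⁻ x, f x ^ p := rfl
    _ = ∫⁻ x, (2⁻¹ * f x ^ p + 2⁻¹ * f (-x) ^ p) := by
        have hfp : Measurable fun x => f x ^ p := hfm.pow_const _
        have hfn : Measurable fun x => f (-x) ^ p := hfp.comp measurable_neg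
        rw [lintegral_add_left (hfp.const_mul _), lintegral_const_mul _ hfp,
          lintegral_const_mul _ hfn,
          lintegral_comp_neg (fun x => f x ^ p), ← add_mul, ENNReal.inv_two_add_inv_two, one_mul]
    _ ≤ ∫⁻ x, (G (mk x)) ^ p := lintegral_mono fun x => rpow_mean hp hp1
    _ = ∫⁻ q, G q ^ p ∂mQ := (lintegral_mQ (hGm.pow_const _)).symm
    _ ≤ renyi mQ N (k.map mk) := by
        unfold renyi
        apply lintegral_mono_ae
        filter_upwards [hge] with q hq
        exact ENNReal.rpow_le_rpow hq hp.le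

end MP_c487e3_gt
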