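import Pool.Agent.Lib.MP_c487e3_gt.CycMono

/-!
# MP_c487e3_gt: the metric measure space `ℝ³/{±1}` with the quotient `ℓ¹` metric
-/

open MeasureTheory Set Filter
open scoped ENNReal Topology NNReal

namespace MP_c487e3_gt

/-! ### The `ℓ¹` norm -/

theorem N1_zero : N1 (0 : E3) = 0 := by simp [N1]

theorem N1_neg (x : E3) : N1 (-x) = N1 x := by simp [N1]

theorem N1_sub_comm (x y : E3) : N1 (x - y) = N1 (y - x) := by
  rw [← neg_sub, N1_neg]

theorem N1_add_comm (x y : E3) : N1 (x + y) = N1 (y + x) := by rw [add_comm]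

theorem N1_add_le (x y : E3) : N1 (x + y) ≤ N1 x + N1 y := by
  unfold N1
  rw [← Finset.sum_add_distrib]
  exact Finset.sum_le_sum fun i _ => by simpa using abs_add_le (x i) (y i)

theorem N1_smul (c : ℝ) (x : E3) : N1 (c • x) = |c| * N1 x := by
  unfold N1
  rw [Finset.mul_sum]
  exact Finset.sum_congr rfl fun i _ => by simp [abs_mul]

theorem abs_le_N1 (x : E3) (i : Fin 3) : |x i| ≤ N1 x :=
  Finset.single_le_sum (f := fun i => |x i|) (fun j _ => abs_nonneg (x j)) (Finset.mem_univ i)

theorem N1_eq_zero {x : E3} (h : N1 x = 0) : x = 0 := by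
  ext i
  have h1 := abs_le_N1 x i
  rw [h] at h1
  simpa using abs_nonpos_iff.1 h1

theorem norm_le_N1 (x : E3) : ‖x‖ ≤ N1 x := by
  rw [EuclideanSpace.norm_eq]
  apply Real.sqrt_le_iff.2
  refine ⟨N1_nonneg x, ?_⟩
  unfold N1
  rw [Fin.sum_univ_three, Fin.sum_univ_three]
  simp only [Real.norm_eq_abs]
  have h0 := abs_nonneg (x 0)
  have h1 := abs_nonneg (x 1)
  have h2 := abs_nonneg (x 2)
  nlinarith [mul_nonneg h0 h1, mul_nonneg h0 h2, mul_nonneg h1 h2]

theorem N1_le_norm (x : E3) : N1 x ≤ 3 * ‖x‖ := by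
  unfold N1
  have h : ∀ i : Fin 3, |x i| ≤ ‖x‖ := fun i => by
    simpa using PiLp.norm_apply_le x i
  calc ∑ i, |x i| ≤ ∑ _i : Fin 3, ‖x‖ := Finset.sum_le_sum fun i _ => h i
    _ = 3 * ‖x‖ := by simp

theorem continuous_N1 : Continuous N1 := by
  unfold N1
  fun_prop

theorem isCompact_N1_le (x : E3) (r : ℝ) : IsCompact {y : E3 | N1 (x - y) ≤ r} := by
  apply (isCompact_closedBall x r).of_isClosed_subset
  · exact isClosed_le (continuous_N1.comp (continuous_const.sub continuous_id)) continuous_const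
  · intro y hy
    rw [Metric.mem_closedBall, dist_comm, dist_eq_norm]
    exact (norm_le_N1 _).trans hy

/-! ### The quotient `ℝ³/{±1}` -/

/-- The equivalence relation `x ~ ±x` on `ℝ³`. -/
def pmSetoid : Setoid E3 where
  r x y := x = y ∨ x = -y
  iseqv :=
    { refl := fun _ => Or.inl rfl
      symm := by
        rintro x y (h | h)
        · exact Or.inl h.symm
        · exact Or.inr (by rw [h, neg_neg])
      trans := by
        rintro x y z (h | h) (h' | h')
        · exact Or.inl (h.trans h')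
        · exact Or.inr (h.trans h')
        · exact Or.inr (by rw [h, h'])
        · exact Or.inl (by rw [h, h', neg_neg]) }

/-- The quotient `ℝ³/{±1}`. -/
def Q3 : Type := Quotient pmSetoid

/-- The projection `ℝ³ → ℝ³/{±1}`. -/
def mk (x : E3) : Q3 := Quotient.mk pmSetoid x

theorem mk_surjective : Function.Surjective mk := Quotient.mk_surjective

theorem mk_eq_iff {x y : E3} : mk x = mk y ↔ x = y ∨ x = -y :=
  Quotient.eq (r := pmSetoid)

theorem mk_neg (x : E3) : mk (-x) = mk x := mk_eq_iff.2 (Or.inr rfl)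

/-- The quotient `ℓ¹` distance on `ℝ³/{±1}`. -/
noncomputable def dQ : Q3 → Q3 → ℝ :=
  Quotient.lift₂ (fun x y => min (N1 (x - y)) (N1 (x + y))) (by
    rintro x y x' y' (h | h) (h' | h')
    · rw [h, h']
    · simp only [h, h', sub_neg_eq_add, ← sub_eq_add_neg]
      exact min_comm _ _
    · simp only [h, h']
      rw [show -x' - y' = -(x' + y') by abel, show -x' + y' = -(x' - y') by abel, N1_neg, N1_neg]
      exact min_comm _ _
    · simp only [h, h']
      rw [show -x' - -y' = -(x' - y') by abel, show -x' + -y' = -(x' + y') by abel, N1_neg,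
        N1_neg])

theorem dQ_mk (x y : E3) : dQ (mk x) (mk y) = min (N1 (x - y)) (N1 (x + y)) := rfl

noncomputable instance : MetricSpace Q3 where
  dist := dQ
  dist_self := by
    intro p
    obtain ⟨x, rfl⟩ := mk_surjective p
    show dQ (mk x) (mk x) = 0
    rw [dQ_mk, sub_self, N1_zero]
    exact min_eq_left (N1_nonneg _)
  dist_comm := by
    intro p q
    obtain ⟨x, rfl⟩ := mk_surjective p
    obtain ⟨y, rfl⟩ := mk_surjective q
    show dQ (mk x) (mk y) = dQ (mk y) (mk x)
    rw [dQ_mk, dQ_mk, N1_sub_comm, N1_add_comm]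
  dist_triangle := by
    intro p q r
    obtain ⟨x, rfl⟩ := mk_surjective p
    obtain ⟨y, rfl⟩ := mk_surjective q
    obtain ⟨z, rfl⟩ := mk_surjective r
    show dQ (mk x) (mk z) ≤ dQ (mk x) (mk y) + dQ (mk y) (mk z)
    rw [dQ_mk, dQ_mk, dQ_mk]
    rcases min_choice (N1 (x - y)) (N1 (x + y)) with h1 | h1 <;>
      rcases min_choice (N1 (y - z)) (N1 (y + z)) with h2 | h2 <;> rw [h1, h2]
    · refine (min_le_left _ _).trans ?_
      rw [show x - z = (x - y) + (y - z) by abel]
      exact N1_add_le _ _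
    · refine (min_le_right _ _).trans ?_
      rw [show x + z = (x - y) + (y + z) by abel]
      exact N1_add_le _ _
    · refine (min_le_right _ _).trans ?_
      rw [show x + z = (x + y) + -(y - z) by abel, ← N1_neg (y - z)]
      exact N1_add_le _ _
    · refine (min_le_left _ _).trans ?_
      rw [show x - z = (x + y) + -(y + z) by abel, ← N1_neg (y + z)]
      exact N1_add_le _ _
  eq_of_dist_eq_zero := by
    intro p q
    obtain ⟨x, rfl⟩ := mk_surjective p
    obtain ⟨y, rfl⟩ := mk_surjective q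
    intro h
    have h' : dQ (mk x) (mk y) = 0 := h
    rw [dQ_mk] at h'
    rw [mk_eq_iff]
    rcases min_choice (N1 (x - y)) (N1 (x + y)) with h1 | h1
    · exact Or.inl (sub_eq_zero.1 (N1_eq_zero (h1.symm.trans h')))
    · exact Or.inr (eq_neg_of_add_eq_zero_left (N1_eq_zero (h1.symm.trans h')))

theorem dist_mk (x y : E3) : dist (mk x) (mk y) = min (N1 (x - y)) (N1 (x + y)) := rfl

theorem dist_mk_le (x y : E3) : dist (mk x) (mk y) ≤ N1 (x - y) := min_le_left _ _

theorem dist_mk_zero (x : E3) : dist (mk x) (mk 0) = N1 x := by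
  rw [dist_mk, sub_zero, add_zero, min_self]

theorem edist_mk (x y : E3) :
    edist (mk x) (mk y) = ENNReal.ofReal (min (N1 (x - y)) (N1 (x + y))) := by
  rw [edist_dist, dist_mk]

theorem edist_mk_le (x y : E3) : edist (mk x) (mk y) ≤ ENNReal.ofReal (N1 (x - y)) := by
  rw [edist_dist]
  exact ENNReal.ofReal_le_ofReal (dist_mk_le x y)

/-- Every pair of points has representatives realizing the distance. -/
theorem exists_rep_dist (x : E3) (q : Q3) : ∃ y : E3, mk y = q ∧ dist (mk x) q = N1 (x - y) := by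
  obtain ⟨y, rfl⟩ := mk_surjective q
  rcases min_choice (N1 (x - y)) (N1 (x + y)) with h | h
  · exact ⟨y, rfl, by rw [dist_mk, h]⟩
  · exact ⟨-y, mk_neg y, by rw [dist_mk, h, sub_neg_eq_add]⟩

theorem mk_lipschitz : LipschitzWith 3 mk := by
  apply LipschitzWith.of_dist_le_mul
  intro x y
  refine (dist_mk_le x y).trans ?_
  rw [dist_eq_norm]
  exact N1_le_norm _

theorem mk_continuous : Continuous mk := mk_lipschitz.continuous

theorem mk_isOpenMap : IsOpenMap mk := by
  intro U hU
  rw [Metric.isOpen_iff]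
  rintro _ ⟨x, hx, rfl⟩
  obtain ⟨r, hr, hrU⟩ := Metric.isOpen_iff.1 hU x hx
  refine ⟨r, hr, ?_⟩
  intro q hq
  obtain ⟨y, rfl, hy⟩ := exists_rep_dist x q
  refine ⟨y, hrU ?_, rfl⟩
  rw [Metric.mem_ball, dist_comm, dist_eq_norm]
  rw [Metric.mem_ball, dist_comm, hy] at hq
  exact (norm_le_N1 _).trans_lt hq

theorem closedBall_mk (x : E3) (r : ℝ) :
    Metric.closedBall (mk x) r = mk '' {y | N1 (x - y) ≤ r} := by
  ext q
  rw [Metric.mem_closedBall, dist_comm]
  constructor
  · intro hq
    obtain ⟨y, rfl, hy⟩ := exists_rep_dist x q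
    exact ⟨y, by rw [mem_ofPred_eq, ← hy]; exact hq, rfl⟩
  · rintro ⟨y, hy, rfl⟩
    exact (dist_mk_le x y).trans hy

theorem preimage_closedBall_zero (r : ℝ) :
    mk ⁻¹' Metric.closedBall (mk 0) r = {y | N1 y ≤ r} := by
  ext y
  rw [mem_preimage, Metric.mem_closedBall, dist_mk_zero, mem_ofPred_eq]

instance : ProperSpace Q3 := by
  constructor
  intro q r
  obtain ⟨x, rfl⟩ := mk_surjective q
  rw [closedBall_mk]
  exact (isCompact_N1_le x r).image mk_continuous

noncomputable instance : MeasurableSpace Q3 := borel Q3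

instance : BorelSpace Q3 := ⟨rfl⟩

theorem measurable_mk : Measurable mk := mk_continuous.measurable

/-- The measure on `ℝ³/{±1}`: the image of the Lebesgue measure. -/
noncomputable def mQ : Measure Q3 := (volume : Measure E3).map mk

theorem mQ_apply {s : Set Q3} (hs : MeasurableSet s) : mQ s = volume (mk ⁻¹' s) :=
  Measure.map_apply measurable_mk hs

theorem isCompact_preimage {K : Set Q3} (hK : IsCompact K) : IsCompact (mk ⁻¹' K) := by
  obtain ⟨r, hr⟩ := hK.isBounded.subset_closedBall (mk 0)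
  apply (isCompact_N1_le 0 r).of_isClosed_subset (hK.isClosed.preimage mk_continuous)
  intro y hy
  have h := hr hy
  rw [Metric.mem_closedBall, dist_mk_zero] at h
  rw [mem_ofPred_eq, zero_sub, N1_neg]
  exact h

instance : IsLocallyFiniteMeasure mQ := by
  constructor
  intro q
  refine ⟨Metric.closedBall q 1, Metric.closedBall_mem_nhds q one_pos, ?_⟩
  rw [mQ_apply Metric.isClosed_closedBall.measurableSet]
  exact (isCompact_preimage (isCompact_closedBall q 1)).measure_lt_top

theorem mQ_fullSupport (U : Set Q3) (hU : IsOpen U) (hne : U.Nonempty) : mQ U ≠ 0 := by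
  rw [mQ_apply hU.measurableSet]
  obtain ⟨q, hq⟩ := hne
  obtain ⟨x, rfl⟩ := mk_surjective q
  exact (hU.preimage mk_continuous).measure_ne_zero volume ⟨x, hq⟩

theorem geodesic_Q3 (p q : Q3) : ∃ γ : ℝ → Q3, γ 0 = p ∧ γ 1 = q ∧
    ∀ s ∈ Icc (0 : ℝ) 1, ∀ t ∈ Icc (0 : ℝ) 1, dist (γ s) (γ t) = |s - t| * dist p q := by
  obtain ⟨x, rfl⟩ := mk_surjective p
  obtain ⟨y, rfl, hy⟩ := exists_rep_dist x q
  set D := dist (mk x) (mk y) with hD
  set γ : ℝ → Q3 := fun t => mk ((1 - t) • x + t • y) with hγ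
  have h0 : γ 0 = mk x := by simp [hγ]
  have h1 : γ 1 = mk y := by simp [hγ]
  have hle : ∀ s t : ℝ, dist (γ s) (γ t) ≤ |s - t| * D := by
    intro s t
    refine (dist_mk_le _ _).trans ?_
    rw [show (1 - s) • x + s • y - ((1 - t) • x + t • y) = (t - s) • (x - y) by module,
      N1_smul, ← hy, abs_sub_comm]
  refine ⟨γ, h0, h1, ?_⟩
  have key : ∀ s ∈ Icc (0 : ℝ) 1, ∀ t ∈ Icc (0 : ℝ) 1, s ≤ t →
      dist (γ s) (γ t) = |s - t| * D := by
    intro s hs t ht hst
    apply le_antisymm (hle s t)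
    have h2 := dist_triangle4 (γ 0) (γ s) (γ t) (γ 1)
    have h3 := hle 0 s
    have h4 := hle t 1
    rw [h0, h1] at h2
    rw [h0] at h3
    rw [h1] at h4
    rw [abs_of_nonpos (by linarith [hs.1] : (0 : ℝ) - s ≤ 0)] at h3
    rw [abs_of_nonpos (by linarith [ht.2] : t - 1 ≤ 0)] at h4
    rw [abs_of_nonpos (by linarith : s - t ≤ 0)]
    rw [← hD] at h2
    nlinarith
  intro s hs t ht
  rcases le_total s t with hst | hst
  · exact key s hs t ht hst
  · rw [dist_comm, abs_sub_comm]
    exact key t ht s hs hst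

/-- `ℝ³/{±1}` with the quotient `ℓ¹` metric and the image of the Lebesgue measure is a metric
measure space. -/
theorem isMMSpace : IsMMSpace Q3 mQ where
  borel := inferInstance
  complete := inferInstance
  separable := inferInstance
  locallyCompact := inferInstance
  geodesic := geodesic_Q3
  locallyFinite := inferInstance
  fullSupport := mQ_fullSupport

/-- `ℝ³/{±1}` with the quotient `ℓ¹` metric contains a line (through the apex). -/
theorem containsLine : ContainsLine Q3 := by
  classical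
  refine ⟨fun s => if 0 ≤ s then mk (!₂[s, 0, 0]) else mk (!₂[0, -s, 0]), ?_⟩
  intro s t
  have hN : ∀ a b c : ℝ, N1 (!₂[a, b, c] : E3) = |a| + |b| + |c| := by
    intro a b c
    unfold N1
    rw [Fin.sum_univ_three]
    rfl
  have hsub : ∀ a b c a' b' c' : ℝ, (!₂[a, b, c] : E3) - !₂[a', b', c'] =
      !₂[a - a', b - b', c - c'] := by
    intro a b c a' b' c'
    ext i
    fin_cases i <;> rfl
  have hadd : ∀ a b c a' b' c' : ℝ, (!₂[a, b, c] : E3) + !₂[a', b', c'] =
      !₂[a + a', b + b', c + c'] := by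
    intro a b c a' b' c'
    ext i
    fin_cases i <;> rfl
  by_cases hs : 0 ≤ s <;> by_cases ht : 0 ≤ t <;>
    simp only [hs, ht, if_true, if_false, dist_mk, hsub, hadd, hN, sub_zero, zero_sub, add_zero,
      zero_add, abs_zero, abs_neg, neg_neg]
  · rw [min_eq_left]
    rw [abs_of_nonneg (by linarith : 0 ≤ s + t)]
    exact abs_sub_le_iff.2 ⟨by linarith, by linarith⟩
  · rw [min_self, abs_of_nonneg hs, abs_of_neg (not_le.1 ht),
      abs_of_nonneg (by linarith : 0 ≤ s - t)]
    ring
  · rw [min_self, abs_of_nonneg ht, abs_of_neg (not_le.1 hs),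
      abs_of_nonpos (by linarith : s - t ≤ 0)]
    ring
  · rw [show -s - -t = -(s - t) by ring, show -s + -t = -(s + t) by ring, abs_neg, abs_neg,
      min_eq_left]
    rw [abs_of_neg (by linarith : s + t < 0)]
    exact abs_sub_le_iff.2 ⟨by linarith, by linarith⟩

end MP_c487e3_gt
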