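import Pool.Agent.Lib.MP_c487e3_gt.CycMono

/-!
# MP_c487e3_gt: smooth strongly convex costs approximating the square of the `ℓ¹` norm
-/

open MeasureTheory Set Filter
open scoped ENNReal Topology

namespace MP_c487e3_gt

/-- The smooth cost `(∑ √(a_i² + e²))² + e |a|²`. -/
noncomputable def hcost (e : ℝ) (a : E3) : ℝ :=
  (∑ i, Real.sqrt ((a i) ^ 2 + e ^ 2)) ^ 2 + e * ‖a‖ ^ 2

theorem hcost_contDiff {e : ℝ} (he : 0 < e) {n : WithTop ℕ∞} : ContDiff ℝ n (hcost e) := by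
  unfold hcost
  apply ContDiff.add
  · apply ContDiff.pow
    apply ContDiff.sum
    intro i _
    apply ContDiff.sqrt
    · apply ContDiff.add _ contDiff_const
      apply ContDiff.pow
      exact (EuclideanSpace.proj (𝕜 := ℝ) i).contDiff
    · intro x
      positivity
  · exact contDiff_const.mul (contDiff_norm_sq ℝ)

theorem hcost_continuous (e : ℝ) : Continuous (hcost e) := by
  unfold hcost
  fun_prop

theorem convexOn_sqrt_sq_add (e : ℝ) :
    ConvexOn ℝ univ (fun x : ℝ => Real.sqrt (x ^ 2 + e ^ 2)) := by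
  refine ⟨convex_univ, fun x _ y _ s t hs ht _hst => ?_⟩
  have h1 : ∀ u : ℝ, Real.sqrt (u ^ 2 + e ^ 2) = ‖(⟨u, e⟩ : ℂ)‖ := by
    intro u
    rw [Complex.norm_def, Complex.normSq_mk]
    congr 1
    ring
  simp only [smul_eq_mul]
  rw [h1, h1, h1]
  have h2 : (⟨s * x + t * y, e⟩ : ℂ) = (s : ℂ) * ⟨x, e⟩ + (t : ℂ) * ⟨y, e⟩ := by
    apply Complex.ext
    · simp
    · simp
      rw [← add_mul, _hst, one_mul]
  rw [h2]
  refine (norm_add_le _ _).trans (le_of_eq ?_)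
  rw [norm_mul, norm_mul, Complex.norm_real, Complex.norm_real, Real.norm_of_nonneg hs,
    Real.norm_of_nonneg ht]

theorem hcost_strongConvex {e : ℝ} (he : 0 < e) : StrongConvexOn univ e (hcost e) := by
  rw [strongConvexOn_iff_convex]
  have h1 : ConvexOn ℝ univ (fun a : E3 => ∑ i, Real.sqrt ((a i) ^ 2 + e ^ 2)) := by
    have h2 : ∀ i : Fin 3, ConvexOn ℝ univ (fun a : E3 => Real.sqrt ((a i) ^ 2 + e ^ 2)) := by
      intro i
      exact (convexOn_sqrt_sq_add e).comp_linearMap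
        (EuclideanSpace.proj (𝕜 := ℝ) i : E3 →L[ℝ] ℝ).toLinearMap
    have h3 := ((h2 0).add (h2 1)).add (h2 2)
    refine h3.congr ?_
    intro a _
    simp only [Pi.add_apply, Fin.sum_univ_three]
  have h4 : ConvexOn ℝ univ (fun a : E3 => (∑ i, Real.sqrt ((a i) ^ 2 + e ^ 2)) ^ 2) :=
    h1.pow (fun x _ => Finset.sum_nonneg fun i _ => Real.sqrt_nonneg _) 2
  have h5 : ConvexOn ℝ univ (fun a : E3 => ‖a‖ ^ 2) := convexOn_univ_norm.pow
    (fun x _ => norm_nonneg _) 2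
  have h6 : ConvexOn ℝ univ (fun a : E3 => (e / 2) • ‖a‖ ^ 2) := h5.smul (by positivity)
  refine (h4.add h6).congr ?_
  intro a _
  simp only [Pi.add_apply, smul_eq_mul]
  unfold hcost
  ring

theorem N1_le (a : E3) : N1 a ≤ 3 * ‖a‖ := by
  unfold N1
  have h : ∀ i ∈ (Finset.univ : Finset (Fin 3)), |a i| ≤ ‖a‖ := by
    intro i _
    have := EuclideanSpace.norm_eq a
    rw [this]
    apply Real.le_sqrt_of_sq_le
    have h2 : ‖a i‖ ^ 2 ≤ ∑ j, ‖a j‖ ^ 2 :=
      Finset.single_le_sum (f := fun j => ‖a j‖ ^ 2) (fun j _ => by positivity)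
        (Finset.mem_univ i)
    simpa using h2
  refine (Finset.sum_le_card_nsmul _ _ _ h).trans (le_of_eq ?_)
  simp

theorem hcost_close {e : ℝ} (he : 0 < e) (he1 : e ≤ 1) {R : ℝ} {a : E3}
    (ha : ‖a‖ ≤ 2 * R) :
    |hcost e a - N1 a ^ 2| ≤ e * (36 * R + 9 + 4 * R ^ 2) := by
  have hR : 0 ≤ R := by have := norm_nonneg a; linarith
  set S := ∑ i, Real.sqrt ((a i) ^ 2 + e ^ 2) with hS
  have h1 : N1 a ≤ S := by
    refine Finset.sum_le_sum fun i _ => ?_
    apply Real.le_sqrt_of_sq_le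
    rw [sq_abs]
    have : 0 ≤ e ^ 2 := by positivity
    linarith
  have h2 : S ≤ N1 a + 3 * e := by
    have h3 : ∀ i ∈ (Finset.univ : Finset (Fin 3)), Real.sqrt ((a i) ^ 2 + e ^ 2) ≤ |a i| + e := by
      intro i _
      rw [Real.sqrt_le_left (by positivity)]
      have := sq_abs (a i)
      nlinarith [abs_nonneg (a i)]
    refine (Finset.sum_le_sum h3).trans (le_of_eq ?_)
    rw [Finset.sum_add_distrib]
    unfold N1
    simp
  have h4 := N1_nonneg a
  have h5 := N1_le a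
  have h6 : ‖a‖ ^ 2 ≤ 4 * R ^ 2 := by
    have := norm_nonneg a
    nlinarith
  have h7 : 0 ≤ ‖a‖ ^ 2 := by positivity
  have h8 : N1 a ≤ 6 * R := by linarith
  have h9 : hcost e a = S ^ 2 + e * ‖a‖ ^ 2 := rfl
  rw [h9, abs_le]
  constructor
  · have : N1 a ^ 2 ≤ S ^ 2 := by nlinarith
    have : 0 ≤ e * ‖a‖ ^ 2 := by positivity
    have : 0 ≤ e * (36 * R + 9 + 4 * R ^ 2) := by positivity
    linarith
  · have h10 : S ^ 2 ≤ (N1 a + 3 * e) ^ 2 := by
      apply pow_le_pow_left₀ (by linarith) h2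
    have h11 : (N1 a + 3 * e) ^ 2 - N1 a ^ 2 ≤ e * (36 * R + 9) := by nlinarith
    have h12 : e * ‖a‖ ^ 2 ≤ e * (4 * R ^ 2) := by gcongr
    nlinarith

end MP_c487e3_gt
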