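import Mathlib

/-!
# MP_c487e3_gt: a cyclically monotone bilinear form is symmetric and positive semidefinite
-/

open Set Filter
open scoped Topology

namespace MP_c487e3_gt

section Sym

variable {V : Type*} [AddCommGroup V] [Module ℝ V]

/-- Cyclic monotonicity along closed sequences. -/
theorem cyc_seq (B : V →ₗ[ℝ] V →ₗ[ℝ] ℝ)
    (hB : ∀ (n : ℕ) (v : Fin n → V) (σ : Equiv.Perm (Fin n)), 0 ≤ ∑ i, B (v i) (v i - v (σ i)))
    (N : ℕ) (P : ℕ → V) (hP : P N = P 0) :
    0 ≤ ∑ j ∈ Finset.range N, B (P j) (P j - P (j + 1)) := by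
  rcases N with _ | N
  · simp
  rw [Finset.sum_range]
  have h := hB (N + 1) (fun i => P i) (finRotate (N + 1))
  refine h.trans (le_of_eq ?_)
  refine Finset.sum_congr rfl fun i _ => ?_
  congr 2
  rcases Fin.eq_castSucc_or_eq_last i with ⟨j, rfl⟩ | rfl
  · rw [finRotate_of_lt (by simp)]
  · rw [finRotate_last]
    simp [hP]

theorem psd_of_cyc (B : V →ₗ[ℝ] V →ₗ[ℝ] ℝ)
    (hB : ∀ (n : ℕ) (v : Fin n → V) (σ : Equiv.Perm (Fin n)), 0 ≤ ∑ i, B (v i) (v i - v (σ i)))
    (v : V) : 0 ≤ B v v := by
  have h := cyc_seq B hB 2 (fun j => if j = 1 then v else 0) (by simp)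
  simpa [Finset.sum_range_succ] using h

theorem sum_range_cast (m : ℕ) : ∑ r ∈ Finset.range m, (r : ℝ) = m * (m - 1) / 2 := by
  induction m with
  | zero => simp
  | succ m ih =>
    rw [Finset.sum_range_succ, ih]
    push_cast
    ring

theorem symm_aux (B : V →ₗ[ℝ] V →ₗ[ℝ] ℝ)
    (hB : ∀ (n : ℕ) (v : Fin n → V) (σ : Equiv.Perm (Fin n)), 0 ≤ ∑ i, B (v i) (v i - v (σ i)))
    (v w : V) : B v w ≤ B w v := by
  -- the polygon `0 → v → w → 0`, each edge subdivided into `m` parts
  have key : ∀ m : ℕ, 0 < m →
      0 ≤ (B w v - B v w) + (1 / (m : ℝ)) * (B v v - B v w - B w v + B w w + B v v + B w w) / 1 := by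
    intro m hm
    have hm' : (m : ℝ) ≠ 0 := by exact_mod_cast hm.ne'
    set P : ℕ → V := fun j =>
      if j ≤ m then ((j : ℝ) / m) • v
      else if j ≤ m + m then v + (((j : ℝ) - m) / m) • (w - v)
      else w - (((j : ℝ) - m - m) / m) • w with hPdef
    have P1 : ∀ r, r ≤ m → P r = ((r : ℝ) / m) • v := by
      intro r hr
      simp [hPdef, hr]
    have P2 : ∀ r, r ≤ m → P (m + r) = v + ((r : ℝ) / m) • (w - v) := by
      intro r hr
      rcases Nat.eq_zero_or_pos r with rfl | hr0
      · simp [hPdef, hm']
      · simp only [hPdef]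
        rw [if_neg (by omega), if_pos (by omega)]
        push_cast
        congr 3
        ring
    have P3 : ∀ r, r ≤ m → P (m + m + r) = w - ((r : ℝ) / m) • w := by
      intro r hr
      rcases Nat.eq_zero_or_pos r with rfl | hr0
      · simp only [hPdef]
        rw [if_neg (by omega), if_pos (by omega)]
        have : (((m + m + 0 : ℕ) : ℝ) - m) / m = 1 := by
          push_cast
          field_simp
          ring
        rw [this]
        simp
      · simp only [hPdef]
        rw [if_neg (by omega), if_neg (by omega)]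
        push_cast
        congr 3
        ring
    have hclosed : P (m + m + m) = P 0 := by
      rw [P3 m le_rfl, P1 0 (Nat.zero_le _)]
      simp [hm']
    have h := cyc_seq B hB (m + m + m) P hclosed
    rw [Finset.sum_range_add, Finset.sum_range_add] at h
    have S1 : ∑ x ∈ Finset.range m, B (P x) (P x - P (x + 1))
        = - (((m : ℝ) - 1) / (2 * m)) * B v v := by
      have : ∀ x ∈ Finset.range m, B (P x) (P x - P (x + 1)) = (x : ℝ) * (-(1 / m ^ 2) * B v v) := by
        intro x hx
        have hx' := Finset.mem_range.mp hx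
        rw [P1 x hx'.le, P1 (x + 1) hx']
        push_cast
        simp only [map_sub, map_smul, LinearMap.smul_apply, smul_eq_mul]
        field_simp
        ring
      rw [Finset.sum_congr rfl this, ← Finset.sum_mul, sum_range_cast]
      field_simp
    have S2 : ∑ x ∈ Finset.range m, B (P (m + x)) (P (m + x) - P (m + x + 1))
        = - B v (w - v) - (((m : ℝ) - 1) / (2 * m)) * B (w - v) (w - v) := by
      have : ∀ x ∈ Finset.range m, B (P (m + x)) (P (m + x) - P (m + x + 1))
          = -(1 / m) * B v (w - v) + (x : ℝ) * (-(1 / m ^ 2) * B (w - v) (w - v)) := by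
        intro x hx
        have hx' := Finset.mem_range.mp hx
        rw [P2 x hx'.le, add_assoc m x 1, P2 (x + 1) hx']
        have hd : v + ((x : ℝ) / m) • (w - v) - (v + (((x + 1 : ℕ) : ℝ) / m) • (w - v))
            = (-(1 / m) : ℝ) • (w - v) := by
          rw [add_sub_add_left_eq_sub, ← sub_smul]
          congr 1
          push_cast
          field_simp
          ring
        rw [hd]
        simp only [map_add, map_smul, LinearMap.add_apply, LinearMap.smul_apply, smul_eq_mul]
        field_simp
        ring
      rw [Finset.sum_congr rfl this, Finset.sum_add_distrib, Finset.sum_const, ← Finset.sum_mul,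
        sum_range_cast, Finset.card_range, nsmul_eq_mul]
      field_simp
      ring
    have S3 : ∑ x ∈ Finset.range m, B (P (m + m + x)) (P (m + m + x) - P (m + m + x + 1))
        = (((m : ℝ) + 1) / (2 * m)) * B w w := by
      have : ∀ x ∈ Finset.range m, B (P (m + m + x)) (P (m + m + x) - P (m + m + x + 1))
          = (1 / m) * B w w + (x : ℝ) * (-(1 / m ^ 2) * B w w) := by
        intro x hx
        have hx' := Finset.mem_range.mp hx
        rw [P3 x hx'.le, add_assoc (m + m) x 1, P3 (x + 1) hx']
        have hd : w - ((x : ℝ) / m) • w - (w - (((x + 1 : ℕ) : ℝ) / m) • w)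
            = (1 / m : ℝ) • w := by
          rw [sub_sub_sub_cancel_left, ← sub_smul]
          congr 1
          push_cast
          field_simp
          ring
        rw [hd]
        simp only [map_sub, map_smul, LinearMap.sub_apply, LinearMap.smul_apply, smul_eq_mul]
        field_simp
        ring
      rw [Finset.sum_congr rfl this, Finset.sum_add_distrib, Finset.sum_const, ← Finset.sum_mul,
        sum_range_cast, Finset.card_range, nsmul_eq_mul]
      field_simp
      ring
    rw [S1, S2, S3] at h
    simp only [map_sub, LinearMap.sub_apply] at h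
    have h2 : 0 ≤ 2 * (-(((m : ℝ) - 1) / (2 * m)) * B v v +
        (-(B v w - B v v) - ((m : ℝ) - 1) / (2 * m) * (B w w - B v w - (B w v - B v v))) +
        ((m : ℝ) + 1) / (2 * m) * B w w) := by
      linarith
    refine h2.trans (le_of_eq ?_)
    field_simp
    ring
  by_contra hcon
  push Not at hcon
  set C := (B v v - B v w - B w v + B w w + B v v + B w w) with hC
  obtain ⟨m, hm⟩ := exists_nat_gt (|C| / (B v w - B w v) + 1)
  have hpos : 0 < B v w - B w v := by linarith
  have hm0 : (0 : ℝ) < m := by
    have : 0 ≤ |C| / (B v w - B w v) := by positivity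
    linarith
  have hk := key m (by exact_mod_cast hm0)
  have h3 : (1 / (m : ℝ)) * C / 1 < B v w - B w v := by
    rw [div_one, one_div, inv_mul_lt_iff₀ hm0]
    have : |C| / (B v w - B w v) < m := by linarith
    rw [div_lt_iff₀ hpos] at this
    exact lt_of_le_of_lt (le_abs_self C) this
  linarith

/-- A cyclically monotone bilinear form is symmetric. -/
theorem symm_of_cyc (B : V →ₗ[ℝ] V →ₗ[ℝ] ℝ)
    (hB : ∀ (n : ℕ) (v : Fin n → V) (σ : Equiv.Perm (Fin n)), 0 ≤ ∑ i, B (v i) (v i - v (σ i)))
    (v w : V) : B v w = B w v :=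
  le_antisymm (symm_aux B hB v w) (symm_aux B hB w v)

end Sym

end MP_c487e3_gt
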