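import Mathlib

/-!
# MP_c487e3_gt: second order expansions
-/

open Set Filter Asymptotics
open scoped Topology

namespace MP_c487e3_gt

section Taylor

variable {E : Type*} [NormedAddCommGroup E] [NormedSpace ℝ E]

/-- The second derivative of `h` at `a`. -/
noncomputable abbrev Hess (h : E → ℝ) (a : E) : E →L[ℝ] E →L[ℝ] ℝ := fderiv ℝ (fderiv ℝ h) a

theorem hess_symm {h : E → ℝ} (hC : ContDiff ℝ 2 h) (a v w : E) :
    Hess h a v w = Hess h a w v := by
  have : IsSymmSndFDerivAt ℝ h a :=
    (hC.contDiffAt).isSymmSndFDerivAt (by simp)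
  exact this v w

theorem differentiable_fderiv {h : E → ℝ} (hC : ContDiff ℝ 2 h) :
    Differentiable ℝ (fderiv ℝ h) :=
  (hC.fderiv_right (m := 1) (by norm_num)).differentiable (by norm_num)

/-- Second order Taylor expansion. -/
theorem taylor_two {h : E → ℝ} (hC : ContDiff ℝ 2 h) (a : E) :
    (fun x => h x - h a - fderiv ℝ h a (x - a) - (1 / 2) * Hess h a (x - a) (x - a))
      =o[𝓝 a] fun x => ‖x - a‖ ^ 2 := by
  set f : E → ℝ := fun x => h x - fderiv ℝ h a (x - a) - (1 / 2) * Hess h a (x - a) (x - a)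
    with hf
  set f' : E → E →L[ℝ] ℝ := fun x => fderiv ℝ h x - fderiv ℝ h a - Hess h a (x - a) with hf'
  have hdiff : ∀ x, HasFDerivAt f (f' x) x := by
    intro x
    have h1 : HasFDerivAt h (fderiv ℝ h x) x :=
      ((hC.differentiable (by norm_num)) x).hasFDerivAt
    have hid : HasFDerivAt (fun x => x - a) (ContinuousLinearMap.id ℝ E) x :=
      (hasFDerivAt_id x).sub_const a
    have h2 : HasFDerivAt (fun x => fderiv ℝ h a (x - a)) (fderiv ℝ h a) x := by
      exact (fderiv ℝ h a).hasFDerivAt.comp x hid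
    have h3 : HasFDerivAt (fun x => Hess h a (x - a) (x - a))
        (2 • Hess h a (x - a)) x := by
      have h4 : HasFDerivAt (fun x => Hess h a (x - a)) (Hess h a) x := by
        exact (Hess h a).hasFDerivAt.comp x hid
      have := h4.clm_apply hid
      refine this.congr_fderiv ?_
      ext v
      have := hess_symm hC a v (x - a)
      simp only [map_sub, ContinuousLinearMap.add_apply, ContinuousLinearMap.comp_apply,
        ContinuousLinearMap.id_apply, ContinuousLinearMap.flip_apply, two_smul,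
        ContinuousLinearMap.sub_apply] at this ⊢
      linarith
    have := (h1.sub h2).sub (h3.const_mul (1 / 2))
    refine this.congr_fderiv ?_
    ext v
    simp [hf']
  have hlo : f' =o[𝓝[univ] a] fun x => ‖x - a‖ ^ 1 := by
    rw [nhdsWithin_univ]
    have h1 : HasFDerivAt (fderiv ℝ h) (Hess h a) a := (differentiable_fderiv hC a).hasFDerivAt
    have := h1.isLittleO
    simp only [pow_one]
    exact this.norm_right
  have := convex_univ.isLittleO_pow_succ (mem_univ a)
    (fun x _ => (hdiff x).hasFDerivWithinAt) hlo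
  rw [nhdsWithin_univ] at this
  refine this.congr' (Eventually.of_forall fun x => ?_) (Eventually.of_forall fun x => rfl)
  simp only [hf, sub_self, map_zero, mul_zero, sub_zero]
  ring

/-- Sequential form of the second order Taylor expansion. -/
theorem tendsto_taylor {ι : Type*} {l : Filter ι} {h : E → ℝ} (hC : ContDiff ℝ 2 h) (a : E)
    {s : ι → ℝ} {x : ι → E} {w : E} (hs0 : Tendsto s l (𝓝 0)) (hs : ∀ᶠ i in l, s i ≠ 0)
    (hx : Tendsto (fun i => (s i)⁻¹ • (x i - a)) l (𝓝 w)) :
    Tendsto (fun i => (h (x i) - h a - fderiv ℝ h a (x i - a)) / s i ^ 2) l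
      (𝓝 ((1 / 2) * Hess h a w w)) := by
  have hxa : Tendsto x l (𝓝 a) := by
    have h1 : Tendsto (fun i => s i • ((s i)⁻¹ • (x i - a))) l (𝓝 ((0 : ℝ) • w)) := hs0.smul hx
    rw [zero_smul] at h1
    have h2 : (fun i => s i • ((s i)⁻¹ • (x i - a))) =ᶠ[l] fun i => x i - a := by
      filter_upwards [hs] with i hi
      rw [smul_inv_smul₀ hi]
    have h3 := (h1.congr' h2).add_const a
    simpa using h3
  -- the error term
  have herr : Tendsto (fun i => (h (x i) - h a - fderiv ℝ h a (x i - a)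
      - (1 / 2) * Hess h a (x i - a) (x i - a)) / s i ^ 2) l (𝓝 0) := by
    have h1 := (taylor_two hC a).comp_tendsto hxa
    have h2 : (fun i => ‖x i - a‖ ^ 2) =O[l] fun i => s i ^ 2 := by
      have hb : ∀ᶠ i in l, ‖(s i)⁻¹ • (x i - a)‖ ≤ ‖w‖ + 1 :=
        (hx.norm.eventually (ge_mem_nhds (lt_add_one ‖w‖)))
      refine IsBigO.of_bound ((‖w‖ + 1) ^ 2) ?_
      filter_upwards [hb, hs] with i hi hsi
      rw [norm_smul, norm_inv] at hi
      have hpos : 0 < ‖s i‖ := norm_pos_iff.mpr hsi
      have : ‖x i - a‖ ≤ (‖w‖ + 1) * ‖s i‖ := by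
        rwa [inv_mul_le_iff₀ hpos, mul_comm] at hi
      rw [norm_pow, norm_norm, norm_pow]
      calc ‖x i - a‖ ^ 2 ≤ ((‖w‖ + 1) * ‖s i‖) ^ 2 := by gcongr
        _ = (‖w‖ + 1) ^ 2 * ‖s i‖ ^ 2 := by ring
    have h3 := h1.trans_isBigO h2
    exact h3.tendsto_div_nhds_zero
  have hmain : Tendsto (fun i => (1 / 2) * Hess h a ((s i)⁻¹ • (x i - a)) ((s i)⁻¹ • (x i - a))) l
      (𝓝 ((1 / 2) * Hess h a w w)) := by
    have hc : Continuous (fun v : E => (1 / 2 : ℝ) * Hess h a v v) := by fun_prop
    exact (hc.tendsto w).comp hx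
  have := hmain.add herr
  rw [add_zero] at this
  refine this.congr' ?_
  filter_upwards [hs] with i hi
  simp only [map_smul, smul_apply, smul_eq_mul]
  field_simp
  ring

/-- Strong convexity gives a lower bound for the second derivative. -/
theorem hess_lower {h : E → ℝ} (hC : ContDiff ℝ 2 h) {lam : ℝ}
    (hconv : ∀ x y : E, h ((1 / 2 : ℝ) • x + (1 / 2 : ℝ) • y) ≤
      (1 / 2) * h x + (1 / 2) * h y - (1 / 4) * (lam / 2) * ‖x - y‖ ^ 2) (a v : E) :
    lam * ‖v‖ ^ 2 ≤ Hess h a v v := by
  -- use `s = 1/(n+1)`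
  set s : ℕ → ℝ := fun n => 1 / ((n : ℝ) + 1) with hs
  have hs0 : Tendsto s atTop (𝓝 0) := tendsto_one_div_add_atTop_nhds_zero_nat
  have hsne : ∀ n, s n ≠ 0 := fun n => by
    have : (0 : ℝ) < (n : ℝ) + 1 := by positivity
    simp only [hs]
    positivity
  have h1 := tendsto_taylor hC a (x := fun n => a + s n • v) (w := v) hs0
    (Eventually.of_forall hsne) (by
      refine tendsto_const_nhds.congr fun n => ?_
      rw [add_sub_cancel_left, inv_smul_smul₀ (hsne n)])
  have h2 := tendsto_taylor hC a (x := fun n => a + s n • (-v)) (w := -v) hs0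
    (Eventually.of_forall hsne) (by
      refine tendsto_const_nhds.congr fun n => ?_
      rw [add_sub_cancel_left, inv_smul_smul₀ (hsne n)])
  have h3 := h1.add h2
  have hlim : 1 / 2 * (Hess h a v) v + 1 / 2 * (Hess h a (-v)) (-v) = Hess h a v v := by
    simp
    ring
  rw [hlim] at h3
  refine ge_of_tendsto' h3 fun n => ?_
  have hsn := hsne n
  have hc := hconv (a + s n • v) (a + s n • (-v))
  have hmid : (1 / 2 : ℝ) • (a + s n • v) + (1 / 2 : ℝ) • (a + s n • (-v)) = a := by
    rw [smul_neg]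
    module
  have hdist : ‖a + s n • v - (a + s n • (-v))‖ ^ 2 = 4 * (s n ^ 2 * ‖v‖ ^ 2) := by
    have : a + s n • v - (a + s n • (-v)) = (2 * s n) • v := by
      rw [smul_neg]
      module
    rw [this, norm_smul, mul_pow, Real.norm_eq_abs, sq_abs]
    ring
  rw [hmid, hdist] at hc
  rw [← add_div, le_div_iff₀ (by positivity)]
  simp only [add_sub_cancel_left, smul_neg, map_neg]
  simp only [smul_neg] at hc
  nlinarith

end Taylor

end MP_c487e3_gt
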