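import Pool.Agent.Lib.MP_c487e3_gt.CycMono
import Pool.Agent.Lib.MP_c487e3_gt.Taylor
import Pool.Agent.Lib.MP_c487e3_gt.Sym

/-!
# MP_c487e3_gt: the differential structure of a cyclically monotone set at density points
-/

open MeasureTheory Set Filter Metric
open scoped ENNReal Topology Pointwise

namespace MP_c487e3_gt

section Density

variable {E : Type*} [NormedAddCommGroup E] [NormedSpace ℝ E] [FiniteDimensional ℝ E]
  [MeasurableSpace E] [BorelSpace E] (μ : Measure E) [μ.IsAddHaarMeasure]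

/-- At almost every point of a compact set, every direction is tangent. -/
theorem ae_tangent {Z : Set E} (hZ : IsCompact Z) :
    ∀ᵐ z ∂(μ.restrict Z), ∀ v : E, ∃ w : ℝ → E, (∀ s, w s ∈ Z) ∧
      Tendsto (fun s : ℝ => s⁻¹ • (w s - z)) (𝓝[>] 0) (𝓝 v) := by
  filter_upwards [Besicovitch.ae_tendsto_measure_inter_div μ Z, ae_restrict_mem hZ.measurableSet]
    with z hz hzZ v
  choose w hw hw2 using fun s : ℝ => hZ.exists_infDist_eq_dist ⟨z, hzZ⟩ (z + s • v)
  refine ⟨w, hw, ?_⟩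
  rw [Metric.tendsto_nhds]
  intro ε hε
  have B₁ : ∀ᶠ r in 𝓝[>] (0 : ℝ), (Z ∩ ({z} + r • closedBall v (ε / 2))).Nonempty :=
    Measure.eventually_nonempty_inter_smul_of_density_one μ Z z hz _ measurableSet_closedBall
      (measure_closedBall_pos μ v (half_pos hε)).ne'
  filter_upwards [B₁, self_mem_nhdsWithin] with s hs hs0
  have hs0' : (0 : ℝ) < s := hs0
  obtain ⟨y, yZ, hy⟩ := hs
  obtain ⟨a, az, ya⟩ : ∃ a, a ∈ closedBall v (ε / 2) ∧ y = z + s • a := by
    simp only [mem_smul_set, image_add_left, mem_preimage, singleton_add] at hy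
    rcases hy with ⟨a, az, ha⟩
    exact ⟨a, az, by simp only [ha, add_neg_cancel_left]⟩
  have h1 : dist (z + s • v) (w s) ≤ s * (ε / 2) := by
    rw [← hw2 s]
    refine (infDist_le_dist_of_mem yZ).trans ?_
    rw [ya, dist_eq_norm, add_sub_add_left_eq_sub, ← smul_sub, norm_smul, Real.norm_eq_abs,
      abs_of_pos hs0', ← dist_eq_norm, dist_comm]
    gcongr
    exact mem_closedBall.mp az
  have h2 : s⁻¹ • (w s - z) - v = s⁻¹ • (w s - (z + s • v)) := by
    rw [sub_add_eq_sub_sub, smul_sub s⁻¹ (w s - z), inv_smul_smul₀ hs0'.ne']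
  rw [dist_eq_norm, h2, norm_smul, norm_inv, Real.norm_eq_abs, abs_of_pos hs0', ← dist_eq_norm,
    dist_comm]
  calc s⁻¹ * dist (z + s • v) (w s) ≤ s⁻¹ * (s * (ε / 2)) := by gcongr
    _ = ε / 2 := by field_simp
    _ < ε := half_lt_self hε

end Density

section Local

variable {E : Type*} [NormedAddCommGroup E] [NormedSpace ℝ E]

/-- Derivative along a tangent curve. -/
theorem tendsto_deriv_along {X : E → E} {D : E →L[ℝ] E} {z v : E} (hX : HasFDerivAt X D z)
    {w : ℝ → E} (hw : Tendsto (fun s : ℝ => s⁻¹ • (w s - z)) (𝓝[>] 0) (𝓝 v)) :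
    Tendsto (fun s : ℝ => s⁻¹ • (X (w s) - X z)) (𝓝[>] 0) (𝓝 (D v)) := by
  have hd : Tendsto (fun s => w s - z) (𝓝[>] 0) (𝓝 0) := by
    have h1 : Tendsto (fun s : ℝ => s • (s⁻¹ • (w s - z))) (𝓝[>] 0) (𝓝 ((0 : ℝ) • v)) :=
      (show Tendsto (fun s : ℝ => s) (𝓝[>] 0) (𝓝 0) from nhdsWithin_le_nhds).smul hw
    rw [zero_smul] at h1
    refine h1.congr' ?_
    filter_upwards [self_mem_nhdsWithin] with s hs
    rw [smul_inv_smul₀ (show (0 : ℝ) < s from hs).ne']
  have h := (hX.hasFDerivWithinAt (s := univ)).lim (l := 𝓝[>] (0 : ℝ)) (c := fun s : ℝ => s⁻¹)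
    (d := fun s => w s - z) (v := v) hd (by simp) hw
  simpa using h

variable {h : E → ℝ} {Γ : Set (E × E)} {t : ℝ} {X Y : E → E} {Z : Set E} {z : E}
  {D D' : E →L[ℝ] E}

theorem combo_eq_id (hXY : ∀ w ∈ Z, (1 - t) • X w + t • Y w = w) (hz : z ∈ Z)
    (hX : HasFDerivAt X D z) (hY : HasFDerivAt Y D' z)
    (htan : ∀ v : E, ∃ w : ℝ → E, (∀ s, w s ∈ Z) ∧
      Tendsto (fun s : ℝ => s⁻¹ • (w s - z)) (𝓝[>] 0) (𝓝 v)) (v : E) :
    (1 - t) • D v + t • D' v = v := by
  obtain ⟨w, hwZ, hw⟩ := htan v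
  have h1 := tendsto_deriv_along hX hw
  have h2 := tendsto_deriv_along hY hw
  have h3 := (h1.const_smul (1 - t)).add (h2.const_smul t)
  refine tendsto_nhds_unique (h3.congr fun s => ?_) hw
  have e1 := hXY _ (hwZ s)
  have e2 := hXY _ hz
  calc (1 - t) • s⁻¹ • (X (w s) - X z) + t • s⁻¹ • (Y (w s) - Y z)
      = s⁻¹ • (((1 - t) • X (w s) + t • Y (w s)) - ((1 - t) • X z + t • Y z)) := by module
    _ = s⁻¹ • (w s - z) := by rw [e1, e2]

/-- The second order form of cyclical monotonicity. -/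
theorem cyc_second_order (hC : ContDiff ℝ 2 h) (hcyc : CycMono (fun x y => h (x - y)) Γ)
    (hXYΓ : ∀ w ∈ Z, (X w, Y w) ∈ Γ)
    (hX : HasFDerivAt X D z) (hY : HasFDerivAt Y D' z)
    (htan : ∀ v : E, ∃ w : ℝ → E, (∀ s, w s ∈ Z) ∧
      Tendsto (fun s : ℝ => s⁻¹ • (w s - z)) (𝓝[>] 0) (𝓝 v))
    (n : ℕ) (v : Fin n → E) (σ : Equiv.Perm (Fin n)) :
    0 ≤ ∑ i, Hess h (X z - Y z) (D (v i)) (D' (v i - v (σ i))) := by
  choose w hwZ hw using fun i => htan (v i)
  set a := X z - Y z with ha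
  have hs0 : Tendsto (fun s : ℝ => s) (𝓝[>] 0) (𝓝 0) := nhdsWithin_le_nhds
  have hsne : ∀ᶠ s : ℝ in 𝓝[>] 0, s ≠ 0 := by
    filter_upwards [self_mem_nhdsWithin] with s hs
    exact (show (0 : ℝ) < s from hs).ne'
  have hconv : ∀ i j, Tendsto (fun s : ℝ => s⁻¹ • ((X (w i s) - Y (w j s)) - a)) (𝓝[>] 0)
      (𝓝 (D (v i) - D' (v j))) := by
    intro i j
    refine ((tendsto_deriv_along hX (hw i)).sub (tendsto_deriv_along hY (hw j))).congr fun s => ?_
    rw [ha]
    module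
  have hT : ∀ i j, Tendsto (fun s : ℝ => (h (X (w i s) - Y (w j s)) - h a
      - fderiv ℝ h a ((X (w i s) - Y (w j s)) - a)) / s ^ 2) (𝓝[>] 0)
      (𝓝 ((1 / 2) * Hess h a (D (v i) - D' (v j)) (D (v i) - D' (v j)))) := fun i j =>
    tendsto_taylor hC a hs0 hsne (hconv i j)
  have hsum : Tendsto (fun s : ℝ => ∑ i, ((h (X (w i s) - Y (w (σ i) s)) - h a
      - fderiv ℝ h a ((X (w i s) - Y (w (σ i) s)) - a)) / s ^ 2
      - (h (X (w i s) - Y (w i s)) - h a
      - fderiv ℝ h a ((X (w i s) - Y (w i s)) - a)) / s ^ 2)) (𝓝[>] 0)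
      (𝓝 (∑ i, ((1 / 2) * Hess h a (D (v i) - D' (v (σ i))) (D (v i) - D' (v (σ i)))
        - (1 / 2) * Hess h a (D (v i) - D' (v i)) (D (v i) - D' (v i))))) :=
    tendsto_finsetSum _ fun i _ => (hT i (σ i)).sub (hT i i)
  have hnonneg : 0 ≤ ∑ i, ((1 / 2) * Hess h a (D (v i) - D' (v (σ i))) (D (v i) - D' (v (σ i)))
        - (1 / 2) * Hess h a (D (v i) - D' (v i)) (D (v i) - D' (v i))) := by
    refine ge_of_tendsto hsum ?_
    filter_upwards [hsne] with s hs
    have hc := hcyc n (fun i => (X (w i s), Y (w i s))) σ (fun i => hXYΓ _ (hwZ i s))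
    simp only at hc
    have hYsum : ∑ i, Y (w (σ i) s) = ∑ i, Y (w i s) := Equiv.sum_comp σ (fun i => Y (w i s))
    have hlin : ∑ i, fderiv ℝ h a ((X (w i s) - Y (w (σ i) s)) - a)
        = ∑ i, fderiv ℝ h a ((X (w i s) - Y (w i s)) - a) := by
      rw [← map_sum, ← map_sum]
      congr 1
      simp only [Finset.sum_sub_distrib, hYsum]
    have : ∑ i, ((h (X (w i s) - Y (w (σ i) s)) - h a
        - fderiv ℝ h a ((X (w i s) - Y (w (σ i) s)) - a)) / s ^ 2
        - (h (X (w i s) - Y (w i s)) - h a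
        - fderiv ℝ h a ((X (w i s) - Y (w i s)) - a)) / s ^ 2)
        = (∑ i, h (X (w i s) - Y (w (σ i) s)) - ∑ i, h (X (w i s) - Y (w i s))) / s ^ 2 := by
      rw [Finset.sum_sub_distrib, ← Finset.sum_div, ← Finset.sum_div, ← sub_div]
      congr 1
      simp only [Finset.sum_sub_distrib] at hlin ⊢
      linarith
    rw [this]
    apply div_nonneg _ (by positivity)
    linarith
  have hDsum : ∑ i, Hess h a (D' (v (σ i))) (D' (v (σ i))) = ∑ i, Hess h a (D' (v i)) (D' (v i)) :=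
    Equiv.sum_comp σ (fun i => Hess h a (D' (v i)) (D' (v i)))
  refine hnonneg.trans (le_of_eq ?_)
  have hterm : ∀ i, ((1 / 2) * Hess h a (D (v i) - D' (v (σ i))) (D (v i) - D' (v (σ i)))
        - (1 / 2) * Hess h a (D (v i) - D' (v i)) (D (v i) - D' (v i)))
      = Hess h a (D (v i)) (D' (v i - v (σ i)))
        + ((1 / 2) * Hess h a (D' (v (σ i))) (D' (v (σ i)))
          - (1 / 2) * Hess h a (D' (v i)) (D' (v i))) := by
    intro i
    have s1 := hess_symm hC a (D' (v (σ i))) (D (v i))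
    have s2 := hess_symm hC a (D' (v i)) (D (v i))
    simp only [map_sub, sub_apply]
    linarith
  rw [Finset.sum_congr rfl fun i _ => hterm i, Finset.sum_add_distrib, Finset.sum_sub_distrib,
    ← Finset.mul_sum, ← Finset.mul_sum, hDsum, sub_self, add_zero]

end Local

end MP_c487e3_gt
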